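import Pool.Agent.Q106.ST.Trans
import Pool.Agent.Q106.FL.Cells

/-!
# Nested counts: the bound from the dyadic windows
-/

set_option autoImplicit false

namespace Pool.Agent.Q106.ST

open Finset MeasureTheory Filter
open scoped Topology
open Pool.Agent.Q106.FL (Energy Near pt)

variable {r : ℕ}

/-- The path in the window `[2^(K n + s), 2^(K n + K + s))`. -/
noncomputable def W (D P : Fin r → ℕ → ℝ) (K s n : ℕ) (i : Fin r) (t : ℝ) : ℝ :=
  (D i (pt (2 ^ (K * n + s)) (2 ^ (K * n + K + s)) t) - D i (2 ^ (K * n + s))) /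
    √(2 * (P i (2 ^ (K * n + K + s)) - P i (2 ^ (K * n + s))) * Real.log n)

/-- The path at the scale `2^j`. -/
noncomputable def Zd (D P : Fin r → ℕ → ℝ) (j : ℕ) (i : Fin r) (t : ℝ) : ℝ :=
  D i ⌊t * 2 ^ j⌋₊ / √(2 * P i (2 ^ j) * Real.log j)

/-- The path at the scale `x`. -/
noncomputable def Z (D P : Fin r → ℕ → ℝ) (x : ℕ) (i : Fin r) (t : ℝ) : ℝ :=
  D i ⌊t * x⌋₊ / √(2 * P i x * Real.log (Real.log x))

/-- The hypotheses. -/
structure Nst (D P : Fin r → ℕ → ℝ) : Prop where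
  mono : ∀ i, Monotone (P i)
  top : ∀ i, Tendsto (P i) atTop atTop
  rv : ∀ i, ∀ ε > 0, ∀ᶠ b : ℕ in atTop, ∀ x ≤ b, |P i x - x / b * P i b| ≤ ε * P i b
  near : ∀ K ≥ 1, ∀ s, ∀ ε > 0, ∀ᶠ n in atTop, ∃ φ e, e ≤ 1 ∧ Energy φ e ∧ Near ε (W D P K s n) φ
  dense : ∀ K ≥ 1, ∀ s φ e, e ≤ 1 → Energy φ e → ∀ ε > 0, ∃ᶠ n in atTop, Near ε (W D P K s n) φ

theorem pow_top : Tendsto (fun j : ℕ => 2 ^ j) atTop atTop := tendsto_pow_atTop_atTop_of_one_lt (by norm_num)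

theorem lg_top : Tendsto (fun n : ℕ => Real.log (n : ℝ)) atTop atTop :=
  Real.tendsto_log_atTop.comp tendsto_natCast_atTop_atTop

variable {D P : Fin r → ℕ → ℝ}

/-- The ratio of two predicted numbers. -/
theorem Nst.ratio (h : Nst D P) (i : Fin r) (K : ℕ) {u : ℕ → ℕ} (hu : Tendsto u atTop atTop) :
    Tendsto (fun n => P i (2 ^ u n) / P i (2 ^ (u n + K))) atTop (𝓝 ((2 : ℝ) ^ K)⁻¹) := by
  rw [Metric.tendsto_nhds]
  intro ε hε
  have h1 : Tendsto (fun n => 2 ^ (u n + K)) atTop atTop := pow_top.comp (tendsto_atTop_mono (fun n => Nat.le_add_right (u n) K) hu)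
  filter_upwards [h1.eventually (h.rv i (ε / 2) (by positivity)), h1.eventually ((h.top i).eventually_gt_atTop 0)] with n h2 h3
  have h4 := h2 (2 ^ u n) (Nat.pow_le_pow_right (by norm_num) (by omega))
  have h5 : (((2 ^ u n : ℕ) : ℝ)) / ((2 ^ (u n + K) : ℕ) : ℝ) = ((2 : ℝ) ^ K)⁻¹ := by
    push_cast
    rw [pow_add]
    field_simp
  rw [h5] at h4
  rw [Real.dist_eq]
  have h6 : P i (2 ^ u n) / P i (2 ^ (u n + K)) - ((2 : ℝ) ^ K)⁻¹ =
      (P i (2 ^ u n) - ((2 : ℝ) ^ K)⁻¹ * P i (2 ^ (u n + K))) / P i (2 ^ (u n + K)) := by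
    field_simp
  rw [h6, abs_div, abs_of_pos h3, div_lt_iff₀ h3]
  nlinarith

/-- Points of dyadic windows. -/
theorem pt_dyadic {n K y : ℕ} (h1 : 2 ^ n ≤ y) (h2 : y ≤ 2 ^ (n + K)) (hK : 1 ≤ K) :
    ∃ t : ℝ, 0 ≤ t ∧ t ≤ 1 ∧ pt (2 ^ n) (2 ^ (n + K)) t = y := by
  have h3 : (2 : ℕ) ^ n < 2 ^ (n + K) := Nat.pow_lt_pow_right (by norm_num) (by omega)
  have h4 : (0 : ℝ) < ((2 ^ (n + K) : ℕ) : ℝ) - ((2 ^ n : ℕ) : ℝ) := by
    have : ((2 ^ n : ℕ) : ℝ) < ((2 ^ (n + K) : ℕ) : ℝ) := by exact_mod_cast h3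
    linarith
  have h5 : ((2 ^ n : ℕ) : ℝ) ≤ y := by exact_mod_cast h1
  have h6 : (y : ℝ) ≤ ((2 ^ (n + K) : ℕ) : ℝ) := by exact_mod_cast h2
  refine ⟨((y : ℝ) - ((2 ^ n : ℕ) : ℝ)) / (((2 ^ (n + K) : ℕ) : ℝ) - ((2 ^ n : ℕ) : ℝ)), ?_, ?_, ?_⟩
  · exact div_nonneg (by linarith) h4.le
  · rw [div_le_one h4]
    linarith
  · unfold pt
    rw [div_mul_cancel₀ _ h4.ne']
    have h7 : (y : ℝ) - ((2 ^ n : ℕ) : ℝ) = ((y - 2 ^ n : ℕ) : ℝ) := (Nat.cast_sub h1).symm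
    rw [h7, Nat.floor_natCast]
    omega

/-- One step. -/
theorem Nst.step (h : Nst D P) (i : Fin r) : ∀ᶠ n : ℕ in atTop, ∀ y, 2 ^ n ≤ y → y ≤ 2 ^ (n + 1) →
    |D i y - D i (2 ^ n)| ≤ 3 * √(P i (2 ^ (n + 1)) * Real.log n) := by
  have h1 := h.near 1 le_rfl 0 1 one_pos
  have h2 := (h.ratio i 1 tendsto_id).eventually_lt_const (show ((2 : ℝ) ^ 1)⁻¹ < 1 by norm_num)
  have h3 : Tendsto (fun n : ℕ => 2 ^ (n + 1)) atTop atTop := pow_top.comp (tendsto_add_atTop_nat 1)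
  filter_upwards [h1, h2, h3.eventually ((h.top i).eventually_gt_atTop 0), pow_top.eventually ((h.top i).eventually_gt_atTop 0),
    lg_top.eventually_gt_atTop 0] with n h4 h5 h6 h7 h8 y hy1 hy2
  simp only [id_eq] at h5
  obtain ⟨φ, e, he, hφ, hN⟩ := h4
  obtain ⟨t, ht0, ht1, ht⟩ := pt_dyadic (K := 1) hy1 hy2 le_rfl
  have h9 := hN i t ht0 ht1
  have h10 := energy_bound hφ he i ht0 ht1
  have h11 : √t ≤ 1 := by
    rw [← Real.sqrt_one]
    exact Real.sqrt_le_sqrt ht1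
  have h12 : |W D P 1 0 n i t| ≤ 2 := by
    have : W D P 1 0 n i t = (W D P 1 0 n i t - φ i t) + φ i t := by ring
    rw [this]
    refine (abs_add_le _ _).trans ?_
    linarith
  unfold W at h12
  simp only [one_mul, add_zero] at h12
  rw [ht] at h12
  rw [div_lt_one h6] at h5
  have h13 : 0 < 2 * (P i (2 ^ (n + 1)) - P i (2 ^ n)) * Real.log n := by
    have : 0 < P i (2 ^ (n + 1)) - P i (2 ^ n) := by linarith
    positivity
  rw [abs_div, abs_of_pos (Real.sqrt_pos.2 h13), div_le_iff₀ (Real.sqrt_pos.2 h13)] at h12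
  refine h12.trans ?_
  have h14 : √(2 * (P i (2 ^ (n + 1)) - P i (2 ^ n)) * Real.log n) ≤ √2 * √(P i (2 ^ (n + 1)) * Real.log n) := by
    rw [← Real.sqrt_mul (by norm_num)]
    refine Real.sqrt_le_sqrt ?_
    nlinarith [mul_pos h7 h8]
  have h15 : √(2 : ℝ) ≤ 3 / 2 := by
    rw [Real.sqrt_le_left (by norm_num)]
    norm_num
  have h16 : 0 ≤ √(P i (2 ^ (n + 1)) * Real.log n) := Real.sqrt_nonneg _
  nlinarith

/-- The dyadic points. -/
theorem Nst.dyad (h : Nst D P) (i : Fin r) : ∃ C > 0, ∀ᶠ n : ℕ in atTop, |D i (2 ^ n)| ≤ C * √(P i (2 ^ n) * Real.log n) := by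
  have h2 := (h.ratio i 1 tendsto_id).eventually_lt_const (show ((2 : ℝ) ^ 1)⁻¹ < 16 / 25 by norm_num)
  have h3 : Tendsto (fun n : ℕ => 2 ^ (n + 1)) atTop atTop := pow_top.comp (tendsto_add_atTop_nat 1)
  obtain ⟨n₀, hn₀⟩ := eventually_atTop.1 ((h.step i).and (h2.and ((h3.eventually ((h.top i).eventually_gt_atTop 0)).and
    ((pow_top.eventually ((h.top i).eventually_gt_atTop 0)).and (lg_top.eventually_gt_atTop 0)))))
  obtain ⟨C, hC⟩ : ∃ C, C = max 15 (|D i (2 ^ n₀)| / √(P i (2 ^ n₀) * Real.log n₀)) := ⟨_, rfl⟩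
  have hC1 : 15 ≤ C := by rw [hC]; exact le_max_left _ _
  refine ⟨C, by linarith, eventually_atTop.2 ⟨n₀, fun n hn => ?_⟩⟩
  induction n, hn using Nat.le_induction with
  | base =>
    obtain ⟨_, _, _, a1, a2⟩ := hn₀ n₀ le_rfl
    have hs : 0 < √(P i (2 ^ n₀) * Real.log n₀) := Real.sqrt_pos.2 (mul_pos a1 a2)
    rw [← div_le_iff₀ hs, hC]
    exact le_max_right _ _
  | succ n hn ih =>
    obtain ⟨a1, a2, a3, a4, a5⟩ := hn₀ n hn
    simp only [id_eq] at a2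
    rw [div_lt_iff₀ a3] at a2
    have e1 := a1 (2 ^ (n + 1)) (Nat.pow_le_pow_right (by norm_num) (by omega)) le_rfl
    have e2 : √(P i (2 ^ n) * Real.log n) ≤ 4 / 5 * √(P i (2 ^ (n + 1)) * Real.log n) := by
      have : (4 / 5 : ℝ) = √(16 / 25) := by
        rw [show (16 / 25 : ℝ) = (4 / 5) ^ 2 by norm_num, Real.sqrt_sq (by norm_num)]
      rw [this, ← Real.sqrt_mul (by norm_num)]
      exact Real.sqrt_le_sqrt (by nlinarith)
    have e3 : √(P i (2 ^ (n + 1)) * Real.log n) ≤ √(P i (2 ^ (n + 1)) * Real.log ((n + 1 : ℕ) : ℝ)) := by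
      refine Real.sqrt_le_sqrt (mul_le_mul_of_nonneg_left ?_ a3.le)
      have hn0 : (0 : ℝ) < n := by
        rcases Nat.eq_zero_or_pos n with hh | hh
        · subst hh
          simp at a5
        · exact_mod_cast hh
      exact Real.log_le_log hn0 (by push_cast; linarith)
    have e4 : 0 ≤ √(P i (2 ^ (n + 1)) * Real.log n) := Real.sqrt_nonneg _
    have e5 : |D i (2 ^ (n + 1))| ≤ |D i (2 ^ (n + 1)) - D i (2 ^ n)| + |D i (2 ^ n)| := by
      have := abs_add_le (D i (2 ^ (n + 1)) - D i (2 ^ n)) (D i (2 ^ n))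
      rwa [sub_add_cancel] at this
    nlinarith

/-- **The bound.** -/
theorem Nst.bound (h : Nst D P) : ∃ C > 0, ∀ᶠ j : ℕ in atTop, ∀ i, ∀ y ≤ 2 ^ j, |D i y| ≤ C * √(P i (2 ^ j) * Real.log j) := by
  have key : ∀ i, ∃ C > 0, ∀ᶠ j : ℕ in atTop, ∀ y ≤ 2 ^ j, |D i y| ≤ C * √(P i (2 ^ j) * Real.log j) := by
    intro i
    obtain ⟨C, hC0, hC⟩ := h.dyad i
    obtain ⟨n₀, hn₀⟩ := eventually_atTop.1 (hC.and ((h.step i).and ((pow_top.eventually ((h.top i).eventually_gt_atTop 0)).and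
      (eventually_ge_atTop 1))))
    obtain ⟨B, hB⟩ : ∃ B, ∀ y ≤ 2 ^ n₀, |D i y| ≤ B := by
      refine ⟨∑ y ∈ range (2 ^ n₀ + 1), |D i y|, fun y hy => ?_⟩
      exact single_le_sum (f := fun y => |D i y|) (fun _ _ => abs_nonneg _) (mem_range.2 (by omega))
    have htop : Tendsto (fun j : ℕ => (C + 3) * √(P i (2 ^ j) * Real.log j)) atTop atTop := by
      refine Tendsto.const_mul_atTop (by linarith) (Real.tendsto_sqrt_atTop.comp ?_)
      exact ((h.top i).comp pow_top).atTop_mul_atTop₀ lg_top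
    refine ⟨C + 3, by linarith, ?_⟩
    filter_upwards [htop.eventually_ge_atTop B, eventually_ge_atTop n₀] with j hj1 hj2 y hy
    by_cases hy0 : y ≤ 2 ^ n₀
    · exact (hB y hy0).trans hj1
    · push Not at hy0
      obtain ⟨n, hn⟩ : ∃ n, n = Nat.log 2 (y - 1) := ⟨_, rfl⟩
      have hy1 : y - 1 ≠ 0 := by
        have : 1 ≤ 2 ^ n₀ := Nat.one_le_two_pow
        omega
      have e1 : 2 ^ n ≤ y - 1 := by rw [hn]; exact Nat.pow_log_le_self 2 hy1
      have e2 : y - 1 < 2 ^ (n + 1) := by rw [hn]; exact Nat.lt_pow_succ_log_self (by norm_num) _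
      have e3 : n₀ ≤ n := by
        by_contra hcon
        have : 2 ^ (n + 1) ≤ 2 ^ n₀ := Nat.pow_le_pow_right (by norm_num) (by omega)
        omega
      have e4 : n + 1 ≤ j := by
        by_contra hcon
        have : 2 ^ j ≤ 2 ^ n := Nat.pow_le_pow_right (by norm_num) (by omega)
        omega
      obtain ⟨a1, a2, a3, a4⟩ := hn₀ n e3
      have e5 := a2 y (by omega) (by omega)
      have hpos : 0 < P i (2 ^ j) := lt_of_lt_of_le a3 (h.mono i (Nat.pow_le_pow_right (by norm_num) (by omega)))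
      have e6 : ∀ m ≤ j, √(P i (2 ^ m) * Real.log n) ≤ √(P i (2 ^ j) * Real.log j) := by
        intro m hm
        refine Real.sqrt_le_sqrt ?_
        have b1 : P i (2 ^ m) ≤ P i (2 ^ j) := h.mono i (Nat.pow_le_pow_right (by norm_num) hm)
        have b2 : Real.log (n : ℝ) ≤ Real.log j :=
          Real.log_le_log (by exact_mod_cast a4) (by exact_mod_cast (show n ≤ j by omega))
        have b3 : 0 ≤ Real.log (n : ℝ) := Real.log_nonneg (by exact_mod_cast a4)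
        nlinarith
      have e7 := e6 n (by omega)
      have e8 := e6 (n + 1) (by omega)
      have e9 : |D i y| ≤ |D i y - D i (2 ^ n)| + |D i (2 ^ n)| := by
        have := abs_add_le (D i y - D i (2 ^ n)) (D i (2 ^ n))
        rwa [sub_add_cancel] at this
      nlinarith
  choose C hC0 hC using key
  refine ⟨∑ i, C i + 1, by
    have := sum_nonneg (s := univ) (fun i _ => (hC0 i).le)
    linarith, ?_⟩
  filter_upwards [eventually_all.2 hC] with j hj i y hy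
  refine (hj i y hy).trans (mul_le_mul_of_nonneg_right ?_ (Real.sqrt_nonneg _))
  have := single_le_sum (f := C) (fun i _ => (hC0 i).le) (mem_univ i)
  linarith

end Pool.Agent.Q106.ST
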