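import Pool.Agent.Q106.ST.Pol

/-!
# The constants of the polynomials `X ^ 2 + X + a`, and families of shifts
-/

set_option autoImplicit false

namespace Pool.Agent.Q106.ST

open Finset Filter Polynomial
open scoped NumberTheorySymbols
open Pool.Agent.Q106.GMM (val)

/-- The number of the `r` modulo `Q` such that `r ^ 2 + r + a` is a unit. -/
noncomputable def UA (a : ℤ) (Q : ℕ) : ℕ := Nat.card {r : ZMod Q // IsUnit (r ^ 2 + r + (a : ZMod Q))}

theorem UA_mul (a : ℤ) {m n : ℕ} (h : m.Coprime n) : UA a (m * n) = UA a m * UA a n := by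
  unfold UA
  rw [← Nat.card_prod]
  let e := ZMod.chineseRemainder h
  have hunit : ∀ r : ZMod (m * n), IsUnit (r ^ 2 + r + (a : ZMod (m * n))) ↔
      IsUnit ((e r).1 ^ 2 + (e r).1 + (a : ZMod m)) ∧ IsUnit ((e r).2 ^ 2 + (e r).2 + (a : ZMod n)) := by
    intro r
    have h1 : IsUnit (r ^ 2 + r + (a : ZMod (m * n))) ↔ IsUnit (e (r ^ 2 + r + (a : ZMod (m * n)))) :=
      (MulEquiv.isUnit_map e.toMulEquiv).symm
    rw [h1, Prod.isUnit_iff]
    have h2 : e (r ^ 2 + r + (a : ZMod (m * n))) = (e r) ^ 2 + e r + (a : ZMod m × ZMod n) := by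
      rw [map_add, map_add, map_pow]
      congr 1
      exact map_intCast e a
    rw [h2]
    simp
  refine Nat.card_congr ?_
  refine (Equiv.subtypeEquiv e.toEquiv (q := fun s => IsUnit (s.1 ^ 2 + s.1 + (a : ZMod m)) ∧
    IsUnit (s.2 ^ 2 + s.2 + (a : ZMod n))) hunit).trans ?_
  exact Equiv.subtypeProdEquivProd (p := fun r : ZMod m => IsUnit (r ^ 2 + r + (a : ZMod m)))
    (q := fun r : ZMod n => IsUnit (r ^ 2 + r + (a : ZMod n)))

theorem UA_one (a : ℤ) : UA a 1 = 1 := by
  unfold UA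
  have h : ∀ r : ZMod 1, IsUnit (r ^ 2 + r + (a : ZMod 1)) := fun r => by
    have : r ^ 2 + r + (a : ZMod 1) = 1 := Subsingleton.elim _ _
    rw [this]
    exact isUnit_one
  rw [Nat.card_congr (Equiv.subtypeUnivEquiv h), Nat.card_zmod]

theorem UA_two {a : ℤ} (ha : Odd a) : UA a 2 = 2 := by
  unfold UA
  have h : ∀ r : ZMod 2, IsUnit (r ^ 2 + r + (a : ZMod 2)) := fun r => by
    have h1 : (a : ZMod 2) = 1 := by
      obtain ⟨k, rfl⟩ := ha
      push_cast
      have : (2 : ZMod 2) = 0 := by decide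
      rw [this]
      ring
    rw [h1]
    revert r
    decide
  rw [Nat.card_congr (Equiv.subtypeUnivEquiv h), Nat.card_zmod]

theorem UA_prime (a : ℤ) {p : ℕ} (hp : p.Prime) (h2 : p ≠ 2) : (UA a p : ℝ) = (p : ℝ) - 1 - (J(1 - 4 * a | p) : ℝ) := by
  have : Fact p.Prime := ⟨hp⟩
  have h1 := legendreSym.card_sqrts p h2 (1 - 4 * a)
  have hp2 : (2 : ZMod p) ≠ 0 := by
    intro h
    have h3 : ((2 : ℕ) : ZMod p) = 0 := by exact_mod_cast h
    rw [ZMod.natCast_eq_zero_iff] at h3
    exact h2 ((Nat.prime_dvd_prime_iff_eq hp Nat.prime_two).1 h3)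
  unfold UA
  have hc : ((univ : Finset (ZMod p)).filter (fun x : ZMod p => ¬ IsUnit (x ^ 2 + x + (a : ZMod p)))).card =
      ({x : ZMod p | x ^ 2 = ((1 - 4 * a : ℤ) : ZMod p)} : Set (ZMod p)).toFinset.card := by
    refine card_bij (fun x _ => 2 * x + 1) ?_ ?_ ?_
    · intro x hx
      rw [mem_filter, isUnit_iff_ne_zero, ne_eq, not_not] at hx
      simp only [Set.mem_toFinset, Set.mem_setOf_eq]
      push_cast
      have : (2 * x + 1) ^ 2 = 4 * (x ^ 2 + x + (a : ZMod p)) + (1 - 4 * a) := by ring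
      rw [this, hx.2]
      ring
    · intro x _ y _ h
      have h3 : (2 : ZMod p) * (x - y) = 0 := by linear_combination h
      rcases mul_eq_zero.1 h3 with h4 | h4
      · exact absurd h4 hp2
      · exact sub_eq_zero.1 h4
    · intro y hy
      simp only [Set.mem_toFinset, Set.mem_setOf_eq] at hy
      push_cast at hy
      refine ⟨(y - 1) / 2, ?_, ?_⟩
      · rw [mem_filter, isUnit_iff_ne_zero, ne_eq, not_not]
        refine ⟨mem_univ _, ?_⟩
        have h3 : (4 : ZMod p) ≠ 0 := by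
          have : (4 : ZMod p) = 2 * 2 := by norm_num
          rw [this]
          exact mul_ne_zero hp2 hp2
        have h4 : (4 : ZMod p) * (((y - 1) / 2) ^ 2 + (y - 1) / 2 + (a : ZMod p)) = 0 := by
          have : (4 : ZMod p) * (((y - 1) / 2) ^ 2 + (y - 1) / 2 + (a : ZMod p)) = y ^ 2 - (1 - 4 * a) := by
            field_simp
            ring
          rw [this, hy, sub_self]
        rcases mul_eq_zero.1 h4 with h5 | h5
        · exact absurd h5 h3
        · exact h5
      · field_simp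
        ring
  have h3 : Nat.card {r : ZMod p // IsUnit (r ^ 2 + r + (a : ZMod p))} +
      ({x : ZMod p | x ^ 2 = ((1 - 4 * a : ℤ) : ZMod p)} : Set (ZMod p)).toFinset.card = p := by
    rw [Nat.card_eq_fintype_card, Fintype.card_subtype, ← hc, card_filter_add_card_filter_not]
    simp [ZMod.card]
  have h5 : (J(1 - 4 * a | p) : ℤ) = legendreSym p (1 - 4 * a) := (jacobiSym.legendreSym.to_jacobiSym p _).symm
  rw [h5]
  have h6 : ((Nat.card {r : ZMod p // IsUnit (r ^ 2 + r + (a : ZMod p))} : ℕ) : ℤ) + (legendreSym p (1 - 4 * a) + 1) = p := by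
    rw [← h1]
    exact_mod_cast h3
  have h7 : ((Nat.card {r : ZMod p // IsUnit (r ^ 2 + r + (a : ZMod p))} : ℕ) : ℝ) + ((legendreSym p (1 - 4 * a) : ℝ) + 1) = p := by
    exact_mod_cast h6
  linarith

open Classical in
theorem ua_card {Q : ℕ} (hQ : 1 ≤ Q) (a : ℤ) :
    ((range Q).filter (fun m : ℕ => ∀ f ∈ ({X ^ 2 + X + C a} : Finset ℤ[X]), IsCoprime (f.eval (m : ℤ)) (Q : ℤ))).card =
      UA a Q := by
  have : NeZero Q := ⟨by omega⟩
  have hev : ∀ m : ℕ, (X ^ 2 + X + C a : ℤ[X]).eval (m : ℤ) = (m : ℤ) ^ 2 + m + a := by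
    intro m
    simp
  unfold UA
  rw [Nat.card_eq_fintype_card, Fintype.card_subtype]
  refine card_bij (fun m _ => (m : ZMod Q)) ?_ ?_ ?_
  · intro m hm
    rw [mem_filter] at hm ⊢
    refine ⟨mem_univ _, ?_⟩
    have h := hm.2 _ (mem_singleton_self _)
    rw [hev, isCoprime_comm, ← ZMod.coe_int_isUnit_iff_isCoprime] at h
    push_cast at h
    exact h
  · intro m hm n hn h
    rw [mem_filter, mem_range] at hm hn
    have h1 := (ZMod.natCast_eq_natCast_iff' m n Q).1 h
    rwa [Nat.mod_eq_of_lt hm.1, Nat.mod_eq_of_lt hn.1] at h1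
  · intro r hr
    rw [mem_filter] at hr
    refine ⟨r.val, ?_, ZMod.natCast_zmod_val r⟩
    rw [mem_filter, mem_range]
    refine ⟨ZMod.val_lt r, ?_⟩
    intro g hg
    rw [mem_singleton] at hg
    subst hg
    rw [hev, isCoprime_comm, ← ZMod.coe_int_isUnit_iff_isCoprime]
    have h1 := hr.2
    rw [← ZMod.natCast_zmod_val r] at h1
    push_cast
    exact h1

/-- The constant at the primorial levels. -/
theorem series_prim {a : ℤ} (ha : Odd a) {z : ℕ} (hz : 2 ≤ z) :
    series (primorial z) {X ^ 2 + X + C a} =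
      2 * ∏ p ∈ (range (z + 1)).filter (fun p => p.Prime ∧ p ≠ 2), (1 - (J(1 - 4 * a | p) : ℝ) / ((p : ℝ) - 1)) := by
  classical
  have key : ∀ T : Finset ℕ, (∀ p ∈ T, p.Prime) → 1 ≤ ∏ p ∈ T, p ∧
      (UA a (∏ p ∈ T, p) : ℝ) = (Nat.totient (∏ p ∈ T, p) : ℝ) *
        ((if 2 ∈ T then 2 else 1) * ∏ p ∈ T.filter (fun p => p ≠ 2), (1 - (J(1 - 4 * a | p) : ℝ) / ((p : ℝ) - 1))) := by
    intro T
    induction T using Finset.induction_on with
    | empty =>
      intro _
      simp [UA_one]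
    | insert p T hp ih =>
      intro hT
      have hpp := hT p (mem_insert_self _ _)
      obtain ⟨ih1, ih2⟩ := ih (fun q hq => hT q (mem_insert_of_mem hq))
      have hcop : p.Coprime (∏ q ∈ T, q) := by
        refine Nat.Coprime.prod_right (fun q hq => ?_)
        refine (Nat.coprime_primes hpp (hT q (mem_insert_of_mem hq))).2 ?_
        rintro rfl
        exact hp hq
      rw [prod_insert hp]
      refine ⟨Nat.mul_pos hpp.pos ih1, ?_⟩
      rw [UA_mul a hcop, Nat.totient_mul hcop, Nat.cast_mul, Nat.cast_mul, ih2, Nat.totient_prime hpp, filter_insert]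
      have hp1 : (1 : ℝ) < p := by exact_mod_cast hpp.one_lt
      have hp1' : (p : ℝ) - 1 ≠ 0 := by linarith
      by_cases h2 : p = 2
      · subst h2
        rw [if_neg hp, if_neg (show ¬ ((2 : ℕ) ≠ 2) by simp), UA_two ha, if_pos (mem_insert_self _ _)]
        norm_num
        ring
      · rw [if_pos h2, prod_insert (fun h => hp (mem_filter.1 h).1), UA_prime a hpp h2, Nat.cast_sub hpp.one_lt.le]
        have h3 : (2 ∈ insert p T) ↔ 2 ∈ T := by
          rw [mem_insert]
          constructor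
          · rintro (h | h)
            · exact absurd h.symm h2
            · exact h
          · exact Or.inr
        simp only [h3]
        field_simp
        push_cast
        ring
  have hT : ∀ p ∈ (range (z + 1)).filter (fun p => p.Prime), p.Prime := fun p hp => (mem_filter.1 hp).2
  obtain ⟨h1, h2⟩ := key _ hT
  have h3 : (0 : ℝ) < (Nat.totient (∏ p ∈ (range (z + 1)).filter (fun p => p.Prime), p) : ℝ) := by
    exact_mod_cast Nat.totient_pos.2 h1
  have h4 : (0 : ℝ) < ((∏ p ∈ (range (z + 1)).filter (fun p => p.Prime), p : ℕ) : ℝ) := by exact_mod_cast h1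
  have h5 : 2 ∈ (range (z + 1)).filter (fun p => p.Prime) := mem_filter.2 ⟨mem_range.2 (by omega), Nat.prime_two⟩
  rw [if_pos h5, filter_filter] at h2
  unfold series primorial
  rw [ua_card h1 a, h2, card_singleton, pow_one]
  field_simp

/-- The constants are positive. -/
theorem series_pos {a : ℤ} (ha : Odd a) {Q : ℕ} (hQ : 1 ≤ Q) : 0 < series Q {X ^ 2 + X + C a} := by
  classical
  have : NeZero Q := ⟨by omega⟩
  have h1 : 0 < UA a Q := by
    unfold UA
    rw [Nat.card_pos_iff]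
    refine ⟨?_, inferInstance⟩
    obtain ⟨P₁, hP₁⟩ : ∃ P₁ : ℕ, P₁ = ∏ p ∈ Q.primeFactors.filter (fun p : ℕ => ¬ (p : ℤ) ∣ a), p := ⟨_, rfl⟩
    obtain ⟨P₂, hP₂⟩ : ∃ P₂ : ℕ, P₂ = ∏ p ∈ Q.primeFactors.filter (fun p : ℕ => (p : ℤ) ∣ a), p := ⟨_, rfl⟩
    have hcop : P₁.Coprime P₂ := by
      rw [hP₁, hP₂]
      refine Nat.Coprime.prod_left (fun p hp => Nat.Coprime.prod_right (fun q hq => ?_))
      rw [mem_filter] at hp hq
      refine (Nat.coprime_primes (Nat.prime_of_mem_primeFactors hp.1) (Nat.prime_of_mem_primeFactors hq.1)).2 ?_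
      rintro rfl
      exact hp.2 hq.2
    obtain ⟨m, hm1, hm2⟩ := Nat.chineseRemainder hcop 0 1
    refine ⟨⟨((m : ℤ) : ZMod Q), ?_⟩⟩
    have h2 : (((m : ℤ) : ZMod Q)) ^ 2 + ((m : ℤ) : ZMod Q) + (a : ZMod Q) = (((m : ℤ) ^ 2 + m + a : ℤ) : ZMod Q) := by
      push_cast
      ring
    rw [h2, ZMod.coe_int_isUnit_iff_isCoprime, Int.isCoprime_iff_gcd_eq_one]
    by_contra hcon
    obtain ⟨p, hp, hpd⟩ := Nat.exists_prime_and_dvd hcon
    have hpQ : p ∣ Q := by
      have h3 := hpd.trans (Int.gcd_dvd_natAbs_left _ _)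
      simpa using h3
    have hpv : (p : ℤ) ∣ (m : ℤ) ^ 2 + m + a := by
      have h3 := hpd.trans (Int.gcd_dvd_natAbs_right _ _)
      exact Int.natCast_dvd.2 h3
    have hpf : p ∈ Q.primeFactors := Nat.mem_primeFactors.2 ⟨hp, hpQ, by omega⟩
    by_cases hpa : (p : ℤ) ∣ a
    · have h3 : p ∣ P₂ := by
        rw [hP₂]
        exact dvd_prod_of_mem _ (mem_filter.2 ⟨hpf, hpa⟩)
      have h4 : (p : ℤ) ∣ (m : ℤ) - 1 := by
        have h5 := (Nat.ModEq.dvd (hm2.of_dvd h3)).neg_right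
        have h6 : -(((1 : ℕ) : ℤ) - (m : ℤ)) = (m : ℤ) - 1 := by push_cast; ring
        rwa [h6] at h5
      have h5 : (p : ℤ) ∣ 2 := by
        have h6 : (2 : ℤ) = ((m : ℤ) ^ 2 + m + a) - a - ((m : ℤ) - 1) * (m + 2) := by ring
        rw [h6]
        exact dvd_sub (dvd_sub hpv hpa) (h4.mul_right _)
      have h6 : p = 2 := by
        have : p ∣ 2 := by exact_mod_cast h5
        exact (Nat.prime_dvd_prime_iff_eq hp Nat.prime_two).1 this
      subst h6
      rcases ha with ⟨k, hk⟩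
      rw [hk] at hpa
      have : (2 : ℤ) ∣ 1 := by
        have h7 : (1 : ℤ) = (2 * k + 1) - 2 * k := by ring
        rw [h7]
        exact dvd_sub (by exact_mod_cast hpa) (dvd_mul_right 2 k)
      omega
    · have h3 : p ∣ P₁ := by
        rw [hP₁]
        exact dvd_prod_of_mem _ (mem_filter.2 ⟨hpf, hpa⟩)
      have h4 : (p : ℤ) ∣ (m : ℤ) := by
        have h5 := (Nat.ModEq.dvd (hm1.of_dvd h3)).neg_right
        have h6 : -(((0 : ℕ) : ℤ) - (m : ℤ)) = (m : ℤ) := by push_cast; ring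
        rwa [h6] at h5
      refine hpa ?_
      have h6 : a = ((m : ℤ) ^ 2 + m + a) - (m : ℤ) * (m + 1) := by ring
      rw [h6]
      exact dvd_sub hpv (h4.mul_right _)
  have hQ0 : (0 : ℝ) < Q := by exact_mod_cast hQ
  have hφ : (0 : ℝ) < Nat.totient Q := by exact_mod_cast Nat.totient_pos.2 hQ
  have h3 : (0 : ℝ) < UA a Q := by exact_mod_cast h1
  unfold series
  rw [ua_card hQ a]
  positivity

/-- **Shifts of a polynomial by different sets.** -/
theorem apart_shifts {g : ℤ[X]} (hd : 2 ≤ g.natDegree) (hf : 0 < g.leadingCoeff) {H H' : Finset ℤ} (hne : H.Nonempty)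
    (hne' : H'.Nonempty) (hH : H ≠ H') : Apart (H.image (fun h => g + C h)) (H'.image (fun h => g + C h)) := by
  classical
  obtain ⟨D, hD⟩ : ∃ D : ℕ, D = ∑ h ∈ H, h.natAbs + ∑ h ∈ H', h.natAbs := ⟨_, rfl⟩
  obtain ⟨m₀, hm₀⟩ := eventually_atTop.1 ((GMM.val_inc hd hf D).and (GMM.val_cast (f := g) (by omega) hf))
  have hmono : ∀ m m' : ℕ, m₀ ≤ m → m < m' → g.eval (m : ℤ) + D < g.eval (m' : ℤ) := by
    intro m m' hm hmm
    have h1 : ∀ k, m₀ ≤ k → g.eval (k : ℤ) + D < g.eval ((k + 1 : ℕ) : ℤ) := by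
      intro k hk
      obtain ⟨a1, a2⟩ := hm₀ k hk
      obtain ⟨_, a3⟩ := hm₀ (k + 1) (by omega)
      rw [← a2, ← a3]
      exact_mod_cast a1
    induction m', hmm using Nat.le_induction with
    | base => exact h1 m hm
    | succ k hk ih =>
      have h2 := h1 k (by omega)
      have h3 : (0 : ℤ) ≤ D := Int.natCast_nonneg D
      push_cast at h2 ih ⊢
      linarith
  have hab : ∀ h ∈ H, ∀ h' ∈ H', h - h' ≤ D ∧ h' - h ≤ D := by
    intro h hh h' hh'
    have e1 : h.natAbs ≤ ∑ h ∈ H, h.natAbs := single_le_sum (f := fun h : ℤ => h.natAbs) (fun _ _ => Nat.zero_le _) hh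
    have e2 : h'.natAbs ≤ ∑ h ∈ H', h.natAbs := single_le_sum (f := fun h : ℤ => h.natAbs) (fun _ _ => Nat.zero_le _) hh'
    constructor <;> omega
  have him : ∀ (T : Finset ℤ) (m : ℕ), (T.image (fun h => g + C h)).image (fun f : ℤ[X] => f.eval (m : ℤ)) =
      T.image (fun h => g.eval (m : ℤ) + h) := by
    intro T m
    rw [image_image]
    refine image_congr (fun h _ => ?_)
    simp
  refine ⟨m₀, fun m m' hm hm' heq => ?_⟩
  rw [him, him] at heq
  rcases lt_trichotomy m m' with h1 | h1 | h1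
  · obtain ⟨h', hh'⟩ := hne'
    have h2 : g.eval (m' : ℤ) + h' ∈ H.image (fun h => g.eval (m : ℤ) + h) := by
      rw [heq]
      exact mem_image.2 ⟨h', hh', rfl⟩
    obtain ⟨h, hh, h3⟩ := mem_image.1 h2
    have h4 := hmono m m' hm h1
    have h5 := (hab h hh h' hh').1
    linarith
  · subst h1
    refine hH ?_
    have hinj : Function.Injective (fun h : ℤ => g.eval (m : ℤ) + h) := add_right_injective _
    exact Finset.image_injective hinj heq
  · obtain ⟨h, hh⟩ := hne
    have h2 : g.eval (m : ℤ) + h ∈ H'.image (fun h => g.eval (m' : ℤ) + h) := by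
      rw [← heq]
      exact mem_image.2 ⟨h, hh, rfl⟩
    obtain ⟨h', hh', h3⟩ := mem_image.1 h2
    have h4 := hmono m' m hm' h1
    have h5 := (hab h hh h' hh').2
    linarith

end Pool.Agent.Q106.ST
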