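import Pool.Agent.Q106.ST.CnA

/-!
# The law of the iterated logarithm and the asymptotic formula for one system
-/

set_option autoImplicit false

namespace Pool.Agent.Q106.ST

open Finset MeasureTheory Filter Polynomial
open scoped Topology
open Pool.Agent.Q120.GM (IsModel level)
open Pool.Agent.Q106.GMM (val UU)
open Pool.Agent.Q106.FL (Energy Near)

/-- The growth of the predicted number. -/
theorem predicted_growth {Q : ℕ} (hQ : 1 ≤ Q) {F : Finset ℤ[X]} (h1 : PSys F) (h2 : 0 < series Q F) :
    Tendsto (fun x : ℕ => predicted Q F x) atTop atTop ∧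
      Tendsto (fun x : ℕ => Real.log (Real.log (x : ℝ)) / predicted Q F x) atTop (𝓝 0) := by
  obtain ⟨m₁, hS, hser⟩ := exists_sys (r := 1) (F := fun _ => F) hQ (fun _ => h1) (fun _ => h2)
    (fun i j hij => absurd (Subsingleton.elim i j) hij)
  obtain ⟨L, hL, h3⟩ := hS.pred 0
  have hP : ∀ y, cP Q (fun _ : Fin 1 => F) val m₁ 0 y = predicted Q F y := by
    intro y
    unfold cP predicted UV.fw
    rw [hser 0]
  simp only [hP] at h3
  have hU := GMM.UU_top (r := 1) (q := -(F.card : ℝ)) (Or.inl one_pos)
  have hU2 := GMM.UU_top (r := 1) (q := -(F.card : ℝ) - 1) (Or.inl one_pos)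
  have htop : Tendsto (fun x : ℕ => predicted Q F x) atTop atTop := by
    refine (h3.pos_mul_atTop hL hU).congr' ?_
    filter_upwards [hU.eventually_gt_atTop 0] with N hN
    field_simp
  refine ⟨htop, ?_⟩
  have h4 : Tendsto (fun x : ℕ => Real.log (x : ℝ) / predicted Q F x) atTop (𝓝 0) := by
    have h5 := (h3.pos_mul_atTop hL hU2).inv_tendsto_atTop
    refine h5.congr' ?_
    filter_upwards [hU.eventually_gt_atTop 0, lg_top.eventually_gt_atTop 0, htop.eventually_gt_atTop 0,
      eventually_gt_atTop 0] with N a1 a2 a3 a4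
    have hN : (0 : ℝ) < N := by exact_mod_cast a4
    have e1 : UU 1 (-(F.card : ℝ) - 1) N = UU 1 (-(F.card : ℝ)) N / Real.log N := by
      unfold UU
      rw [Real.rpow_sub_one a2.ne']
      ring
    simp only [Pi.inv_apply]
    rw [e1]
    field_simp
  refine squeeze_zero' ?_ ?_ h4
  · filter_upwards [llog_top.eventually_ge_atTop 0, htop.eventually_gt_atTop 0] with x a1 a2
    positivity
  · filter_upwards [lg_top.eventually_gt_atTop 0, htop.eventually_gt_atTop 0] with x a1 a2
    refine div_le_div_of_nonneg_right ?_ a2.le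
    have := Real.log_le_sub_one_of_pos a1
    linarith

/-- **One system.** -/
theorem one_system {Ω : Type*} [MeasurableSpace Ω] {μ : Measure Ω} [IsProbabilityMeasure μ] {A : Ω → Set ℕ} {Q : ℕ}
    (hQ : 1 ≤ Q) (hA : IsModel μ (level Q) A) {F : Finset ℤ[X]} (h1 : PSys F) (h2 : 0 < series Q F) : ∀ᵐ ω ∂μ,
      Tendsto (fun x : ℕ => count (A ω) F x / predicted Q F x) atTop (𝓝 1) ∧
      ∀ c : ℝ, MapClusterPt c atTop (fun x : ℕ => (count (A ω) F x - predicted Q F x) /
        √(2 * predicted Q F x * Real.log (Real.log x))) ↔ |c| ≤ 1 := by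
  obtain ⟨htop, hrat⟩ := predicted_growth hQ h1 h2
  filter_upwards [poly_strassen (r := 1) (F := fun _ => F) hQ hA (fun _ => h1) (fun _ => h2)
    (fun i j hij => absurd (Subsingleton.elim i j) hij)] with ω hω
  obtain ⟨hn, hd⟩ := hω
  obtain ⟨u, hu⟩ : ∃ u : ℕ → ℝ, u = fun x : ℕ => (count (A ω) F x - predicted Q F x) /
    √(2 * predicted Q F x * Real.log (Real.log x)) := ⟨_, rfl⟩
  have hpu : ∀ x, path (A ω) Q F x 1 = u x := by
    intro x
    rw [hu]
    unfold path
    rw [one_mul, Nat.floor_natCast]
  have hup : ∀ ε > 0, ∀ᶠ x in atTop, |u x| ≤ 1 + ε := by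
    intro ε hε
    filter_upwards [hn ε hε] with x hx
    obtain ⟨φ, e, he, hφ, hN⟩ := hx
    have a1 := hN 0 1 zero_le_one le_rfl
    simp only [hpu] at a1
    have a2 := energy_bound hφ he 0 zero_le_one le_rfl
    rw [Real.sqrt_one] at a2
    have a3 := abs_add_le (u x - φ 0 1) (φ 0 1)
    rw [sub_add_cancel] at a3
    linarith
  rw [← hu]
  constructor
  · have h3 : Tendsto (fun x : ℕ => √(2 * (Real.log (Real.log (x : ℝ)) / predicted Q F x))) atTop (𝓝 0) := by
      have := (hrat.const_mul 2).sqrt
      rwa [mul_zero, Real.sqrt_zero] at this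
    have h4 : Tendsto (fun x : ℕ => u x * √(2 * (Real.log (Real.log (x : ℝ)) / predicted Q F x))) atTop (𝓝 0) := by
      have h6 := h3.const_mul 2
      rw [mul_zero] at h6
      refine squeeze_zero_norm' ?_ h6
      filter_upwards [hup 1 one_pos] with x hx
      rw [norm_mul, Real.norm_eq_abs, Real.norm_eq_abs, abs_of_nonneg (Real.sqrt_nonneg _)]
      exact mul_le_mul_of_nonneg_right (by linarith) (Real.sqrt_nonneg _)
    have h5 := h4.const_add 1
    rw [add_zero] at h5
    refine h5.congr' ?_
    filter_upwards [htop.eventually_gt_atTop 0, llog_top.eventually_gt_atTop 0] with x a1 a2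
    have e1 : √(2 * predicted Q F x * Real.log (Real.log x)) =
        √(2 * (Real.log (Real.log (x : ℝ)) / predicted Q F x)) * predicted Q F x := by
      have e2 : predicted Q F x = √(predicted Q F x ^ 2) := (Real.sqrt_sq a1.le).symm
      conv_rhs => rw [e2]
      rw [← Real.sqrt_mul (by positivity)]
      congr 1
      rw [Real.sqrt_sq a1.le]
      field_simp
    have e3 : 0 < √(2 * (Real.log (Real.log (x : ℝ)) / predicted Q F x)) := Real.sqrt_pos.2 (by positivity)
    rw [hu]
    simp only
    rw [e1]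
    field_simp
    ring
  · intro c
    rw [mapClusterPt_iff_frequently]
    constructor
    · intro h
      refine le_of_forall_pos_le_add (fun ε hε => ?_)
      have h3 := (h (Metric.ball c (ε / 2)) (Metric.ball_mem_nhds c (by positivity))).and_eventually (hup (ε / 2) (by positivity))
      obtain ⟨x, hx1, hx2⟩ := h3.exists
      rw [Metric.mem_ball, Real.dist_eq] at hx1
      have a3 := abs_sub_abs_le_abs_sub c (u x)
      rw [abs_sub_comm c (u x)] at a3
      linarith
    · intro hc s hs
      obtain ⟨ε, hε, hεs⟩ := Metric.mem_nhds_iff.1 hs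
      have hφ : Energy (fun (_ : Fin 1) (t : ℝ) => c * t) (c ^ 2) := by
        refine ⟨fun _ _ => c, fun i => ⟨intervalIntegrable_const, intervalIntegrable_const, fun t _ _ => ?_⟩, ?_⟩
        · rw [intervalIntegral.integral_const, smul_eq_mul, sub_zero, mul_comm]
        · simp
      have hc2 : c ^ 2 ≤ 1 := by
        rw [← sq_abs]
        nlinarith [abs_nonneg c]
      refine (hd _ _ hc2 hφ (ε / 2) (by positivity)).mono (fun x hx => hεs ?_)
      have a1 := hx 0 1 zero_le_one le_rfl
      simp only [hpu, mul_one] at a1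
      rw [Metric.mem_ball, Real.dist_eq]
      linarith

end Pool.Agent.Q106.ST
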