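import Pool.Agent.Q106.ST.SerG
import Mathlib.NumberTheory.LegendreSymbol.JacobiSymbol

/-!
# The constants of quadratic polynomials
-/

set_option autoImplicit false

namespace Pool.Agent.Q106.ST

open Finset Polynomial
open scoped NumberTheorySymbols

/-- The number of the zeros of a quadratic polynomial. -/
theorem rho_quad (a b c : ℤ) {p : ℕ} (hp : p.Prime) (h2 : ¬ (p : ℤ) ∣ 2 * a) :
    (rho {C a * X ^ 2 + C b * X + C c} p : ℝ) = 1 + (J(b ^ 2 - 4 * a * c | p) : ℝ) := by
  have : Fact p.Prime := ⟨hp⟩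
  have hp2' : p ≠ 2 := by
    rintro rfl
    exact h2 ⟨a, by push_cast; ring⟩
  have h1 := legendreSym.card_sqrts p hp2' (b ^ 2 - 4 * a * c)
  have h2a : (2 : ZMod p) * (a : ZMod p) ≠ 0 := by
    intro h
    have h3 : ((2 * a : ℤ) : ZMod p) = 0 := by push_cast; exact h
    exact h2 ((ZMod.intCast_zmod_eq_zero_iff_dvd _ _).1 h3)
  have hp2 : (2 : ZMod p) ≠ 0 := left_ne_zero_of_mul h2a
  have hpa : (a : ZMod p) ≠ 0 := right_ne_zero_of_mul h2a
  have hev : ∀ x : ZMod p, (C a * X ^ 2 + C b * X + C c : ℤ[X]).eval₂ (Int.castRingHom (ZMod p)) x =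
      (a : ZMod p) * x ^ 2 + (b : ZMod p) * x + (c : ZMod p) := by
    intro x
    rw [eval₂_add, eval₂_add, eval₂_mul, eval₂_mul, eval₂_pow, eval₂_C, eval₂_C, eval₂_C, eval₂_X]
    rfl
  have hU : UG {C a * X ^ 2 + C b * X + C c} p =
      Nat.card {x : ZMod p // IsUnit ((a : ZMod p) * x ^ 2 + (b : ZMod p) * x + (c : ZMod p))} := by
    unfold UG
    refine Nat.card_congr (Equiv.subtypeEquivRight (fun x => ?_))
    simp only [mem_singleton, forall_eq, hev]
  have hc : ((univ : Finset (ZMod p)).filter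
      (fun x : ZMod p => ¬ IsUnit ((a : ZMod p) * x ^ 2 + (b : ZMod p) * x + (c : ZMod p)))).card =
      ({x : ZMod p | x ^ 2 = ((b ^ 2 - 4 * a * c : ℤ) : ZMod p)} : Set (ZMod p)).toFinset.card := by
    refine card_bij (fun x _ => 2 * (a : ZMod p) * x + (b : ZMod p)) ?_ ?_ ?_
    · intro x hx
      rw [mem_filter, isUnit_iff_ne_zero, ne_eq, not_not] at hx
      simp only [Set.mem_toFinset, Set.mem_setOf_eq]
      push_cast
      have : (2 * (a : ZMod p) * x + (b : ZMod p)) ^ 2 =
          4 * (a : ZMod p) * ((a : ZMod p) * x ^ 2 + (b : ZMod p) * x + (c : ZMod p)) +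
            ((b : ZMod p) ^ 2 - 4 * a * c) := by ring
      rw [this, hx.2]
      ring
    · intro x _ y _ h
      have h3 : (2 * (a : ZMod p)) * (x - y) = 0 := by linear_combination h
      rcases mul_eq_zero.1 h3 with h4 | h4
      · exact absurd h4 h2a
      · exact sub_eq_zero.1 h4
    · intro y hy
      simp only [Set.mem_toFinset, Set.mem_setOf_eq] at hy
      push_cast at hy
      refine ⟨(y - b) / (2 * a), ?_, ?_⟩
      · rw [mem_filter, isUnit_iff_ne_zero, ne_eq, not_not]
        refine ⟨mem_univ _, ?_⟩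
        have h3 : (4 : ZMod p) * a ≠ 0 := by
          have : (4 : ZMod p) * a = 2 * (2 * a) := by ring
          rw [this]
          exact mul_ne_zero hp2 h2a
        have h4 : ((4 : ZMod p) * a) * ((a : ZMod p) * ((y - b) / (2 * a)) ^ 2 + (b : ZMod p) * ((y - b) / (2 * a)) +
            (c : ZMod p)) = 0 := by
          have : ((4 : ZMod p) * a) * ((a : ZMod p) * ((y - b) / (2 * a)) ^ 2 + (b : ZMod p) * ((y - b) / (2 * a)) +
              (c : ZMod p)) = y ^ 2 - (b ^ 2 - 4 * a * c) := by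
            field_simp
            ring
          rw [this, hy, sub_self]
        rcases mul_eq_zero.1 h4 with h5 | h5
        · exact absurd h5 h3
        · exact h5
      · field_simp
        ring
  have h3 : Nat.card {x : ZMod p // IsUnit ((a : ZMod p) * x ^ 2 + (b : ZMod p) * x + (c : ZMod p))} +
      ({x : ZMod p | x ^ 2 = ((b ^ 2 - 4 * a * c : ℤ) : ZMod p)} : Set (ZMod p)).toFinset.card = p := by
    rw [Nat.card_eq_fintype_card, Fintype.card_subtype, ← hc, card_filter_add_card_filter_not]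
    simp [ZMod.card]
  have h5 : (J(b ^ 2 - 4 * a * c | p) : ℤ) = legendreSym p (b ^ 2 - 4 * a * c) :=
    (jacobiSym.legendreSym.to_jacobiSym p _).symm
  rw [h5]
  have h6 : ((UG {C a * X ^ 2 + C b * X + C c} p : ℕ) : ℤ) + (legendreSym p (b ^ 2 - 4 * a * c) + 1) = p := by
    rw [← h1, hU]
    exact_mod_cast h3
  have h7 : ((UG {C a * X ^ 2 + C b * X + C c} p : ℕ) : ℝ) + ((legendreSym p (b ^ 2 - 4 * a * c) : ℝ) + 1) = p := by
    exact_mod_cast h6
  have h8 := UG_prime {C a * X ^ 2 + C b * X + C c} hp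
  linarith

/-- The polynomial `(X + 1)^3 - X^3`. -/
noncomputable def cuban : ℤ[X] := (X + 1) ^ 3 - X ^ 3

theorem cuban_eq : cuban = C 3 * X ^ 2 + C 3 * X + C 1 := by
  unfold cuban
  simp only [map_ofNat, map_one]
  ring

theorem cuban_eval (m : ℤ) : cuban.eval m = 3 * m ^ 2 + 3 * m + 1 := by
  rw [cuban_eq]
  simp

theorem rho_zero {F : Finset ℤ[X]} {p : ℕ} (h : ∀ m : ℕ, ∀ f ∈ F, ¬ (p : ℤ) ∣ f.eval (m : ℤ)) : rho F p = 0 := by
  classical
  unfold rho
  rw [card_eq_zero, filter_eq_empty_iff]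
  rintro m _ ⟨f, hf, hd⟩
  exact h m f hf hd

/-- **The constants of the cuban primes.** -/
theorem series_cuban {z : ℕ} (hz : 3 ≤ z) :
    series (primorial z) {cuban} =
      3 * ∏ p ∈ (range (z + 1)).filter (fun p => p.Prime ∧ 3 < p), (1 - (J(-3 | p) : ℝ) / ((p : ℝ) - 1)) := by
  classical
  rw [series_primorial, card_singleton]
  simp only [pow_one]
  have e1 : (range (z + 1)).filter (fun p => p.Prime) =
      insert 2 (insert 3 ((range (z + 1)).filter (fun p => p.Prime ∧ 3 < p))) := by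
    ext p
    simp only [mem_filter, mem_range, mem_insert]
    constructor
    · rintro ⟨h1, h2⟩
      have h3 := h2.two_le
      rcases lt_trichotomy p 3 with h4 | h4 | h4
      · left; omega
      · right; left; exact h4
      · right; right; exact ⟨h1, h2, h4⟩
    · rintro (h | h | h)
      · subst h
        exact ⟨by omega, Nat.prime_two⟩
      · subst h
        exact ⟨by omega, Nat.prime_three⟩
      · exact ⟨h.1, h.2.1⟩
  have h2 : rho {cuban} 2 = 0 := by
    refine rho_zero (fun m f hf => ?_)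
    rw [mem_singleton] at hf
    subst hf
    rw [cuban_eval]
    rintro ⟨k, hk⟩
    have h3 := Int.emod_two_eq_zero_or_one (m : ℤ)
    obtain ⟨j, hj⟩ : ∃ j : ℤ, (m : ℤ) * ((m : ℤ) + 1) = 2 * j := by
      obtain ⟨j, hj⟩ := Int.even_mul_succ_self (m : ℤ)
      exact ⟨j, by linarith⟩
    have h4 : 3 * (m : ℤ) ^ 2 + 3 * m + 1 = 3 * ((m : ℤ) * ((m : ℤ) + 1)) + 1 := by ring
    rw [h4, hj] at hk
    push_cast at hk
    omega
  have h3 : rho {cuban} 3 = 0 := by
    refine rho_zero (fun m f hf => ?_)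
    rw [mem_singleton] at hf
    subst hf
    rw [cuban_eval]
    rintro ⟨k, hk⟩
    push_cast at hk
    have h4 : 3 * ((m : ℤ) ^ 2 + m - k) = -1 := by linarith
    omega
  rw [e1, prod_insert (by simp), prod_insert (by simp), h2, h3]
  have h4 : ∏ p ∈ (range (z + 1)).filter (fun p => p.Prime ∧ 3 < p), (1 - (rho {cuban} p : ℝ) / p) / (1 - 1 / (p : ℝ)) =
      ∏ p ∈ (range (z + 1)).filter (fun p => p.Prime ∧ 3 < p), (1 - (J(-3 | p) : ℝ) / ((p : ℝ) - 1)) := by
    refine prod_congr rfl (fun p hp => ?_)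
    rw [mem_filter] at hp
    obtain ⟨_, hpp, hp3⟩ := hp
    have h5 : ¬ (p : ℤ) ∣ 2 * 3 := by
      intro h
      have h6 : p ∣ 6 := by exact_mod_cast h
      have h7 := Nat.le_of_dvd (by norm_num) h6
      interval_cases p
      · exact absurd hpp (by norm_num)
      · exact absurd h6 (by norm_num)
      · exact absurd hpp (by norm_num)
    have h6 := rho_quad 3 3 1 hpp h5
    rw [← cuban_eq] at h6
    norm_num at h6
    rw [h6]
    have hp1 : (3 : ℝ) < p := by exact_mod_cast hp3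
    have hp0 : (p : ℝ) ≠ 0 := by linarith
    have hp2 : (p : ℝ) - 1 ≠ 0 := by linarith
    have e2 : (1 : ℝ) - 1 / p = ((p : ℝ) - 1) / p := by field_simp
    rw [e2]
    field_simp
    ring
  rw [h4]
  norm_num
  ring

/-- The constants are positive. -/
theorem series_pos_of {F : Finset ℤ[X]} {Q : ℕ} (hQ : 1 ≤ Q) {m : ℕ} (h : ∀ f ∈ F, IsCoprime (f.eval (m : ℤ)) (Q : ℤ)) :
    0 < series Q F := by
  classical
  have hQ0 : (0 : ℝ) < Q := by exact_mod_cast hQ
  have hphi : (0 : ℝ) < (Nat.totient Q : ℝ) := by exact_mod_cast Nat.totient_pos.2 hQ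
  unfold series
  have h1 : 0 < ((range Q).filter (fun m : ℕ => ∀ f ∈ F, IsCoprime (f.eval (m : ℤ)) (Q : ℤ))).card := by
    refine card_pos.2 ⟨m % Q, ?_⟩
    rw [mem_filter, mem_range]
    refine ⟨Nat.mod_lt _ hQ, fun f hf => ?_⟩
    rw [cop_shift (v := m) ?_]
    · exact h f hf
    · have h2 : ((m % Q : ℕ) : ℤ) = (m : ℤ) % Q := Int.natCast_mod m Q
      rw [h2, ← dvd_neg, neg_sub]
      exact Int.dvd_self_sub_emod
  have h2 : (0 : ℝ) < (((range Q).filter (fun m : ℕ => ∀ f ∈ F, IsCoprime (f.eval (m : ℤ)) (Q : ℤ))).card : ℝ) := by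
    exact_mod_cast h1
  positivity

theorem series_cuban_pos {Q : ℕ} (hQ : 1 ≤ Q) : 0 < series Q {cuban} := by
  refine series_pos_of hQ (m := 0) (fun f hf => ?_)
  rw [mem_singleton] at hf
  subst hf
  rw [cuban_eval]
  norm_num
  exact isCoprime_one_left

theorem cuban_psys : PSys {cuban} := by
  refine ⟨singleton_nonempty _, fun f hf => ?_⟩
  rw [mem_singleton] at hf
  subst hf
  have h1 : cuban.natDegree = 2 := by
    rw [cuban_eq]
    exact natDegree_quadratic (by norm_num)
  refine ⟨by omega, ?_⟩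
  rw [cuban_eq, leadingCoeff_quadratic (by norm_num)]
  norm_num

end Pool.Agent.Q106.ST
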