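import Pool.Agent.Q106.ST.Bnd

/-!
# Nested counts: the dyadic scales
-/

set_option autoImplicit false

namespace Pool.Agent.Q106.ST

open Finset MeasureTheory Filter
open scoped Topology
open Pool.Agent.Q106.FL (Energy Near pt)

variable {r : ℕ} {D P : Fin r → ℕ → ℝ}

theorem aff_top {K : ℕ} (hK : 1 ≤ K) (s : ℕ) : Tendsto (fun n => K * n + s) atTop atTop := by
  refine tendsto_atTop_mono (fun n => ?_) tendsto_id
  simp only [id_eq]
  nlinarith

theorem log_ratio {K : ℕ} (hK : 1 ≤ K) (s : ℕ) :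
    Tendsto (fun n : ℕ => Real.log n / Real.log ((K * n + K + s : ℕ) : ℝ)) atTop (𝓝 1) := by
  have h1 : Tendsto (fun n : ℕ => 1 - Real.log ((2 * K + s : ℕ) : ℝ) / Real.log ((K * n + K + s : ℕ) : ℝ)) atTop (𝓝 1) := by
    have h2 : Tendsto (fun n : ℕ => Real.log ((K * n + K + s : ℕ) : ℝ)) atTop atTop := by
      refine lg_top.comp ?_
      have := aff_top hK (K + s)
      simpa only [add_assoc] using this
    have := (tendsto_const_nhds (x := (1 : ℝ))).sub (h2.const_div_atTop (Real.log ((2 * K + s : ℕ) : ℝ)))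
    simpa using this
  refine tendsto_of_tendsto_of_tendsto_of_le_of_le' h1 tendsto_const_nhds ?_ ?_
  · filter_upwards [eventually_ge_atTop 2] with n hn
    have hn0 : (0 : ℝ) < n := by exact_mod_cast (show 0 < n by omega)
    have hc0 : (0 : ℝ) < ((2 * K + s : ℕ) : ℝ) := by exact_mod_cast (show 0 < 2 * K + s by omega)
    have hj : 2 ≤ K * n + K + s := by nlinarith
    have hj1 : (1 : ℝ) < ((K * n + K + s : ℕ) : ℝ) := by exact_mod_cast (show 1 < K * n + K + s by omega)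
    have hl := Real.log_pos hj1
    rw [le_div_iff₀ hl, sub_mul, one_mul, div_mul_cancel₀ _ hl.ne', sub_le_iff_le_add, ← Real.log_mul hn0.ne' hc0.ne']
    refine Real.log_le_log (by linarith) ?_
    have : K * n + K + s ≤ n * (2 * K + s) := by nlinarith
    exact_mod_cast this
  · filter_upwards [eventually_ge_atTop 2] with n hn
    have hn0 : (0 : ℝ) < n := by exact_mod_cast (show 0 < n by omega)
    have hj : n ≤ K * n + K + s := by nlinarith
    have hj1 : (1 : ℝ) < ((K * n + K + s : ℕ) : ℝ) := by exact_mod_cast (show 1 < K * n + K + s by omega)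
    rw [div_le_one (Real.log_pos hj1)]
    exact Real.log_le_log hn0 (by exact_mod_cast hj)

/-- The path at a dyadic scale and the path in the window. -/
theorem Nst.comp (h : Nst D P) {C : ℝ} (hC0 : 0 < C)
    (hC : ∀ᶠ j : ℕ in atTop, ∀ i, ∀ y ≤ 2 ^ j, |D i y| ≤ C * √(P i (2 ^ j) * Real.log j)) {K : ℕ} (hK : 1 ≤ K) (s : ℕ)
    {ε : ℝ} (hε : 0 < ε) (hε1 : ε ≤ 1) :
    ∀ᶠ n : ℕ in atTop, ∀ φ e, e ≤ 1 → Energy φ e → Near ε (W D P K s n) φ → ∀ (i : Fin r) (t : ℝ), 0 ≤ t → t ≤ 1 →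
      (t ≤ ((2 : ℝ) ^ K)⁻¹ → |Zd D P (K * n + K + s) i t| ≤ C * √(((2 : ℝ) ^ K)⁻¹)) ∧
      (((2 : ℝ) ^ K)⁻¹ < t → |Zd D P (K * n + K + s) i t -
        √(1 - ((2 : ℝ) ^ K)⁻¹) * φ i ((t - ((2 : ℝ) ^ K)⁻¹) / (1 - ((2 : ℝ) ^ K)⁻¹))| ≤ C * √(((2 : ℝ) ^ K)⁻¹) + 2 * ε) := by
  obtain ⟨κ, hκ⟩ : ∃ κ : ℝ, κ = ((2 : ℝ) ^ K)⁻¹ := ⟨_, rfl⟩
  have hκ0 : 0 < κ := by rw [hκ]; positivity
  have hκ1 : κ ≤ 1 / 2 := by
    rw [hκ, one_div]
    refine inv_anti₀ (by norm_num) ?_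
    calc (2 : ℝ) = 2 ^ 1 := by norm_num
      _ ≤ 2 ^ K := pow_le_pow_right₀ (by norm_num) hK
  rw [← hκ]
  have hu := aff_top hK s
  have hu2 : Tendsto (fun n => K * n + K + s) atTop atTop := by
    have := aff_top hK (K + s)
    simpa only [add_assoc] using this
  have hr1 : ∀ i, Tendsto (fun n => P i (2 ^ (K * n + s)) / P i (2 ^ (K * n + K + s))) atTop (𝓝 κ) := by
    intro i
    have := h.ratio i K hu
    rw [← hκ] at this
    refine this.congr (fun n => ?_)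
    rw [show K * n + s + K = K * n + K + s by ring]
  have hr2 : ∀ i, Tendsto (fun n => √((1 - P i (2 ^ (K * n + s)) / P i (2 ^ (K * n + K + s))) *
      (Real.log n / Real.log ((K * n + K + s : ℕ) : ℝ)))) atTop (𝓝 (√(1 - κ))) := by
    intro i
    have := (((tendsto_const_nhds (x := (1 : ℝ))).sub (hr1 i)).mul (log_ratio hK s)).sqrt
    rwa [mul_one] at this
  have hf1 : ∀ᶠ n in atTop, ∀ i, P i (2 ^ (K * n + s)) / P i (2 ^ (K * n + K + s)) < 2 * κ :=
    eventually_all.2 (fun i => (hr1 i).eventually_lt_const (by linarith))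
  have hf2 : ∀ᶠ n in atTop, ∀ i, |√((1 - P i (2 ^ (K * n + s)) / P i (2 ^ (K * n + K + s))) *
      (Real.log n / Real.log ((K * n + K + s : ℕ) : ℝ))) - √(1 - κ)| < ε / 2 := by
    refine eventually_all.2 (fun i => ?_)
    have := (Metric.tendsto_nhds.1 (hr2 i)) (ε / 2) (by positivity)
    simpa only [Real.dist_eq] using this
  have hf3 : ∀ᶠ n in atTop, ∀ i, 0 < P i (2 ^ (K * n + s)) :=
    eventually_all.2 (fun i => (pow_top.comp hu).eventually ((h.top i).eventually_gt_atTop 0))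
  filter_upwards [hu.eventually hC, hf1, hf2, hf3, lg_top.eventually_gt_atTop 0, hu.eventually_ge_atTop 1] with
    n g1 g2 g3 g4 g5 g6 φ e he hφ hN i t ht0 ht1
  obtain ⟨j, hj⟩ : ∃ j, j = K * n + K + s := ⟨_, rfl⟩
  obtain ⟨a, ha⟩ : ∃ a, a = K * n + s := ⟨_, rfl⟩
  have hja : j = a + K := by rw [hj, ha]; ring
  specialize g1 i
  specialize g2 i
  specialize g3 i
  specialize g4 i
  rw [← hj, ← ha] at g2 g3
  rw [← ha] at g1 g4 g6
  rw [← hj]
  have hPm : P i (2 ^ a) ≤ P i (2 ^ j) := h.mono i (Nat.pow_le_pow_right (by norm_num) (by omega))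
  have hPb : 0 < P i (2 ^ j) := by linarith
  have ha1 : (1 : ℝ) ≤ a := by exact_mod_cast g6
  have hj1 : (1 : ℝ) < j := by exact_mod_cast (show 1 < j by omega)
  have hlj : 0 < Real.log (j : ℝ) := Real.log_pos hj1
  have hla : 0 ≤ Real.log (a : ℝ) := Real.log_nonneg ha1
  have hlaj : Real.log (a : ℝ) ≤ Real.log j := Real.log_le_log (by linarith) (by exact_mod_cast (show a ≤ j by omega))
  have hS : 0 < √(2 * P i (2 ^ j) * Real.log j) := Real.sqrt_pos.2 (by positivity)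
  have hD : ∀ y ≤ 2 ^ a, |D i y| / √(2 * P i (2 ^ j) * Real.log j) ≤ C * √κ := by
    intro y hy
    rw [div_le_iff₀ hS]
    refine (g1 y hy).trans ?_
    rw [mul_assoc, ← Real.sqrt_mul hκ0.le]
    refine mul_le_mul_of_nonneg_left (Real.sqrt_le_sqrt ?_) hC0.le
    rw [div_lt_iff₀ hPb] at g2
    have e1 : P i (2 ^ a) * Real.log a ≤ P i (2 ^ a) * Real.log j := mul_le_mul_of_nonneg_left hlaj g4.le
    nlinarith
  have hpow : (2 : ℝ) ^ j * κ = 2 ^ a := by
    rw [hja, pow_add, hκ, mul_assoc, mul_inv_cancel₀ (by positivity), mul_one]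
  constructor
  · intro ht
    unfold Zd
    rw [abs_div, abs_of_pos hS]
    refine hD _ ?_
    have e1 : t * 2 ^ j ≤ ((2 ^ a : ℕ) : ℝ) := by
      push_cast
      rw [← hpow, mul_comm]
      exact mul_le_mul_of_nonneg_left ht (by positivity)
    exact Nat.floor_le_of_le e1
  · intro ht
    have hc : 0 < 1 - κ := by linarith
    have ht'0 : 0 ≤ (t - κ) / (1 - κ) := div_nonneg (by linarith) hc.le
    have ht'1 : (t - κ) / (1 - κ) ≤ 1 := by rw [div_le_one hc]; linarith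
    obtain ⟨t', ht'⟩ : ∃ t', t' = (t - κ) / (1 - κ) := ⟨_, rfl⟩
    rw [← ht'] at ht'0 ht'1 ⊢
    have hpt : pt (2 ^ a) (2 ^ j) t' = ⌊t * 2 ^ j⌋₊ := by
      unfold pt
      have e1 : t' * (((2 ^ j : ℕ) : ℝ) - ((2 ^ a : ℕ) : ℝ)) = t * 2 ^ j - ((2 ^ a : ℕ) : ℝ) := by
        push_cast
        rw [← hpow, ht']
        field_simp
      rw [e1, Nat.floor_sub_natCast]
      have e2 : 2 ^ a ≤ ⌊t * 2 ^ j⌋₊ := by
        refine Nat.le_floor ?_
        push_cast
        rw [← hpow, mul_comm]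
        exact mul_le_mul_of_nonneg_right ht.le (by positivity)
      omega
    have hW : W D P K s n i t' * √(2 * (P i (2 ^ j) - P i (2 ^ a)) * Real.log n) = D i ⌊t * 2 ^ j⌋₊ - D i (2 ^ a) := by
      unfold W
      rw [← hj, ← ha, hpt, div_mul_cancel₀]
      have : 0 < P i (2 ^ j) - P i (2 ^ a) := by
        rw [div_lt_iff₀ hPb] at g2
        nlinarith
      exact (Real.sqrt_pos.2 (by positivity)).ne'
    obtain ⟨ρ, hρ⟩ : ∃ ρ, ρ = √((1 - P i (2 ^ a) / P i (2 ^ j)) * (Real.log n / Real.log (j : ℝ))) := ⟨_, rfl⟩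
    rw [← hρ] at g3
    have hρ2 : √(2 * (P i (2 ^ j) - P i (2 ^ a)) * Real.log n) = ρ * √(2 * P i (2 ^ j) * Real.log j) := by
      rw [hρ, ← Real.sqrt_mul]
      · congr 1
        field_simp
      · refine mul_nonneg ?_ (by positivity)
        rw [sub_nonneg, div_le_one hPb]
        exact hPm
    have hZ : Zd D P j i t = D i (2 ^ a) / √(2 * P i (2 ^ j) * Real.log j) + W D P K s n i t' * ρ := by
      unfold Zd
      rw [hρ2, ← mul_assoc] at hW
      rw [div_eq_iff hS.ne', add_mul, div_mul_cancel₀ _ hS.ne', hW]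
      ring
    have hWn := hN i t' ht'0 ht'1
    have hφb := energy_bound hφ he i ht'0 ht'1
    have hs1 : √t' ≤ 1 := by
      rw [← Real.sqrt_one]
      exact Real.sqrt_le_sqrt ht'1
    have hW2 : |W D P K s n i t'| ≤ 2 := by
      have : W D P K s n i t' = (W D P K s n i t' - φ i t') + φ i t' := by ring
      rw [this]
      refine (abs_add_le _ _).trans ?_
      linarith
    have hsq : √(1 - κ) ≤ 1 := Real.sqrt_le_iff.2 ⟨zero_le_one, by norm_num; linarith⟩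
    have hsq0 : 0 ≤ √(1 - κ) := Real.sqrt_nonneg _
    have e3 : Zd D P j i t - √(1 - κ) * φ i t' = D i (2 ^ a) / √(2 * P i (2 ^ j) * Real.log j) +
        (W D P K s n i t' * (ρ - √(1 - κ)) + √(1 - κ) * (W D P K s n i t' - φ i t')) := by
      rw [hZ]
      ring
    rw [e3]
    refine (abs_add_le _ _).trans ?_
    have e4 : |D i (2 ^ a) / √(2 * P i (2 ^ j) * Real.log j)| ≤ C * √κ := by
      rw [abs_div, abs_of_pos hS]
      exact hD _ le_rfl
    have e5 : |W D P K s n i t' * (ρ - √(1 - κ)) + √(1 - κ) * (W D P K s n i t' - φ i t')| ≤ 2 * (ε / 2) + 1 * ε := by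
      refine (abs_add_le _ _).trans (add_le_add ?_ ?_)
      · rw [abs_mul]
        exact mul_le_mul hW2 g3.le (abs_nonneg _) (by norm_num)
      · rw [abs_mul, abs_of_nonneg hsq0]
        exact mul_le_mul hsq hWn (abs_nonneg _) (by norm_num)
    linarith

/-- A good number of steps. -/
theorem exists_K {C ε : ℝ} (hC : 0 < C) (hε : 0 < ε) : ∃ K ≥ 1, (C + 1) * √(((2 : ℝ) ^ K)⁻¹) ≤ ε := by
  have h1 : Tendsto (fun K : ℕ => (C + 1) * √(((2 : ℝ) ^ K)⁻¹)) atTop (𝓝 0) := by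
    have h2 : Tendsto (fun K : ℕ => ((2 : ℝ) ^ K)⁻¹) atTop (𝓝 0) := by
      have := tendsto_pow_atTop_atTop_of_one_lt (show (1 : ℝ) < 2 by norm_num)
      exact this.inv_tendsto_atTop
    have h3 := h2.sqrt.const_mul (C + 1)
    rwa [Real.sqrt_zero, mul_zero] at h3
  obtain ⟨K, hK1, hK2⟩ := ((h1.eventually_le_const hε).and (eventually_ge_atTop 1)).exists
  exact ⟨K, hK2, hK1⟩

/-- **The upper half at the dyadic scales.** -/
theorem Nst.upper (h : Nst D P) {ε : ℝ} (hε : 0 < ε) :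
    ∀ᶠ j in atTop, ∃ φ e, e ≤ 1 ∧ Energy φ e ∧ Near ε (Zd D P j) φ := by
  obtain ⟨C, hC0, hC⟩ := h.bound
  obtain ⟨K, hK, hKε⟩ := exists_K hC0 (show 0 < ε / 2 by positivity)
  obtain ⟨κ, hκ⟩ : ∃ κ : ℝ, κ = ((2 : ℝ) ^ K)⁻¹ := ⟨_, rfl⟩
  have hκ0 : 0 < κ := by rw [hκ]; positivity
  have hκ1 : κ < 1 := by
    rw [hκ]
    exact inv_lt_one_of_one_lt₀ (one_lt_pow₀ (by norm_num) (by omega))
  obtain ⟨δ, hδ⟩ : ∃ δ, δ = min 1 (ε / 4) := ⟨_, rfl⟩
  have hδ0 : 0 < δ := by rw [hδ]; positivity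
  have hδ1 : δ ≤ 1 := by rw [hδ]; exact min_le_left _ _
  have hδ2 : δ ≤ ε / 4 := by rw [hδ]; exact min_le_right _ _
  have key : ∀ s, ∀ᶠ n in atTop, ∃ φ e, e ≤ 1 ∧ Energy φ e ∧ Near ε (Zd D P (K * n + K + s)) φ := by
    intro s
    filter_upwards [h.comp hC0 hC hK s hδ0 hδ1, h.near K hK s δ hδ0] with n h1 h2
    obtain ⟨φ, e, he, hφ, hN⟩ := h2
    refine ⟨_, e, he, energy_ext hφ hκ0 hκ1, fun i t ht0 ht1 => ?_⟩
    obtain ⟨h3, h4⟩ := h1 φ e he hφ hN i t ht0 ht1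
    rw [← hκ] at h3 h4 hKε
    have h5 : 0 ≤ √κ := Real.sqrt_nonneg _
    by_cases ht : t ≤ κ
    · simp only [ht, if_true, sub_zero]
      have := h3 ht
      nlinarith
    · simp only [ht, if_false]
      have := h4 (not_le.1 ht)
      nlinarith
  have h1 : ∀ᶠ n in atTop, ∀ s : Fin K, ∃ φ e, e ≤ 1 ∧ Energy φ e ∧ Near ε (Zd D P (K * n + K + s)) φ :=
    eventually_all.2 (fun s => key s)
  obtain ⟨N, hN⟩ := eventually_atTop.1 h1
  filter_upwards [eventually_ge_atTop (K * (N + 2))] with j hj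
  have h2 : N + 2 ≤ j / K := by
    rw [Nat.le_div_iff_mul_le (by omega), mul_comm]
    exact hj
  have h3 := hN (j / K - 1) (by omega) ⟨j % K, Nat.mod_lt _ (by omega)⟩
  have h4 : K * (j / K - 1) + K + j % K = j := by
    have h5 := Nat.div_add_mod j K
    have h6 : K * (j / K - 1) + K = K * (j / K) := by
      obtain ⟨m, hm⟩ : ∃ m, j / K = m + 1 := ⟨j / K - 1, by omega⟩
      rw [hm]
      simp only [Nat.add_sub_cancel]
      ring
    omega
  simp only at h3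
  rwa [h4] at h3

/-- **The lower half at the dyadic scales.** -/
theorem Nst.lower (h : Nst D P) {φ : Fin r → ℝ → ℝ} {e : ℝ} (he : e ≤ 1) (hφ : Energy φ e) {ε : ℝ} (hε : 0 < ε) :
    ∃ᶠ j in atTop, Near ε (Zd D P j) φ := by
  obtain ⟨C, hC0, hC⟩ := h.bound
  obtain ⟨K, hK, hKε⟩ := exists_K hC0 (show 0 < ε / 2 by positivity)
  obtain ⟨κ, hκ⟩ : ∃ κ : ℝ, κ = ((2 : ℝ) ^ K)⁻¹ := ⟨_, rfl⟩
  have hκ0 : 0 < κ := by rw [hκ]; positivity
  have hκ1 : κ < 1 := by
    rw [hκ]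
    exact inv_lt_one_of_one_lt₀ (one_lt_pow₀ (by norm_num) (by omega))
  obtain ⟨δ, hδ⟩ : ∃ δ, δ = min 1 (ε / 4) := ⟨_, rfl⟩
  have hδ0 : 0 < δ := by rw [hδ]; positivity
  have hδ1 : δ ≤ 1 := by rw [hδ]; exact min_le_left _ _
  have hδ2 : δ ≤ ε / 4 := by rw [hδ]; exact min_le_right _ _
  obtain ⟨e', he', hφ'⟩ := energy_sub hφ hκ0.le hκ1 le_rfl
  have h1 := (h.dense K hK 0 _ e' (he'.trans he) hφ' δ hδ0).and_eventually (h.comp hC0 hC hK 0 hδ0 hδ1)
  have h2 : Tendsto (fun n => K * n + K + 0) atTop atTop := by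
    have := aff_top hK K
    simpa only [add_zero] using this
  refine h2.frequently (h1.mono (fun n hn => ?_))
  obtain ⟨h3, h4⟩ := hn
  intro i t ht0 ht1
  obtain ⟨h5, h6⟩ := h4 _ e' (he'.trans he) hφ' h3 i t ht0 ht1
  rw [← hκ] at h5 h6 hKε
  have h7 : 0 ≤ √κ := Real.sqrt_nonneg _
  have h8 := energy_bound hφ he i hκ0.le hκ1.le
  by_cases ht : t ≤ κ
  · have h9 := h5 ht
    have h10 := energy_bound hφ he i ht0 ht1
    have h11 : √t ≤ √κ := Real.sqrt_le_sqrt ht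
    have h12 := abs_sub (Zd D P (K * n + K + 0) i t) (φ i t)
    nlinarith
  · rw [not_le] at ht
    have h9 := h6 ht
    have hc : 0 < 1 - κ := by linarith
    have hs : 0 < √(1 - κ) := Real.sqrt_pos.2 hc
    have e1 : κ + (1 - κ) * ((t - κ) / (1 - κ)) = t := by
      field_simp
      ring
    have e2 : √(1 - κ) * ((φ i (κ + (1 - κ) * ((t - κ) / (1 - κ))) - φ i κ) / √(1 - κ)) = φ i t - φ i κ := by
      rw [e1]
      field_simp
    rw [e2] at h9
    have e3 : Zd D P (K * n + K + 0) i t - φ i t = (Zd D P (K * n + K + 0) i t - (φ i t - φ i κ)) - φ i κ := by ring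
    rw [e3]
    refine (abs_sub _ _).trans ?_
    nlinarith

end Pool.Agent.Q106.ST
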