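import Pool.Agent.Q106.ST.Trans
import Pool.Agent.Q106.FL.Shift
import Pool.Agent.Q106.FL.Det

/-!
# The functional law for sequences of paths with vanishing distance
-/

set_option autoImplicit false

namespace Pool.Agent.Q106.ST

open Finset Filter
open scoped Topology
open Pool.Agent.Q106.FL (Energy Near FLaw)

variable {r : ℕ}

theorem Near.comp {p q φ : Fin r → ℝ → ℝ} {ε δ : ℝ} (h1 : Near ε q p) (h2 : Near δ p φ) : Near (ε + δ) q φ := by
  intro i t ht0 ht1
  have e1 : q i t - φ i t = (q i t - p i t) + (p i t - φ i t) := by ring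
  rw [e1]
  exact (abs_add_le _ _).trans (add_le_add (h1 i t ht0 ht1) (h2 i t ht0 ht1))

theorem Near.symm' {p q : Fin r → ℝ → ℝ} {ε : ℝ} (h : Near ε p q) : Near ε q p := by
  intro i t ht0 ht1
  rw [abs_sub_comm]
  exact h i t ht0 ht1

theorem Near.weaken {p q : Fin r → ℝ → ℝ} {ε δ : ℝ} (h : Near ε p q) (hd : ε ≤ δ) : Near δ p q :=
  fun i t ht0 ht1 => (h i t ht0 ht1).trans hd

theorem nearP_finite (P : ℕ → Fin r → ℝ → ℝ) (φ : Fin r → ℝ → ℝ) (ε : ℝ) (x : ℕ) :
    {n : ℕ | n ≤ x ∧ Near ε (P n) φ}.Finite :=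
  (Set.finite_Iic x).subset (fun _ h => h.1)

theorem ncard_le_add {P P' : ℕ → Fin r → ℝ → ℝ} {φ : Fin r → ℝ → ℝ} {ε ε' : ℝ} {k : ℕ}
    (h : ∀ n ≥ k, Near ε (P n) φ → Near ε' (P' n) φ) (x : ℕ) :
    ({n : ℕ | n ≤ x ∧ Near ε (P n) φ}.ncard : ℝ) ≤ k + ({n : ℕ | n ≤ x ∧ Near ε' (P' n) φ}.ncard : ℝ) := by
  have h1 : {n : ℕ | n ≤ x ∧ Near ε (P n) φ} ⊆ (Finset.range k : Set ℕ) ∪ {n : ℕ | n ≤ x ∧ Near ε' (P' n) φ} := by
    rintro n ⟨hn1, hn2⟩
    by_cases hk : n < k
    · left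
      rw [Finset.mem_coe, mem_range]
      exact hk
    · right
      exact ⟨hn1, h n (by omega) hn2⟩
  have h2 := Set.ncard_le_ncard h1 ((Finset.finite_toSet _).union (nearP_finite P' φ ε' x))
  have h3 := h2.trans (Set.ncard_union_le _ _)
  rw [Set.ncard_coe_finset, card_range] at h3
  exact_mod_cast h3

/-- **The law for a sequence of paths with vanishing distance.** -/
theorem flaw_near {P P' : ℕ → Fin r → ℝ → ℝ} (h : FLaw P) (hc : ∀ ε > 0, ∀ᶠ n in atTop, Near ε (P' n) (P n)) : FLaw P' := by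
  obtain ⟨h1, h2, h3⟩ := h
  refine ⟨?_, ?_, ?_⟩
  · intro ε hε
    filter_upwards [h1 (ε / 2) (by positivity), hc (ε / 2) (by positivity)] with n g1 g2
    obtain ⟨φ, e, he, hφ, hN⟩ := g1
    refine ⟨φ, e, he, hφ, ?_⟩
    have := Near.comp g2 hN
    rwa [add_halves] at this
  · intro φ e he hφ ε hε
    have g1 := (h2 φ e he hφ (ε / 2) (by positivity)).and_eventually (hc (ε / 2) (by positivity))
    refine g1.mono (fun n hn => ?_)
    have := Near.comp hn.2 hn.1
    rwa [add_halves] at this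
  · intro φ e he hφ δ hδ
    obtain ⟨δ', hδ'⟩ : ∃ δ', δ' = min δ ((1 - e) / 2) := ⟨_, rfl⟩
    have hδ0 : 0 < δ' := by
      rw [hδ']
      exact lt_min hδ (by linarith)
    have hδ1 : δ' ≤ δ := by rw [hδ']; exact min_le_left _ _
    have hδ2 : δ' ≤ (1 - e) / 2 := by rw [hδ']; exact min_le_right _ _
    obtain ⟨ε₀, hε₀, hmain⟩ := h3 φ e he hφ (δ' / 2) (by positivity)
    refine ⟨ε₀ / 2, by positivity, fun ε hε hε1 => ?_⟩
    obtain ⟨k, hk⟩ := eventually_atTop.1 (hc (ε / 2) (by positivity))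
    filter_upwards [hmain (ε / 2) (by positivity) (by linarith), hmain (2 * ε) (by positivity) (by linarith),
      MD.rpow_absorb (N := (k : ℝ)) (a := 1 - e - δ') (b := 1 - e - δ' / 2) (by linarith) (by linarith),
      MD.rpow_absorb (N := (k : ℝ)) (a := 1 - e + δ' / 2) (b := 1 - e + δ') (by linarith) (by linarith),
      eventually_ge_atTop 1] with x g1 g2 g3 g4 g5
    have hx1 : (1 : ℝ) ≤ x := by exact_mod_cast g5
    have s1 := ncard_le_add (P := P) (P' := P') (φ := φ) (ε := ε / 2) (ε' := ε) (k := k)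
      (fun n hn hN => by
        have := Near.comp (hk n hn) hN
        rwa [add_halves] at this) x
    have s2 := ncard_le_add (P := P') (P' := P) (φ := φ) (ε := ε) (ε' := 2 * ε) (k := k)
      (fun n hn hN => by
        have := Near.comp (Near.symm' (hk n hn)) hN
        exact Near.weaken this (by linarith)) x
    have k6 : (x : ℝ) ^ (1 - e - δ) ≤ (x : ℝ) ^ (1 - e - δ') := Real.rpow_le_rpow_of_exponent_le hx1 (by linarith)
    have k7 : (x : ℝ) ^ (1 - e + δ') ≤ (x : ℝ) ^ (1 - e + δ) := Real.rpow_le_rpow_of_exponent_le hx1 (by linarith)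
    constructor
    · linarith [g1.1]
    · linarith [g2.2]

/-- **The law for multiples of the paths.** -/
theorem flaw_mul {P : ℕ → Fin r → ℝ → ℝ} (h : FLaw P) {ρ : ℕ → Fin r → ℝ} (hρ : ∀ i, Tendsto (fun n => ρ n i) atTop (𝓝 1)) :
    FLaw (fun n i t => ρ n i * P n i t) := by
  refine flaw_near h (fun ε hε => ?_)
  have h1 : ∀ᶠ n in atTop, ∀ i, |ρ n i - 1| < ε / 2 := by
    refine eventually_all.2 (fun i => ?_)
    have := (Metric.tendsto_nhds.1 (hρ i)) (ε / 2) (by positivity)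
    simpa only [Real.dist_eq] using this
  filter_upwards [h1, h.1 1 one_pos] with n g1 g2
  obtain ⟨φ, e, he, hφ, hN⟩ := g2
  intro i t ht0 ht1
  have e1 : |P n i t| ≤ 2 := by
    have e2 : P n i t = (P n i t - φ i t) + φ i t := by ring
    rw [e2]
    refine (abs_add_le _ _).trans ?_
    have e3 := energy_bound hφ he i ht0 ht1
    have e4 : √t ≤ 1 := by
      rw [Real.sqrt_le_one]
      exact ht1
    have e5 := hN i t ht0 ht1
    linarith
  have e2 : ρ n i * P n i t - P n i t = (ρ n i - 1) * P n i t := by ring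
  simp only
  rw [e2, abs_mul]
  have e3 := (g1 i).le
  have e4 := abs_nonneg (ρ n i - 1)
  have e5 := abs_nonneg (P n i t)
  nlinarith

end Pool.Agent.Q106.ST
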