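import Pool.Agent.Q106.ST.Geo
import Pool.Agent.Q106.ST.Tf

/-!
# The functional law in general windows
-/

set_option autoImplicit false

namespace Pool.Agent.Q106.ST

open Finset MeasureTheory ProbabilityTheory Filter
open scoped Topology
open Pool.Agent.Q120.GM (IsModel level)
open Pool.Agent.Q106.UV (fN fex fser fw ft FD)
open Pool.Agent.Q106.FL (Energy Near pt fP FLaw lft rgt c1)

variable {σ : Type*} {Q r : ℕ} {S : Fin r → Finset σ} {f : σ → ℕ → ℕ} {m₁ : ℕ}

/-- The path over the window `[a, b)` with the factor `L`. -/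
noncomputable def Wp (D P : Fin r → ℕ → ℝ) (a b : ℕ) (L : ℝ) (i : Fin r) (t : ℝ) : ℝ :=
  (D i (pt a b t) - D i a) / √(2 * (P i b - P i a) * L)

/-- The windows. -/
structure Wins (a b : ℕ → ℕ) : Prop where
  top : Tendsto a atTop atTop
  le : ∀ᶠ n in atTop, a n ≤ b n
  size : ∃ η : ℝ, 0 < η ∧ ∀ᶠ n : ℕ in atTop, (b n : ℝ) ^ η ≤ (b n : ℝ) - a n
  big : ∀ᶠ n in atTop, n ≤ b n
  ratio : ∃ C : ℕ, ∀ᶠ n in atTop, b n ≤ C * a n
  poly : ∃ E : ℕ, ∀ᶠ n in atTop, b n ≤ n ^ E
  disj : ∀ᶠ n in atTop, b n ≤ a (n + 1)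

theorem Wins.topb {a b : ℕ → ℕ} (h : Wins a b) : Tendsto b atTop atTop :=
  tendsto_atTop_mono' _ h.big tendsto_id

/-- The logarithms of the ends. -/
theorem log_ends {a b : ℕ → ℕ} (ha : Tendsto a atTop atTop) (hab : ∀ᶠ n in atTop, a n ≤ b n)
    (hC : ∃ C : ℕ, ∀ᶠ n in atTop, b n ≤ C * a n) :
    Tendsto (fun n => Real.log (b n) / Real.log (a n)) atTop (𝓝 1) := by
  obtain ⟨C, hC⟩ := hC
  have hl : Tendsto (fun n => Real.log (a n : ℝ)) atTop atTop := lg_top.comp ha
  have h1 : Tendsto (fun n => 1 + Real.log (C : ℝ) / Real.log (a n)) atTop (𝓝 (1 + 0)) :=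
    tendsto_const_nhds.add (hl.const_div_atTop _)
  rw [add_zero] at h1
  refine tendsto_of_tendsto_of_tendsto_of_le_of_le' tendsto_const_nhds h1 ?_ ?_
  · filter_upwards [hl.eventually_gt_atTop 0, hab, ha.eventually_ge_atTop 1] with n h2 h3 h4
    rw [le_div_iff₀ h2, one_mul]
    have h5 : (0 : ℝ) < a n := by exact_mod_cast h4
    exact Real.log_le_log h5 (by exact_mod_cast h3)
  · filter_upwards [hl.eventually_gt_atTop 0, hC, ha.eventually_ge_atTop 1, hab] with n h2 h3 h4 h5
    have h6 : (0 : ℝ) < a n := by exact_mod_cast h4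
    have h7 : 0 < b n := by omega
    have h8 : C ≠ 0 := by
      rintro rfl
      rw [zero_mul] at h3
      omega
    have h9 : (0 : ℝ) < C := by exact_mod_cast Nat.pos_of_ne_zero h8
    have h10 : Real.log (b n : ℝ) ≤ Real.log C + Real.log (a n) := by
      rw [← Real.log_mul h9.ne' h6.ne']
      exact Real.log_le_log (by exact_mod_cast h7) (by exact_mod_cast h3)
    rw [div_le_iff₀ h2, add_mul, one_mul, div_mul_cancel₀ _ h2.ne']
    linarith

/-- The weights at the ends. -/
theorem Sys.flat (h : Sys Q S f m₁) {a b : ℕ → ℕ} (ha : Tendsto a atTop atTop) (hab : ∀ᶠ n in atTop, a n ≤ b n)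
    (hC : ∃ C : ℕ, ∀ᶠ n in atTop, b n ≤ C * a n) (i : Fin r) :
    Tendsto (fun n => fw (S i) f (a n) / fw (S i) f (b n)) atTop (𝓝 1) := by
  have hb : Tendsto b atTop atTop := tendsto_atTop_mono' _ hab ha
  have h1 : ∀ s' ∈ S i, Tendsto (fun n => Real.log (f s' (b n)) / Real.log (f s' (a n))) atTop (𝓝 1) := by
    intro s' hs'
    obtain ⟨d, hd0, hd⟩ := h.lim i s' hs'
    have h2 := hd.comp hb
    have h3 := (hd.comp ha).inv₀ hd0.ne'
    have h4 := log_ends ha hab hC
    have h5 := (h2.mul h3).mul h4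
    rw [mul_inv_cancel₀ hd0.ne', one_mul] at h5
    refine h5.congr' ?_
    filter_upwards [(lg_top.comp ha).eventually_gt_atTop 0, (lg_top.comp hb).eventually_gt_atTop 0] with n e1 e2
    simp only [Function.comp_apply] at e1 e2 ⊢
    rw [inv_div]
    by_cases h0 : Real.log (f s' (a n)) = 0
    · rw [h0]
      simp
    · field_simp
  have h2 := tendsto_finsetProd (S i) h1
  rw [prod_const_one] at h2
  refine h2.congr (fun n => ?_)
  unfold fw
  rw [← prod_div_distrib]
  exact prod_congr rfl (fun s' _ => (inv_div_inv _ _).symm)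

theorem gw_fP (A : Set ℕ) {a b : ℕ → ℕ} {n : ℕ} (hn : m₁ ≤ a n) (hab : a n ≤ b n) (i : Fin r) (t : ℝ) :
    fP Q A S (fun _ _ => sh f m₁) (fun n _ => a n - m₁) (fun n _ => b n - m₁) n i t =
      Wp (cD A Q S f m₁) (cP Q S f m₁) (a n) (b n) (Real.log n) i t := by
  have ea : a n - m₁ + m₁ = a n := by omega
  have eb : b n - m₁ + m₁ = b n := by omega
  have ept : pt (a n - m₁) (b n - m₁) t + m₁ = pt (a n) (b n) t := by
    conv_rhs => rw [← ea, ← eb]
    unfold pt
    have : (((b n - m₁ + m₁ : ℕ) : ℝ)) - ((a n - m₁ + m₁ : ℕ) : ℝ) = ((b n - m₁ : ℕ) : ℝ) - ((a n - m₁ : ℕ) : ℝ) := by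
      push_cast
      ring
    rw [this]
    omega
  have e0 : a n - m₁ ≤ b n - m₁ := by omega
  unfold fP Wp
  simp only
  rw [fN_shift, fex_shift Q S f m₁ i (FL.pt_ge _ _ _), fex_shift Q S f m₁ i e0, ea, eb, ept]
  congr 1
  have e1 := FL.fN_add A (S i) f (u := 0) (v := a n) (w := pt (a n) (b n) t) (Nat.zero_le _) (FL.pt_ge _ _ _)
  unfold cD
  rw [e1]
  ring

theorem fw_sh (T : Finset σ) {y : ℕ} (hy : m₁ ≤ y) : fw T (sh f m₁) (y - m₁) = fw T f y := by
  have e1 : y - m₁ + m₁ = y := by omega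
  unfold fw sh
  simp only [e1]

/-- **The law in the windows.** -/
theorem Sys.winG {Ω : Type*} [MeasurableSpace Ω] {μ : Measure Ω} [IsProbabilityMeasure μ] {A : Ω → Set ℕ} (h : Sys Q S f m₁)
    (hQ : 1 ≤ Q) (hA : IsModel μ (level Q) A) {a b : ℕ → ℕ} (hw : Wins a b) :
    ∀ᵐ ω ∂μ, FLaw (fun n i t => Wp (cD (A ω) Q S f m₁) (cP Q S f m₁) (a n) (b n) (Real.log n) i t) := by
  obtain ⟨e, he1, he⟩ := h.expo
  obtain ⟨η, hη, hsize⟩ := hw.size
  obtain ⟨E, hE⟩ := hw.poly
  obtain ⟨M, hM⟩ : ∃ M : ℕ → ℝ, M = fun n => (b n : ℝ) - a n := ⟨_, rfl⟩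
  obtain ⟨N, hN⟩ : ∃ N : ℕ → ℕ, N = fun n => b n ^ e := ⟨_, rfl⟩
  obtain ⟨δ, hδ⟩ : ∃ δ : ℝ, δ = min (1 / 2) (η / e) := ⟨_, rfl⟩
  have he0 : (1 : ℝ) ≤ e := by exact_mod_cast he1
  have hδ0 : 0 < δ := by
    rw [hδ]
    refine lt_min (by norm_num) (by positivity)
  have hδ1 : δ ≤ 1 / 2 := by
    rw [hδ]
    exact min_le_left _ _
  have hδ2 : e * δ ≤ η := by
    have : δ ≤ η / e := by
      rw [hδ]
      exact min_le_right _ _
    rw [le_div_iff₀ (by linarith)] at this
    linarith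
  obtain ⟨k₀, hk₀⟩ := eventually_atTop.1 (((((hw.topb.eventually he).and hsize).and
    (hw.top.eventually_ge_atTop (m₁ + 3))).and hw.le).and (hw.big.and hw.disj))
  have g1 : ∀ n ≥ k₀, ∀ i, ∀ s ∈ S i, f s (b n) ≤ b n ^ e := fun n hn => (hk₀ n hn).1.1.1.1
  have g2 : ∀ n ≥ k₀, (b n : ℝ) ^ η ≤ (b n : ℝ) - a n := fun n hn => (hk₀ n hn).1.1.1.2
  have g3 : ∀ n ≥ k₀, m₁ + 3 ≤ a n := fun n hn => (hk₀ n hn).1.1.2
  have g4 : ∀ n ≥ k₀, a n ≤ b n := fun n hn => (hk₀ n hn).1.2
  have g5 : ∀ n ≥ k₀, n ≤ b n := fun n hn => (hk₀ n hn).2.1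
  have g6 : ∀ n ≥ k₀, b n ≤ a (n + 1) := fun n hn => (hk₀ n hn).2.2
  have g7 : ∀ n ≥ k₀, ∀ d, b n ≤ a (n + d + 1) := by
    intro n hn d
    induction d with
    | zero => exact g6 n hn
    | succ d ih => exact ih.trans ((g4 (n + d + 1) (by omega)).trans (g6 (n + d + 1) (by omega)))
  have hb1 : ∀ n ≥ k₀, (1 : ℝ) ≤ b n := by
    intro n hn
    have := g3 n hn
    have := g4 n hn
    exact_mod_cast (show 1 ≤ b n by omega)
  have hM1 : ∀ n ≥ k₀, 1 ≤ M n := by
    intro n hn
    rw [hM]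
    exact (Real.one_le_rpow (hb1 n hn) hη.le).trans (g2 n hn)
  have hba : ∀ n ≥ k₀, ((b n - m₁ : ℕ) : ℝ) - ((a n - m₁ : ℕ) : ℝ) = M n := by
    intro n hn
    have h3 := g3 n hn
    have h4 := g4 n hn
    rw [Nat.cast_sub (by omega), Nat.cast_sub (by omega), hM]
    simp only
    ring
  obtain ⟨α, hα⟩ : ∃ α : ℕ → Fin r → ℕ, α = fun n _ => a n - m₁ := ⟨_, rfl⟩
  obtain ⟨β, hβ⟩ : ∃ β : ℕ → Fin r → ℕ, β = fun n _ => b n - m₁ := ⟨_, rfl⟩
  have hG : FD Q S (fun n => (fun _ _ => sh f m₁ : ℕ → Fin r → σ → ℕ → ℕ) (n + k₀)) (fun n => N (n + k₀))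
      (fun n => α (n + k₀)) (fun n => β (n + k₀)) (fun n => M (n + k₀)) δ :=
    { ne := h.ne
      mono := fun n i s hs => h.mono i s hs
      per := fun n i s hs m => h.per i s hs m
      dist := fun n i m _ _ => h.inj i m
      grow := fun n => by
        rw [hN]
        simp only
        have h1 := g5 (n + k₀) (by omega)
        have h3 : b (n + k₀) ^ 1 ≤ b (n + k₀) ^ e :=
          Nat.pow_le_pow_right (by have := g3 (n + k₀) (by omega); have := g4 (n + k₀) (by omega); omega) he1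
        rw [pow_one] at h3
        omega
      bd := by
        intro n i s' hs' m hm
        have h3 := (h.mono i s' hs').monotone hm.le
        have h5 := g3 (n + k₀) (by omega)
        have h6 := g4 (n + k₀) (by omega)
        have h4 : sh f m₁ s' (β (n + k₀) i) = f s' (b (n + k₀)) := by
          rw [hβ]
          unfold sh
          congr 1
          show b (n + k₀) - m₁ + m₁ = b (n + k₀)
          omega
        rw [h4] at h3
        rw [hN]
        exact h3.trans (g1 (n + k₀) (by omega) i s' hs')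
      sing := fun n i => h.sing i
      win := fun n i => by
        have h5 := g3 (n + k₀) (by omega)
        have h6 := g4 (n + k₀) (by omega)
        rw [hα, hβ]
        constructor <;> simp only <;> omega
      size := fun n => by
        have h1 := g2 (n + k₀) (by omega)
        have h2 := hb1 (n + k₀) (by omega)
        rw [hN, hM]
        simp only
        refine le_trans ?_ h1
        rw [Nat.cast_pow, ← Real.rpow_natCast, ← Real.rpow_mul (by linarith)]
        exact Real.rpow_le_rpow_of_exponent_le h2 hδ2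
      low := fun n i => by
        rw [hα, hβ]
        simp only
        rw [hba (n + k₀) (by omega)]
      high := fun n i => by
        rw [hα, hβ]
        simp only
        rw [hba (n + k₀) (by omega)]
        conv_lhs => rw [← Real.rpow_one (M (n + k₀))]
        exact Real.rpow_le_rpow_of_exponent_le (hM1 _ (by omega)) (by linarith)
      uniq := by
        intro n i i' m m' _ _ _ _ h1
        by_contra hcon
        exact h.sep i i' hcon m m' h1
      ov := by
        intro n n' hlt _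
        have h3 : UV.ovc S (fun n => (fun _ _ => sh f m₁ : ℕ → Fin r → σ → ℕ → ℕ) (n + k₀)) (fun n => α (n + k₀))
            (fun n => β (n + k₀)) n n' = 0 := by
          refine UV.ovc_zero (fun i m i' m' hm1 hm2 hm1' hm2' h1 => ?_)
          by_cases hii : i = i'
          · subst hii
            have h4 : β (n + k₀) i ≤ α (n' + k₀) i := by
              rw [hα, hβ]
              simp only
              have := g7 (n + k₀) (by omega) (n' - n - 1)
              rw [show n + k₀ + (n' - n - 1) + 1 = n' + k₀ by omega] at this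
              omega
            have h5 : m < m' := by omega
            exact UV.ft_ne (h.ne i) (h.mono i) h5 h1
          · exact h.sep i i' hii m m' h1
        rw [h3, Nat.cast_zero, zero_pow (by norm_num), zero_mul]
        have h4 := hM1 (n + k₀) (by omega)
        have h5 := hM1 (n' + k₀) (by omega)
        positivity }
  -- the growth
  have htime : ∀ᶠ n : ℕ in atTop, Real.log ((2 * N n : ℕ) : ℝ) ≤ Real.exp (1 * Real.log n) := by
    have h1 : Tendsto (fun n : ℕ => Real.log (n : ℝ) / (n : ℝ)) atTop (𝓝 0) := by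
      have := Real.isLittleO_log_id_atTop.tendsto_div_nhds_zero.comp tendsto_natCast_atTop_atTop
      exact this
    have h2 : (0 : ℝ) < 1 / (2 * ((E : ℝ) * e + 1)) := by positivity
    filter_upwards [hE, h1.eventually (gt_mem_nhds h2), eventually_ge_atTop 2, eventually_ge_atTop k₀] with n h3 h4 h5 h6
    have hn0 : (0 : ℝ) < n := by exact_mod_cast (show 0 < n by omega)
    rw [one_mul, Real.exp_log hn0]
    have e1 : (2 * N n : ℕ) ≤ 2 * (n ^ E) ^ e := by
      rw [hN]
      exact Nat.mul_le_mul_left 2 (Nat.pow_le_pow_left h3 e)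
    have e0 : 0 < 2 * N n := by
      rw [hN]
      have := g3 n h6
      have := g4 n h6
      have : 0 < b n := by omega
      positivity
    have e2 : Real.log ((2 * N n : ℕ) : ℝ) ≤ Real.log ((2 * (n ^ E) ^ e : ℕ) : ℝ) :=
      Real.log_le_log (by exact_mod_cast e0) (by exact_mod_cast e1)
    have e3 : Real.log ((2 * (n ^ E) ^ e : ℕ) : ℝ) = Real.log 2 + e * (E * Real.log n) := by
      push_cast
      rw [Real.log_mul (by norm_num) (by positivity), Real.log_pow, Real.log_pow]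
    have e4 : Real.log 2 ≤ Real.log n := Real.log_le_log (by norm_num) (by exact_mod_cast h5)
    rw [div_lt_iff₀ hn0, div_mul_eq_mul_div, one_mul, lt_div_iff₀ (by positivity)] at h4
    have e5 : 0 ≤ Real.log n := Real.log_natCast_nonneg n
    have e6 : 0 ≤ (E : ℝ) * e * Real.log n := by positivity
    nlinarith
  -- the clock
  have hclk : ∀ q ≥ 1, ∀ x : Fin (r * q), Tendsto (fun n => q * fex Q (S (c1 x))
      ((fun _ _ => sh f m₁ : ℕ → Fin r → σ → ℕ → ℕ) n (c1 x)) (lft α β n x)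
      (rgt α β n x) / fex Q (S (c1 x)) ((fun _ _ => sh f m₁ : ℕ → Fin r → σ → ℕ → ℕ) n (c1 x))
      (α n (c1 x)) (β n (c1 x))) atTop (𝓝 1) := by
    intro q hq x
    refine FL.clk_of (f := (fun _ _ => sh f m₁ : ℕ → Fin r → σ → ℕ → ℕ)) hG hδ0 (fun i => ?_) hq x
    refine (h.flat hw.top hw.le hw.ratio i).congr' ?_
    filter_upwards [eventually_ge_atTop k₀] with n hn
    have h5 := g3 n hn
    have h6 := g4 n hn
    have e1 : fw (S i) (sh f m₁) (a n - m₁) = fw (S i) f (a n) := fw_sh (S i) (by omega)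
    have e2 : fw (S i) (sh f m₁) (b n - m₁) = fw (S i) f (b n) := fw_sh (S i) (by omega)
    rw [hα, hβ]
    simp only [e1, e2]
  have hfin := FL.row_law (f := (fun _ _ => sh f m₁ : ℕ → Fin r → σ → ℕ → ℕ)) (a := α) (b := β) (N := N) (M := M) (δ := δ)
    hA (k₀ := k₀) hG hQ hδ0 hδ1 htime hclk
  filter_upwards [hfin] with ω hω
  refine flaw_near hω (fun ε hε => ?_)
  filter_upwards [eventually_ge_atTop k₀] with n hn i t _ _
  have h5 := g3 n hn
  rw [hα, hβ, gw_fP (A ω) (by omega) (g4 n hn) i t, sub_self, abs_zero]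
  exact hε.le

end Pool.Agent.Q106.ST
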