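import Pool.Agent.Q106.GMM.Fin
import Pool.Agent.Q106.ST.Bnd

/-!
# Sums of slowly varying weights
-/

set_option autoImplicit false

namespace Pool.Agent.Q106.ST

open Finset Filter
open scoped Topology
open Pool.Agent.Q106.GMM (UU)

theorem sum_asymp {w : ℕ → ℝ} (k : ℕ) {L : ℝ} (hw : Tendsto (fun m : ℕ => w m * Real.log m ^ k) atTop (𝓝 L)) :
    Tendsto (fun N : ℕ => (∑ n ∈ range N, w n) / UU 1 (-(k : ℝ)) N) atTop (𝓝 L) := by
  have h1 := GMM.inc_pos one_pos (-(k : ℝ))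
  have h2 := hw.mul (h1.inv₀ one_ne_zero)
  rw [inv_one, mul_one] at h2
  refine GMM.stolz_UU (Or.inl one_pos) (GMM.inc_ev (r := 1) (q := -(k : ℝ)) (Or.inl one_pos)) (h2.congr' ?_)
  filter_upwards [lg_top.eventually_gt_atTop 0, GMM.inc_ev (r := 1) (q := -(k : ℝ)) (Or.inl one_pos)] with n hn hn2
  have := pow_pos hn k
  rw [show (1 : ℝ) - 1 = 0 by norm_num, Real.rpow_zero, one_mul, Real.rpow_neg hn.le, Real.rpow_natCast]
  field_simp

theorem floor_ratio {θ : ℝ} (hθ : 0 < θ) : Tendsto (fun b : ℕ => (⌊θ * b⌋₊ : ℝ) / b) atTop (𝓝 θ) := by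
  have h1 := tendsto_nat_floor_mul_div_atTop (R := ℝ) hθ.le
  have h2 := h1.comp tendsto_natCast_atTop_atTop (α := ℕ)
  exact h2

theorem floor_top {θ : ℝ} (hθ : 0 < θ) : Tendsto (fun b : ℕ => ⌊θ * b⌋₊) atTop atTop := by
  have h1 : Tendsto (fun b : ℕ => θ * (b : ℝ)) atTop atTop := tendsto_natCast_atTop_atTop.const_mul_atTop hθ
  exact tendsto_nat_floor_atTop.comp h1

theorem floor_log {θ : ℝ} (hθ : 0 < θ) : Tendsto (fun b : ℕ => Real.log (⌊θ * b⌋₊ : ℝ) / Real.log b) atTop (𝓝 1) := by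
  have h1 := (floor_ratio hθ).log hθ.ne'
  have h2 : Tendsto (fun b : ℕ => 1 + Real.log ((⌊θ * b⌋₊ : ℝ) / b) / Real.log b) atTop (𝓝 (1 + 0)) :=
    tendsto_const_nhds.add (h1.div_atTop lg_top)
  rw [add_zero] at h2
  refine h2.congr' ?_
  filter_upwards [lg_top.eventually_gt_atTop 0, eventually_ge_atTop 1, (floor_top hθ).eventually_ge_atTop 1] with b h3 h4 h5
  have hb : (0 : ℝ) < b := by exact_mod_cast h4
  have hf : (0 : ℝ) < (⌊θ * b⌋₊ : ℝ) := by exact_mod_cast h5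
  rw [Real.log_div hf.ne' hb.ne']
  field_simp
  ring

/-- **Regular variation.** -/
theorem rv_of {P : ℕ → ℝ} (hm : Monotone P) {k : ℕ} {L : ℝ} (hL : 0 < L)
    (h : Tendsto (fun N : ℕ => P N / UU 1 (-(k : ℝ)) N) atTop (𝓝 L)) :
    Tendsto P atTop atTop ∧ ∀ ε > 0, ∀ᶠ b : ℕ in atTop, ∀ x ≤ b, |P x - x / b * P b| ≤ ε * P b := by
  have hU := GMM.UU_top (r := 1) (q := -(k : ℝ)) (Or.inl one_pos)
  have htop : Tendsto P atTop atTop := by
    have h1 := h.pos_mul_atTop hL hU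
    refine h1.congr' ?_
    filter_upwards [hU.eventually_gt_atTop 0] with N hN
    field_simp
  refine ⟨htop, ?_⟩
  have hpt : ∀ θ : ℝ, 0 ≤ θ → Tendsto (fun b : ℕ => P ⌊θ * b⌋₊ / P b) atTop (𝓝 θ) := by
    intro θ hθ
    rcases hθ.eq_or_lt with hθ | hθ
    · subst hθ
      simp only [zero_mul, Nat.floor_zero]
      exact htop.const_div_atTop _
    · have h1 := (h.comp (floor_top hθ)).div h hL.ne'
      have h2 := (floor_log hθ).rpow_const (p := -(k : ℝ)) (Or.inl one_ne_zero)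
      have h3 := (h1.mul (floor_ratio hθ)).mul h2
      rw [Real.one_rpow, mul_one, div_self hL.ne', one_mul] at h3
      refine h3.congr' ?_
      filter_upwards [lg_top.eventually_gt_atTop 0, eventually_ge_atTop 1, (floor_top hθ).eventually_ge_atTop 2,
        htop.eventually_gt_atTop 0] with b h4 h5 h6 h7
      have hb : (0 : ℝ) < b := by exact_mod_cast h5
      have hf : (1 : ℝ) < (⌊θ * b⌋₊ : ℝ) := by exact_mod_cast (show 1 < ⌊θ * b⌋₊ by omega)
      have hlf := Real.log_pos hf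
      have e1 := Real.rpow_pos_of_pos h4 (-(k : ℝ))
      have e2 := Real.rpow_pos_of_pos hlf (-(k : ℝ))
      simp only [Pi.div_apply, Function.comp_apply, UU, Real.rpow_one]
      rw [Real.div_rpow hlf.le h4.le]
      field_simp
  intro ε hε
  obtain ⟨q, hq⟩ := exists_nat_gt (2 / ε)
  have hq0 : (0 : ℝ) < q := lt_trans (by positivity) hq
  have hqε : 2 / (q : ℝ) ≤ ε := by
    rw [div_lt_iff₀ hε] at hq
    rw [div_le_iff₀ hq0]
    linarith
  have hgrid : ∀ᶠ b : ℕ in atTop, ∀ l : Fin (q + 1), |P ⌊((l : ℕ) : ℝ) / q * b⌋₊ / P b - ((l : ℕ) : ℝ) / q| < 1 / q := by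
    refine eventually_all.2 (fun l => ?_)
    have := (Metric.tendsto_nhds.1 (hpt (((l : ℕ) : ℝ) / q) (by positivity))) (1 / q) (by positivity)
    simpa only [Real.dist_eq] using this
  filter_upwards [hgrid, htop.eventually_gt_atTop 0, eventually_ge_atTop 1] with b h1 h2 h3 x hx
  have hb : (0 : ℝ) < b := by exact_mod_cast h3
  have hxb : (x : ℝ) ≤ b := by exact_mod_cast hx
  have hg : ∀ l ≤ q, |P ⌊(l : ℝ) / q * b⌋₊ - (l : ℝ) / q * P b| ≤ 1 / q * P b := by
    intro l hl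
    have h4 := h1 ⟨l, by omega⟩
    simp only at h4
    have h5 : P ⌊(l : ℝ) / q * b⌋₊ - (l : ℝ) / q * P b = (P ⌊(l : ℝ) / q * b⌋₊ / P b - (l : ℝ) / q) * P b := by
      field_simp
    rw [h5, abs_mul, abs_of_pos h2]
    exact mul_le_mul_of_nonneg_right h4.le h2.le
  obtain ⟨l, hl⟩ : ∃ l, l = ⌊(x : ℝ) * q / b⌋₊ := ⟨_, rfl⟩
  have hl1 : (l : ℝ) ≤ x * q / b := by rw [hl]; exact Nat.floor_le (by positivity)
  have hl2 : (x : ℝ) * q / b < l + 1 := by rw [hl]; exact Nat.lt_floor_add_one _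
  have hlq : l ≤ q := by
    have : (l : ℝ) ≤ q := hl1.trans (by
      rw [div_le_iff₀ hb]
      nlinarith)
    exact_mod_cast this
  rw [le_div_iff₀ hb] at hl1
  rw [div_lt_iff₀ hb] at hl2
  have e1 : (l : ℝ) / q ≤ x / b := by
    rw [div_le_div_iff₀ hq0 hb]
    exact hl1
  have e2 : (x : ℝ) / b ≤ (l : ℝ) / q + 1 / q := by
    rw [← add_div, div_le_div_iff₀ hb hq0]
    linarith
  have e3 : ⌊(l : ℝ) / q * b⌋₊ ≤ x := by
    refine Nat.floor_le_of_le ?_
    rw [div_mul_eq_mul_div, div_le_iff₀ hq0]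
    exact hl1
  have g1 := (abs_le.1 (hg l hlq)).1
  have hlo : (x : ℝ) / b * P b - 2 / q * P b ≤ P x := by
    have e4 : P ⌊(l : ℝ) / q * b⌋₊ ≤ P x := hm e3
    have e5 : (2 : ℝ) / q = 1 / q + 1 / q := by ring
    rw [e5]
    nlinarith
  have hhi : P x ≤ (x : ℝ) / b * P b + 2 / q * P b := by
    by_cases hlq' : l = q
    · have e4 : x = b := by
        have e5 : (b : ℝ) ≤ x := by
          rw [hlq'] at hl1
          by_contra hcon
          rw [not_le] at hcon
          nlinarith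
        have e6 : b ≤ x := by exact_mod_cast e5
        omega
      rw [e4, div_self hb.ne', one_mul]
      have : 0 ≤ 2 / (q : ℝ) * P b := by positivity
      linarith
    · have g2 := (abs_le.1 (hg (l + 1) (by omega))).2
      have e4 : x ≤ ⌊((l + 1 : ℕ) : ℝ) / q * b⌋₊ := by
        refine Nat.le_floor ?_
        rw [div_mul_eq_mul_div, le_div_iff₀ hq0]
        push_cast
        exact hl2.le
      have e5 : P x ≤ P ⌊((l + 1 : ℕ) : ℝ) / q * b⌋₊ := hm e4
      have e6 : (((l + 1 : ℕ) : ℝ)) / q = (l : ℝ) / q + 1 / q := by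
        push_cast
        ring
      rw [e6] at g2 e5
      have e7 : (2 : ℝ) / q = 1 / q + 1 / q := by ring
      rw [e7]
      nlinarith
  rw [abs_le]
  constructor <;> nlinarith

end Pool.Agent.Q106.ST
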