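import Pool.Agent.Q106.ST.Nest
import Pool.Agent.Q106.ST.Reg
import Pool.Agent.Q106.FL.Row
import Pool.Agent.Q106.UV.Fun3

/-!
# Strassen's law for the counts of the places where all functions of a system take values in the random set
-/

set_option autoImplicit false

namespace Pool.Agent.Q106.ST

open Finset MeasureTheory ProbabilityTheory Filter
open scoped Topology
open Pool.Agent.Q120.GM (IsModel level)
open Pool.Agent.Q106.UV (fN fex fser fw ft FD)
open Pool.Agent.Q106.FL (Energy Near pt fP FLaw lft rgt c1)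
open Pool.Agent.Q106.GMM (UU)

variable {σ : Type*} {Q r : ℕ} {S : Fin r → Finset σ} {f : σ → ℕ → ℕ} {m₁ : ℕ}

/-- The functions after `m₁`. -/
def sh (f : σ → ℕ → ℕ) (m₁ : ℕ) : σ → ℕ → ℕ := fun s m => f s (m + m₁)

/-- The systems of functions. -/
structure Sys (Q : ℕ) {r : ℕ} (S : Fin r → Finset σ) (f : σ → ℕ → ℕ) (m₁ : ℕ) : Prop where
  ne : ∀ i, (S i).Nonempty
  mono : ∀ i, ∀ s ∈ S i, StrictMono (sh f m₁ s)
  per : ∀ i, ∀ s ∈ S i, ∀ m, sh f m₁ s (m + Q) ≡ sh f m₁ s m [MOD Q]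
  inj : ∀ i, ∀ m, Set.InjOn (fun s => sh f m₁ s m) (S i : Set σ)
  lim : ∀ i, ∀ s ∈ S i, ∃ d > 0, Tendsto (fun m : ℕ => Real.log (f s m) / Real.log m) atTop (𝓝 d)
  sing : ∀ i, 0 < fser Q (S i) (sh f m₁)
  sep : ∀ i i', i ≠ i' → ∀ m m', ft (S i) (sh f m₁) m ≠ ft (S i') (sh f m₁) m'

/-- The predicted number up to `y`. -/
noncomputable def cP (Q : ℕ) {r : ℕ} (S : Fin r → Finset σ) (f : σ → ℕ → ℕ) (m₁ : ℕ) (i : Fin r) (y : ℕ) : ℝ :=
  fser Q (S i) (sh f m₁) * ∑ m ∈ range y, fw (S i) f m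

/-- The deviation up to `y`. -/
noncomputable def cD (A : Set ℕ) (Q : ℕ) {r : ℕ} (S : Fin r → Finset σ) (f : σ → ℕ → ℕ) (m₁ : ℕ) (i : Fin r) (y : ℕ) : ℝ :=
  fN A (S i) f 0 y - cP Q S f m₁ i y

theorem fN_shift (A : Set ℕ) (T : Finset σ) (f : σ → ℕ → ℕ) (m₁ u v : ℕ) :
    fN A T (sh f m₁) u v = fN A T f (u + m₁) (v + m₁) := by
  unfold fN sh
  congr 1
  rw [← Set.ncard_image_of_injective _ (add_left_injective m₁)]
  congr 1
  ext m
  simp only [Set.mem_image, Set.mem_setOf_eq]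
  constructor
  · rintro ⟨x, ⟨h1, h2, h3⟩, rfl⟩
    exact ⟨by omega, by omega, h3⟩
  · rintro ⟨h1, h2, h3⟩
    refine ⟨m - m₁, ⟨by omega, by omega, ?_⟩, by omega⟩
    have : m - m₁ + m₁ = m := by omega
    rw [this]
    exact h3

theorem fex_shift (Q : ℕ) (S : Fin r → Finset σ) (f : σ → ℕ → ℕ) (m₁ : ℕ) (i : Fin r) {u v : ℕ} (h : u ≤ v) :
    fex Q (S i) (sh f m₁) u v = cP Q S f m₁ i (v + m₁) - cP Q S f m₁ i (u + m₁) := by
  unfold fex cP
  rw [← mul_sub, ← sum_Ico_eq_sub _ (show u + m₁ ≤ v + m₁ by omega)]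
  congr 1
  rw [← sum_Ico_add' (fun m => fw (S i) f m) u v m₁]
  rfl

theorem fw_nn (T : Finset σ) (f : σ → ℕ → ℕ) (m : ℕ) : 0 ≤ fw T f m :=
  prod_nonneg (fun _ _ => inv_nonneg.2 (Real.log_natCast_nonneg _))

theorem fser_nn (Q : ℕ) (T : Finset σ) (f : σ → ℕ → ℕ) : 0 ≤ fser Q T f := by
  unfold fser
  positivity

theorem cP_mono (Q : ℕ) (S : Fin r → Finset σ) (f : σ → ℕ → ℕ) (m₁ : ℕ) (i : Fin r) : Monotone (cP Q S f m₁ i) := by
  intro x y hxy
  unfold cP
  refine mul_le_mul_of_nonneg_left ?_ (fser_nn _ _ _)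
  exact sum_le_sum_of_subset_of_nonneg (range_subset_range.2 hxy) (fun m _ _ => fw_nn _ _ m)

/-- The predicted numbers. -/
theorem Sys.pred (h : Sys Q S f m₁) (i : Fin r) : ∃ L > 0,
    Tendsto (fun N : ℕ => cP Q S f m₁ i N / UU 1 (-((S i).card : ℝ)) N) atTop (𝓝 L) := by
  have h1 : ∃ L > 0, Tendsto (fun m : ℕ => fw (S i) f m * Real.log m ^ (S i).card) atTop (𝓝 L) := by
    choose! d hd0 hd using h.lim i
    refine ⟨∏ s ∈ S i, (d s)⁻¹, prod_pos (fun s hs => inv_pos.2 (hd0 s hs)), ?_⟩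
    have h2 := tendsto_finsetProd (S i) (fun s hs => (hd s hs).inv₀ (hd0 s hs).ne')
    refine h2.congr (fun m => ?_)
    unfold fw
    rw [← prod_const, ← prod_mul_distrib]
    refine prod_congr rfl (fun s _ => ?_)
    rw [inv_div, div_eq_inv_mul]
  obtain ⟨L, hL, h2⟩ := h1
  refine ⟨fser Q (S i) (sh f m₁) * L, mul_pos (h.sing i) hL, ?_⟩
  refine ((sum_asymp (S i).card h2).const_mul (fser Q (S i) (sh f m₁))).congr (fun N => ?_)
  unfold cP
  rw [mul_div_assoc]

/-- The exponent. -/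
theorem Sys.expo (h : Sys Q S f m₁) : ∃ e ≥ 1, ∀ᶠ m : ℕ in atTop, ∀ i, ∀ s ∈ S i, f s m ≤ m ^ e := by
  have h1 : ∀ i, ∀ s ∈ S i, ∃ e : ℕ, ∀ᶠ m : ℕ in atTop, f s m ≤ m ^ e := by
    intro i s hs
    obtain ⟨d, hd0, hd⟩ := h.lim i s hs
    obtain ⟨e, he⟩ := exists_nat_gt d
    refine ⟨e, ?_⟩
    filter_upwards [hd.eventually_lt_const he, lg_top.eventually_gt_atTop 0, eventually_ge_atTop 1] with m h2 h3 h4
    have hm : (0 : ℝ) < m := by exact_mod_cast h4
    rw [div_lt_iff₀ h3] at h2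
    by_cases h0 : f s m = 0
    · rw [h0]
      exact Nat.zero_le _
    · have h5 : (0 : ℝ) < f s m := by exact_mod_cast Nat.pos_of_ne_zero h0
      rw [← Real.log_pow] at h2
      have h6 := (Real.log_lt_log_iff h5 (by positivity)).1 h2
      exact_mod_cast h6.le
  choose! e he using h1
  refine ⟨(∑ i, ∑ s ∈ S i, e i s) + 1, by omega, ?_⟩
  filter_upwards [eventually_all.2 (fun i => (eventually_all_finset (S i)).2 (fun s hs => he i s hs)), eventually_ge_atTop 1]
    with m h2 h3 i s hs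
  refine (h2 i s hs).trans (Nat.pow_le_pow_right (by omega) ?_)
  have h4 : e i s ≤ ∑ s ∈ S i, e i s := single_le_sum (f := fun s => e i s) (fun _ _ => Nat.zero_le _) hs
  have h5 : ∑ s ∈ S i, e i s ≤ ∑ i, ∑ s ∈ S i, e i s :=
    single_le_sum (f := fun i => ∑ s ∈ S i, e i s) (fun _ _ => Nat.zero_le _) (mem_univ i)
  omega

/-- The left ends of the windows. -/
def wa (m₁ K s n : ℕ) (_ : Fin r) : ℕ := 2 ^ (K * n + s) - m₁

/-- The right ends of the windows. -/
def wb (m₁ K s n : ℕ) (_ : Fin r) : ℕ := 2 ^ (K * n + K + s) - m₁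

theorem win_fP (A : Set ℕ) {K s n : ℕ} (hn : m₁ ≤ 2 ^ (K * n + s)) (i : Fin r) {t : ℝ} :
    fP Q A S (fun _ _ => sh f m₁) (wa m₁ K s) (wb m₁ K s) n i t = W (cD A Q S f m₁) (cP Q S f m₁) K s n i t := by
  have hab : (2 : ℕ) ^ (K * n + s) ≤ 2 ^ (K * n + K + s) := Nat.pow_le_pow_right (by norm_num) (by omega)
  have ea : wa m₁ K s n i + m₁ = 2 ^ (K * n + s) := by unfold wa; omega
  have eb : wb m₁ K s n i + m₁ = 2 ^ (K * n + K + s) := by unfold wb; omega
  have ept : pt (wa m₁ K s n i) (wb m₁ K s n i) t + m₁ = pt (2 ^ (K * n + s)) (2 ^ (K * n + K + s)) t := by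
    rw [← ea, ← eb]
    unfold pt
    have : (((wb m₁ K s n i + m₁ : ℕ) : ℝ)) - ((wa m₁ K s n i + m₁ : ℕ) : ℝ) = (wb m₁ K s n i : ℝ) - wa m₁ K s n i := by
      push_cast
      ring
    rw [this]
    omega
  have e0 : wa m₁ K s n i ≤ wb m₁ K s n i := by unfold wa wb; omega
  unfold fP W
  rw [fN_shift, fex_shift Q S f m₁ i (FL.pt_ge _ _ _), fex_shift Q S f m₁ i e0, ea, eb, ept]
  congr 1
  have e1 := FL.fN_add A (S i) f (u := 0) (v := 2 ^ (K * n + s)) (w := pt (2 ^ (K * n + s)) (2 ^ (K * n + K + s)) t)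
    (Nat.zero_le _) (FL.pt_ge _ _ _)
  unfold cD
  rw [e1]
  ring

/-- The law in the windows. -/
theorem Sys.win {Ω : Type*} [MeasurableSpace Ω] {μ : Measure Ω} [IsProbabilityMeasure μ] {A : Ω → Set ℕ} (h : Sys Q S f m₁)
    (hQ : 1 ≤ Q) (hA : IsModel μ (level Q) A) {K : ℕ} (hK : 1 ≤ K) (s : ℕ) :
    ∀ᵐ ω ∂μ, FLaw (fP Q (A ω) S (fun _ _ => sh f m₁) (wa m₁ K s) (wb m₁ K s)) := by
  obtain ⟨e, he1, he⟩ := h.expo
  obtain ⟨M, hM⟩ : ∃ M : ℕ → ℝ, M = fun n => (2 : ℝ) ^ (K * n + K + s) - 2 ^ (K * n + s) := ⟨_, rfl⟩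
  obtain ⟨N, hN⟩ : ∃ N : ℕ → ℕ, N = fun n => (2 ^ (K * n + K + s)) ^ e := ⟨_, rfl⟩
  obtain ⟨δ, hδ⟩ : ∃ δ : ℝ, δ = 1 / (2 * e) := ⟨_, rfl⟩
  have he0 : (1 : ℝ) ≤ e := by exact_mod_cast he1
  have hδ0 : 0 < δ := by rw [hδ]; positivity
  have hδ1 : δ ≤ 1 / 2 := by
    rw [hδ]
    refine one_div_le_one_div_of_le (by norm_num) (by linarith)
  have hu := aff_top hK s
  have hv : Tendsto (fun n => K * n + K + s) atTop atTop := by
    have := aff_top hK (K + s)
    simpa only [add_assoc] using this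
  obtain ⟨k₀, hk₀⟩ := eventually_atTop.1 ((((pow_top.comp hv).eventually he).and
    ((pow_top.comp hu).eventually_ge_atTop (m₁ + 3))).and (eventually_ge_atTop 1))
  have hMge : ∀ n, (2 : ℝ) ^ (K * n + s) ≤ M n := by
    intro n
    rw [hM]
    simp only
    have h1 : (2 : ℝ) ^ (K * n + s) * 2 ≤ 2 ^ (K * n + K + s) := by
      rw [← pow_succ]
      exact pow_le_pow_right₀ (by norm_num) (by omega)
    linarith
  have hM1 : ∀ n, 1 ≤ M n := fun n => (one_le_pow₀ (by norm_num)).trans (hMge n)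
  have hbaM : ∀ n ≥ k₀, ∀ i : Fin r, (wb m₁ K s n i : ℝ) - wa m₁ K s n i = M n := by
    intro n hn i
    obtain ⟨⟨_, h2⟩, _⟩ := hk₀ n hn
    simp only [Function.comp_apply] at h2
    have hab : (2 : ℕ) ^ (K * n + s) ≤ 2 ^ (K * n + K + s) := Nat.pow_le_pow_right (by norm_num) (by omega)
    unfold wa wb
    rw [Nat.cast_sub (by omega), Nat.cast_sub (by omega), hM]
    push_cast
    ring
  have hG : FD Q S (fun n => (fun _ _ => sh f m₁ : ℕ → Fin r → σ → ℕ → ℕ) (n + k₀)) (fun n => N (n + k₀))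
      (fun n => wa m₁ K s (n + k₀)) (fun n => wb m₁ K s (n + k₀)) (fun n => M (n + k₀)) δ :=
    { ne := h.ne
      mono := fun n i s hs => h.mono i s hs
      per := fun n i s hs m => h.per i s hs m
      dist := fun n i m _ _ => h.inj i m
      grow := fun n => by
        rw [hN]
        simp only
        have h1 : n < 2 ^ n := Nat.lt_two_pow_self
        have h2 : (2 : ℕ) ^ n ≤ 2 ^ (K * (n + k₀) + K + s) := Nat.pow_le_pow_right (by norm_num) (by nlinarith)
        have h3 : (2 ^ (K * (n + k₀) + K + s)) ^ 1 ≤ (2 ^ (K * (n + k₀) + K + s)) ^ e :=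
          Nat.pow_le_pow_right (Nat.one_le_two_pow) he1
        rw [pow_one] at h3
        omega
      bd := by
        intro n i s' hs' m hm
        obtain ⟨⟨h1, h2⟩, _⟩ := hk₀ (n + k₀) (by omega)
        simp only [Function.comp_apply] at h1 h2
        have hab : (2 : ℕ) ^ (K * (n + k₀) + s) ≤ 2 ^ (K * (n + k₀) + K + s) := Nat.pow_le_pow_right (by norm_num) (by omega)
        have h3 := (h.mono i s' hs').monotone hm.le
        have h4 : sh f m₁ s' (wb m₁ K s (n + k₀) i) = f s' (2 ^ (K * (n + k₀) + K + s)) := by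
          unfold sh wb
          congr 1
          omega
        rw [h4] at h3
        rw [hN]
        exact h3.trans (h1 i s' hs')
      sing := fun n i => h.sing i
      win := fun n i => by
        obtain ⟨⟨_, h2⟩, _⟩ := hk₀ (n + k₀) (by omega)
        simp only [Function.comp_apply] at h2
        have hab : (2 : ℕ) ^ (K * (n + k₀) + s) ≤ 2 ^ (K * (n + k₀) + K + s) := Nat.pow_le_pow_right (by norm_num) (by omega)
        unfold wa wb
        constructor <;> omega
      size := fun n => by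
        obtain ⟨_, h3⟩ := hk₀ (n + k₀) (by omega)
        refine le_trans ?_ (hMge (n + k₀))
        rw [hN]
        simp only
        obtain ⟨w, hw⟩ : ∃ w, w = n + k₀ := ⟨_, rfl⟩
        rw [← hw] at h3 ⊢
        have hw1 : (1 : ℝ) ≤ w := by exact_mod_cast h3
        have hK1 : (1 : ℝ) ≤ K := by exact_mod_cast hK
        have hs0 : (0 : ℝ) ≤ s := Nat.cast_nonneg _
        have e1 : (((2 ^ (K * w + K + s)) ^ e : ℕ) : ℝ) = (2 : ℝ) ^ ((((K * w + K + s) * e : ℕ)) : ℝ) := by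
          rw [Real.rpow_natCast, pow_mul]
          push_cast
          rfl
        rw [e1, ← Real.rpow_mul (by norm_num), ← Real.rpow_natCast 2 (K * w + s)]
        refine Real.rpow_le_rpow_of_exponent_le (by norm_num) ?_
        rw [hδ]
        push_cast
        have e2 : ((K : ℝ) * w + K + s) * e * (1 / (2 * e)) = ((K : ℝ) * w + K + s) / 2 := by
          field_simp
        rw [e2]
        nlinarith
      low := fun n i => by
        rw [hbaM (n + k₀) (by omega) i]
      high := fun n i => by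
        rw [hbaM (n + k₀) (by omega) i]
        conv_lhs => rw [← Real.rpow_one (M (n + k₀))]
        exact Real.rpow_le_rpow_of_exponent_le (hM1 _) (by linarith)
      uniq := by
        intro n i i' m m' _ _ _ _ h1
        by_contra hcon
        exact h.sep i i' hcon m m' h1
      ov := by
        intro n n' hlt _
        have h3 : UV.ovc S (fun n => (fun _ _ => sh f m₁ : ℕ → Fin r → σ → ℕ → ℕ) (n + k₀)) (fun n => wa m₁ K s (n + k₀))
            (fun n => wb m₁ K s (n + k₀)) n n' = 0 := by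
          refine UV.ovc_zero (fun i m i' m' hm1 hm2 hm1' hm2' h1 => ?_)
          by_cases hii : i = i'
          · subst hii
            have h4 : wb m₁ K s (n + k₀) i ≤ wa m₁ K s (n' + k₀) i := by
              unfold wa wb
              have : (2 : ℕ) ^ (K * (n + k₀) + K + s) ≤ 2 ^ (K * (n' + k₀) + s) := by
                refine Nat.pow_le_pow_right (by norm_num) ?_
                have : K * (n + k₀ + 1) ≤ K * (n' + k₀) := Nat.mul_le_mul_left K (by omega)
                have h5 : K * (n + k₀ + 1) = K * (n + k₀) + K := by ring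
                omega
              omega
            have h5 : m < m' := by omega
            exact UV.ft_ne (h.ne i) (h.mono i) h5 h1
          · exact h.sep i i' hii m m' h1
        rw [h3, Nat.cast_zero, zero_pow (by norm_num), zero_mul]
        have h4 := hM1 (n + k₀)
        have h5 := hM1 (n' + k₀)
        positivity }
  -- the growth
  have htime : ∀ᶠ n : ℕ in atTop, Real.log ((2 * N n : ℕ) : ℝ) ≤ Real.exp (2 * Real.log n) := by
    filter_upwards [eventually_ge_atTop (1 + (2 * K + s) * e)] with n hn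
    have hn1 : 1 ≤ n := by omega
    have hn0 : (0 : ℝ) < n := by exact_mod_cast hn1
    have e1 : Real.exp (2 * Real.log n) = (n : ℝ) * n := by
      rw [two_mul, Real.exp_add, Real.exp_log hn0]
    have e2 : Real.log ((2 * N n : ℕ) : ℝ) = Real.log 2 + ((K * n + K + s : ℕ) : ℝ) * e * Real.log 2 := by
      rw [hN]
      push_cast
      rw [Real.log_mul (by norm_num) (by positivity), Real.log_pow, Real.log_pow]
      push_cast
      ring
    have e3 : Real.log 2 ≤ 1 := by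
      have := Real.log_two_lt_d9
      linarith
    have e4 : 0 ≤ Real.log 2 := Real.log_nonneg (by norm_num)
    have e5 : 1 + (K * n + K + s) * e ≤ n * n := by
      have e6 : (K * n + K + s) * e ≤ n * ((2 * K + s) * e) := by
        have : K * n + K + s ≤ n * (2 * K + s) := by nlinarith
        calc (K * n + K + s) * e ≤ n * (2 * K + s) * e := Nat.mul_le_mul_right e this
          _ = n * ((2 * K + s) * e) := by ring
      have e7 : n * (1 + (2 * K + s) * e) ≤ n * n := Nat.mul_le_mul_left n hn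
      have e8 : n * (1 + (2 * K + s) * e) = n + n * ((2 * K + s) * e) := by ring
      omega
    have e6 : (1 : ℝ) + ((K * n + K + s : ℕ) : ℝ) * e ≤ n * n := by exact_mod_cast e5
    rw [e1, e2]
    have e7 : (0 : ℝ) ≤ ((K * n + K + s : ℕ) : ℝ) * e := by positivity
    nlinarith
  -- the clock
  have hclk : ∀ q ≥ 1, ∀ x : Fin (r * q), Tendsto (fun n => q * fex Q (S (c1 x))
      ((fun _ _ => sh f m₁ : ℕ → Fin r → σ → ℕ → ℕ) n (c1 x)) (lft (wa m₁ K s) (wb m₁ K s) n x)
      (rgt (wa m₁ K s) (wb m₁ K s) n x) / fex Q (S (c1 x)) ((fun _ _ => sh f m₁ : ℕ → Fin r → σ → ℕ → ℕ) n (c1 x))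
      (wa m₁ K s n (c1 x)) (wb m₁ K s n (c1 x))) atTop (𝓝 1) := by
    intro q hq x
    refine FL.clk_of (f := (fun _ _ => sh f m₁ : ℕ → Fin r → σ → ℕ → ℕ)) hG hδ0 (fun i => ?_) hq x
    have h1 : ∀ s' ∈ S i, Tendsto (fun n => Real.log (f s' (2 ^ (K * n + K + s))) / Real.log (f s' (2 ^ (K * n + s)))) atTop
        (𝓝 1) := by
      intro s' hs'
      obtain ⟨d, hd0, hd⟩ := h.lim i s' hs'
      have h2 := hd.comp (pow_top.comp hv)
      have h3 := (hd.comp (pow_top.comp hu)).inv₀ hd0.ne'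
      have h4 : Tendsto (fun n : ℕ => ((K * n + K + s : ℕ) : ℝ) / ((K * n + s : ℕ) : ℝ)) atTop (𝓝 1) := by
        have h5 : Tendsto (fun n : ℕ => 1 + (K : ℝ) / ((K * n + s : ℕ) : ℝ)) atTop (𝓝 (1 + 0)) :=
          tendsto_const_nhds.add ((tendsto_natCast_atTop_atTop.comp hu).const_div_atTop _)
        rw [add_zero] at h5
        refine h5.congr' ?_
        filter_upwards [hu.eventually_ge_atTop 1] with n hn
        have : (0 : ℝ) < ((K * n + s : ℕ) : ℝ) := by exact_mod_cast hn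
        rw [eq_div_iff this.ne', add_mul, one_mul, div_mul_cancel₀ _ this.ne']
        push_cast
        ring
      have h5 := (h2.mul h3).mul h4
      rw [mul_inv_cancel₀ hd0.ne', one_mul] at h5
      refine h5.congr' ?_
      filter_upwards [hu.eventually_ge_atTop 1] with n hn
      have e1 : (0 : ℝ) < ((K * n + s : ℕ) : ℝ) := by exact_mod_cast hn
      have e2 : (0 : ℝ) < ((K * n + K + s : ℕ) : ℝ) := by exact_mod_cast (show 0 < K * n + K + s by omega)
      have e3 : (0 : ℝ) < Real.log 2 := Real.log_pos (by norm_num)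
      simp only [Function.comp_apply]
      rw [Nat.cast_pow, Nat.cast_pow, Real.log_pow, Real.log_pow, Nat.cast_ofNat]
      rw [inv_div]
      by_cases h0 : Real.log (f s' (2 ^ (K * n + s))) = 0
      · rw [h0]
        simp
      · field_simp
    have h2 := tendsto_finsetProd (S i) h1
    rw [prod_const_one] at h2
    refine h2.congr' ?_
    filter_upwards [eventually_ge_atTop k₀] with n hn
    obtain ⟨⟨_, h3⟩, _⟩ := hk₀ n hn
    simp only [Function.comp_apply] at h3
    have hab : (2 : ℕ) ^ (K * n + s) ≤ 2 ^ (K * n + K + s) := Nat.pow_le_pow_right (by norm_num) (by omega)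
    unfold fw sh wa wb
    rw [← prod_div_distrib]
    refine prod_congr rfl (fun s' _ => ?_)
    rw [show 2 ^ (K * n + s) - m₁ + m₁ = 2 ^ (K * n + s) by omega,
      show 2 ^ (K * n + K + s) - m₁ + m₁ = 2 ^ (K * n + K + s) by omega, inv_div_inv]
  exact FL.row_law hA (k₀ := k₀) hG hQ hδ0 hδ1 htime hclk

/-- **The hypotheses hold almost surely.** -/
theorem Sys.nst {Ω : Type*} [MeasurableSpace Ω] {μ : Measure Ω} [IsProbabilityMeasure μ] {A : Ω → Set ℕ} (h : Sys Q S f m₁)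
    (hQ : 1 ≤ Q) (hA : IsModel μ (level Q) A) : ∀ᵐ ω ∂μ, Nst (cD (A ω) Q S f m₁) (cP Q S f m₁) := by
  have h1 : ∀ᵐ ω ∂μ, ∀ K s : ℕ, 1 ≤ K → FLaw (fP Q (A ω) S (fun _ _ => sh f m₁) (wa m₁ K s) (wb m₁ K s)) := by
    rw [ae_all_iff]
    intro K
    rw [ae_all_iff]
    intro s
    by_cases hK : 1 ≤ K
    · filter_upwards [h.win hQ hA hK s] with ω hω _
      exact hω
    · filter_upwards with ω h2
      exact absurd h2 hK
  filter_upwards [h1] with ω hω
  have hrv : ∀ i, Tendsto (cP Q S f m₁ i) atTop atTop ∧ ∀ ε > 0, ∀ᶠ b : ℕ in atTop, ∀ x ≤ b,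
      |cP Q S f m₁ i x - x / b * cP Q S f m₁ i b| ≤ ε * cP Q S f m₁ i b := by
    intro i
    obtain ⟨L, hL, h2⟩ := h.pred i
    exact rv_of (cP_mono Q S f m₁ i) hL h2
  refine ⟨cP_mono Q S f m₁, fun i => (hrv i).1, fun i => (hrv i).2, ?_, ?_⟩
  · intro K hK s ε hε
    filter_upwards [(hω K s hK).1 ε hε, (pow_top.comp (aff_top hK s)).eventually_ge_atTop m₁] with n h2 h3
    obtain ⟨φ, e, he, hφ, hN⟩ := h2
    refine ⟨φ, e, he, hφ, fun i t ht0 ht1 => ?_⟩
    rw [← win_fP (A ω) h3 i]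
    exact hN i t ht0 ht1
  · intro K hK s φ e he hφ ε hε
    have h2 := ((hω K s hK).2.1 φ e he hφ ε hε).and_eventually ((pow_top.comp (aff_top hK s)).eventually_ge_atTop m₁)
    refine h2.mono (fun n hn i t ht0 ht1 => ?_)
    rw [← win_fP (A ω) hn.2 i]
    exact hn.1 i t ht0 ht1

end Pool.Agent.Q106.ST
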