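import Pool.Agent.Q106.ST.WinC

/-!
# The functional law of the increments
-/

set_option autoImplicit false

namespace Pool.Agent.Q106.ST

open Finset MeasureTheory ProbabilityTheory Filter
open scoped Topology
open Pool.Agent.Q120.GM (IsModel level)
open Pool.Agent.Q106.UV (fN fex fser fw ft FD)
open Pool.Agent.Q106.FL (Energy Near pt fP FLaw)

variable {σ : Type*} {Q r : ℕ} {S : Fin r → Finset σ} {f : σ → ℕ → ℕ} {m₁ : ℕ}

theorem Sys.val_ge (h : Sys Q S f m₁) (i : Fin r) {s : σ} (hs : s ∈ S i) {y : ℕ} (hy : m₁ + 3 ≤ y) : 3 ≤ f s y := by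
  have h1 := (h.mono i s hs).id_le (y - m₁)
  unfold sh at h1
  simp only [id] at h1
  rw [show y - m₁ + m₁ = y by omega] at h1
  omega

theorem Sys.val_mono (h : Sys Q S f m₁) (i : Fin r) {s : σ} (hs : s ∈ S i) {y z : ℕ} (hy : m₁ ≤ y) (hyz : y ≤ z) :
    f s y ≤ f s z := by
  have h1 := (h.mono i s hs).monotone (show y - m₁ ≤ z - m₁ by omega)
  unfold sh at h1
  rwa [show y - m₁ + m₁ = y by omega, show z - m₁ + m₁ = z by omega] at h1

theorem Sys.fw_pos (h : Sys Q S f m₁) (i : Fin r) {y : ℕ} (hy : m₁ + 3 ≤ y) : 0 < fw (S i) f y := by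
  unfold fw
  refine prod_pos (fun s hs => inv_pos.2 (Real.log_pos ?_))
  have := h.val_ge i hs hy
  exact_mod_cast (show 1 < f s y by omega)

theorem Sys.fw_anti (h : Sys Q S f m₁) (i : Fin r) {y z : ℕ} (hy : m₁ + 3 ≤ y) (hyz : y ≤ z) :
    fw (S i) f z ≤ fw (S i) f y := by
  unfold fw
  refine prod_le_prod (fun s _ => inv_nonneg.2 (Real.log_natCast_nonneg _)) (fun s hs => ?_)
  have h1 := h.val_ge i hs hy
  have h2 := h.val_mono i hs (show m₁ ≤ y by omega) hyz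
  have h3 : (1 : ℝ) < f s y := by exact_mod_cast (show 1 < f s y by omega)
  exact inv_anti₀ (Real.log_pos h3) (Real.log_le_log (by linarith) (by exact_mod_cast h2))

/-- The predicted numbers of windows. -/
theorem Sys.cP_bd (h : Sys Q S f m₁) (i : Fin r) {u v : ℕ} (hu : m₁ + 3 ≤ u) (huv : u ≤ v) :
    fser Q (S i) (sh f m₁) * (((v : ℝ) - u) * fw (S i) f v) ≤ cP Q S f m₁ i v - cP Q S f m₁ i u ∧
      cP Q S f m₁ i v - cP Q S f m₁ i u ≤ fser Q (S i) (sh f m₁) * (((v : ℝ) - u) * fw (S i) f u) := by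
  have e1 : cP Q S f m₁ i v - cP Q S f m₁ i u = fser Q (S i) (sh f m₁) * ∑ y ∈ Ico u v, fw (S i) f y := by
    unfold cP
    rw [← mul_sub, ← sum_Ico_eq_sub _ huv]
  have e2 : ((Ico u v).card : ℝ) = (v : ℝ) - u := by
    rw [Nat.card_Ico, Nat.cast_sub huv]
  rw [e1]
  constructor
  · refine mul_le_mul_of_nonneg_left ?_ (fser_nn _ _ _)
    have h1 := card_nsmul_le_sum (Ico u v) (fun y => fw (S i) f y) (fw (S i) f v) (fun y hy => by
      rw [mem_Ico] at hy
      exact h.fw_anti i (by omega) hy.2.le)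
    rwa [nsmul_eq_mul, e2] at h1
  · refine mul_le_mul_of_nonneg_left ?_ (fser_nn _ _ _)
    have h1 := sum_le_card_nsmul (Ico u v) (fun y => fw (S i) f y) (fw (S i) f u) (fun y hy => by
      rw [mem_Ico] at hy
      exact h.fw_anti i (by omega) hy.1)
    rwa [nsmul_eq_mul, e2] at h1

/-- The predicted number of a part of a window. -/
theorem Sys.part (h : Sys Q S f m₁) (i : Fin r) {a b x k : ℕ} (ha : m₁ + 3 ≤ a) (hax : a ≤ x) (hk : 1 ≤ k) (hxb : x + k ≤ b) :
    0 < cP Q S f m₁ i (x + k) - cP Q S f m₁ i x ∧ 0 < cP Q S f m₁ i b - cP Q S f m₁ i a ∧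
    (fw (S i) f a / fw (S i) f b)⁻¹ ≤ (k : ℝ) / ((b : ℝ) - a) * (cP Q S f m₁ i b - cP Q S f m₁ i a) /
      (cP Q S f m₁ i (x + k) - cP Q S f m₁ i x) ∧
    (k : ℝ) / ((b : ℝ) - a) * (cP Q S f m₁ i b - cP Q S f m₁ i a) /
      (cP Q S f m₁ i (x + k) - cP Q S f m₁ i x) ≤ fw (S i) f a / fw (S i) f b := by
  obtain ⟨s1, s2⟩ := h.cP_bd i (u := x) (v := x + k) (by omega) (by omega)
  obtain ⟨s3, s4⟩ := h.cP_bd i (u := a) (v := b) ha (by omega)
  have hk0 : (1 : ℝ) ≤ k := by exact_mod_cast hk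
  have e1 : ((x + k : ℕ) : ℝ) - x = k := by push_cast; ring
  rw [e1] at s1 s2
  have hb : (0 : ℝ) < (b : ℝ) - a := by
    have : (a : ℝ) < b := by exact_mod_cast (show a < b by omega)
    linarith
  have w1 := h.fw_pos i (y := b) (by omega)
  have w2 := h.fw_pos i (y := a) ha
  have w3 := h.fw_pos i (y := x) (by omega)
  have w4 := h.fw_pos i (y := x + k) (by omega)
  have w5 := h.fw_anti i (y := a) (z := x) ha hax
  have w6 := h.fw_anti i (y := x + k) (z := b) (by omega) hxb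
  have hS := h.sing i
  have p1 : 0 < cP Q S f m₁ i (x + k) - cP Q S f m₁ i x := lt_of_lt_of_le (by positivity) s1
  have p2 : 0 < cP Q S f m₁ i b - cP Q S f m₁ i a := lt_of_lt_of_le (by positivity) s3
  refine ⟨p1, p2, ?_, ?_⟩
  · rw [inv_div, div_le_div_iff₀ w2 p1]
    calc fw (S i) f b * (cP Q S f m₁ i (x + k) - cP Q S f m₁ i x)
        ≤ fw (S i) f b * (fser Q (S i) (sh f m₁) * (k * fw (S i) f x)) := mul_le_mul_of_nonneg_left s2 w1.le
      _ ≤ fw (S i) f b * (fser Q (S i) (sh f m₁) * (k * fw (S i) f a)) := by gcongr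
      _ = (k : ℝ) / ((b : ℝ) - a) * (fser Q (S i) (sh f m₁) * (((b : ℝ) - a) * fw (S i) f b)) * fw (S i) f a := by
          field_simp
      _ ≤ (k : ℝ) / ((b : ℝ) - a) * (cP Q S f m₁ i b - cP Q S f m₁ i a) * fw (S i) f a := by gcongr
  · rw [div_le_div_iff₀ p1 w1]
    calc (k : ℝ) / ((b : ℝ) - a) * (cP Q S f m₁ i b - cP Q S f m₁ i a) * fw (S i) f b
        ≤ (k : ℝ) / ((b : ℝ) - a) * (fser Q (S i) (sh f m₁) * (((b : ℝ) - a) * fw (S i) f a)) * fw (S i) f b := by gcongr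
      _ = fw (S i) f a * (fser Q (S i) (sh f m₁) * (k * fw (S i) f b)) := by field_simp
      _ ≤ fw (S i) f a * (fser Q (S i) (sh f m₁) * (k * fw (S i) f (x + k))) := by gcongr
      _ ≤ fw (S i) f a * (cP Q S f m₁ i (x + k) - cP Q S f m₁ i x) := mul_le_mul_of_nonneg_left s1 w2.le

/-- The path of a part of a window. -/
theorem sub_path {D P : Fin r → ℕ → ℝ} {a b x k : ℕ} {L L' : ℝ} (i : Fin r) (hax : a ≤ x) (hk : 1 ≤ k) (hxb : x + k ≤ b)
    (hP : 0 < P i b - P i a) (hP' : 0 < P i (x + k) - P i x) (hL : 0 < L) (hL' : 0 < L') {t : ℝ} (ht : 0 ≤ t)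
    {u v : ℝ} (hu : u = ((x : ℝ) - a) / ((b : ℝ) - a)) (hv : v - u = (k : ℝ) / ((b : ℝ) - a)) :
    Wp D P x (x + k) L' i t = √((k : ℝ) / ((b : ℝ) - a) * (P i b - P i a) / (P i (x + k) - P i x) * (L / L')) *
      ((Wp D P a b L i (u + (v - u) * t) - Wp D P a b L i u) / √(v - u)) := by
  have hb : (0 : ℝ) < (b : ℝ) - a := by
    have : (a : ℝ) < b := by exact_mod_cast (show a < b by omega)
    linarith
  have hk0 : (0 : ℝ) < k := by exact_mod_cast (show 0 < k by omega)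
  have hxa : (a : ℝ) ≤ x := by exact_mod_cast hax
  have e1 : pt a b u = x := by
    unfold pt
    rw [hu, div_mul_cancel₀ _ hb.ne', ← Nat.cast_sub hax, Nat.floor_natCast]
    omega
  have e2 : pt a b (u + (v - u) * t) = pt x (x + k) t := by
    unfold pt
    have e3 : (u + (v - u) * t) * ((b : ℝ) - a) = ((x - a : ℕ) : ℝ) + t * (((x + k : ℕ) : ℝ) - x) := by
      rw [hv, hu, Nat.cast_sub hax]
      push_cast
      field_simp
      ring
    rw [e3, add_comm ((x - a : ℕ) : ℝ), Nat.floor_add_natCast (by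
      have : (0 : ℝ) ≤ ((x + k : ℕ) : ℝ) - x := by push_cast; linarith
      positivity)]
    omega
  unfold Wp
  rw [e1, e2, hv]
  have s1 : √(2 * (P i b - P i a) * L) ≠ 0 := (Real.sqrt_pos.2 (by positivity)).ne'
  have s2 : √(2 * (P i (x + k) - P i x) * L') ≠ 0 := (Real.sqrt_pos.2 (by positivity)).ne'
  have s3 : √((k : ℝ) / ((b : ℝ) - a)) ≠ 0 := (Real.sqrt_pos.2 (by positivity)).ne'
  have e4 : √((k : ℝ) / ((b : ℝ) - a) * (P i b - P i a) / (P i (x + k) - P i x) * (L / L')) * √(2 * (P i (x + k) - P i x) * L') =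
      √(2 * (P i b - P i a) * L) * √((k : ℝ) / ((b : ℝ) - a)) := by
    rw [← Real.sqrt_mul (by positivity), ← Real.sqrt_mul (by positivity)]
    congr 1
    field_simp
  rw [← sub_div, show D i (pt x (x + k) t) - D i a - (D i x - D i a) = D i (pt x (x + k) t) - D i x by ring, div_div,
    mul_div_assoc', div_eq_div_iff s2 (mul_ne_zero s1 s3), ← e4]
  ring

end Pool.Agent.Q106.ST
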