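import Pool.Agent.Q106.ST.Geo
import Pool.Agent.Q106.GMM.Poly

/-!
# Strassen's law for the simultaneous values of polynomials
-/

set_option autoImplicit false

namespace Pool.Agent.Q106.ST

open Finset MeasureTheory ProbabilityTheory Filter Polynomial
open scoped Topology
open Pool.Agent.Q120.GM (IsModel level)
open Pool.Agent.Q106.UV (fN fex fser fw ft FD fcop)
open Pool.Agent.Q106.GMM (val)

/-- The singular series of level `Q` of the system `F`: `(Q / φ(Q))^|F|` times the proportion of the residues `m` modulo `Q`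
such that all values `f(m)`, `f ∈ F`, are coprime to `Q`. -/
noncomputable def series (Q : ℕ) (F : Finset ℤ[X]) : ℝ :=
  open Classical in
  (((range Q).filter (fun m : ℕ => ∀ f ∈ F, IsCoprime (f.eval (m : ℤ)) (Q : ℤ))).card : ℝ) / Q *
    ((Q : ℝ) / Nat.totient Q) ^ F.card

/-- A system of polynomials. -/
def PSys (F : Finset ℤ[X]) : Prop := F.Nonempty ∧ ∀ f ∈ F, 1 ≤ f.natDegree ∧ 0 < f.leadingCoeff

/-- Different systems have different sets of values, at all large arguments. -/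
def Apart (F G : Finset ℤ[X]) : Prop :=
  ∃ m₀ : ℕ, ∀ m m' : ℕ, m₀ ≤ m → m₀ ≤ m' → F.image (fun f => f.eval (m : ℤ)) ≠ G.image (fun f => f.eval (m' : ℤ))

theorem val_step {g : ℤ[X]} (hd : 1 ≤ g.natDegree) (hf : 0 < g.leadingCoeff) : ∀ᶠ m : ℕ in atTop, val g m < val g (m + 1) := by
  rcases hd.eq_or_lt with h1 | h1
  · obtain ⟨a, b, hab⟩ := Polynomial.exists_eq_X_add_C_of_natDegree_le_one (le_of_eq h1.symm)
    have ha : 0 < a := by
      have h2 : g.leadingCoeff = a := by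
        unfold Polynomial.leadingCoeff
        rw [← h1, hab, coeff_add, coeff_C_mul, coeff_X_one, coeff_C, if_neg one_ne_zero]
        ring
      rwa [h2] at hf
    filter_upwards [GMM.val_cast hd hf, (tendsto_add_atTop_nat 1).eventually (GMM.val_cast (f := g) hd hf)] with m h2 h3
    have h4 : g.eval ((m + 1 : ℕ) : ℤ) = g.eval (m : ℤ) + a := by
      rw [hab]
      simp
      ring
    have h5 : ((val g m : ℕ) : ℤ) < ((val g (m + 1) : ℕ) : ℤ) := by
      rw [h2, h3, h4]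
      linarith
    exact_mod_cast h5
  · have := GMM.val_inc (by omega) hf 0
    simpa only [add_zero] using this

theorem eval_modEq {g : ℤ[X]} {Q u v : ℕ} (h : (Q : ℤ) ∣ (u : ℤ) - v) (hu : ((val g u : ℕ) : ℤ) = g.eval (u : ℤ))
    (hv : ((val g v : ℕ) : ℤ) = g.eval (v : ℤ)) : val g u ≡ val g v [MOD Q] := by
  rw [← Int.natCast_modEq_iff, hu, hv]
  have h1 := Polynomial.sub_dvd_eval_sub (u : ℤ) (v : ℤ) g
  exact (Int.modEq_iff_dvd.2 (h.trans h1)).symm

theorem cop_shift {g : ℤ[X]} {Q u v : ℕ} (h : (Q : ℤ) ∣ (u : ℤ) - v) :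
    IsCoprime (g.eval (u : ℤ)) (Q : ℤ) ↔ IsCoprime (g.eval (v : ℤ)) (Q : ℤ) := by
  obtain ⟨t, ht⟩ := h.trans (Polynomial.sub_dvd_eval_sub (u : ℤ) (v : ℤ) g)
  have h1 : g.eval (u : ℤ) = g.eval (v : ℤ) + Q * t := by linarith
  rw [h1]
  constructor
  · intro h2
    exact (IsCoprime.add_mul_left_left_iff (y := (Q : ℤ))).1 h2
  · intro h2
    exact (IsCoprime.add_mul_left_left_iff (y := (Q : ℤ))).2 h2

variable {Q r : ℕ} {F : Fin r → Finset ℤ[X]}

/-- **The systems of polynomials.** -/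
theorem exists_sys (hQ : 1 ≤ Q) (h1 : ∀ i, PSys (F i)) (h2 : ∀ i, 0 < series Q (F i)) (h3 : ∀ i j, i ≠ j → Apart (F i) (F j)) :
    ∃ m₁, Sys Q F val m₁ ∧ ∀ i, fser Q (F i) (sh val m₁) = series Q (F i) := by
  have hdis : ∀ g g' : ℤ[X], g ≠ g' → ∀ᶠ m : ℕ in atTop, g.eval (m : ℤ) ≠ g'.eval (m : ℤ) := by
    intro g g' hg
    have h4 : {x : ℤ | (g - g').IsRoot x}.Finite := Polynomial.finite_setOf_isRoot (sub_ne_zero.2 hg)
    have h5 : {m : ℕ | g.eval (m : ℤ) = g'.eval (m : ℤ)}.Finite := by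
      refine Set.Finite.subset (h4.preimage (Nat.cast_injective.injOn)) (fun m hm => ?_)
      simp only [Set.mem_preimage, Set.mem_setOf_eq, Polynomial.IsRoot, Polynomial.eval_sub] at hm ⊢
      exact sub_eq_zero.2 hm
    have h6 := h5.eventually_cofinite_notMem
    rw [Nat.cofinite_eq_atTop] at h6
    exact h6
  have hE : ∀ᶠ m : ℕ in atTop, (∀ i, ∀ g ∈ F i, (val g m < val g (m + 1)) ∧ ((val g m : ℕ) : ℤ) = g.eval (m : ℤ)) ∧
      ∀ i, ∀ g ∈ F i, ∀ g' ∈ F i, g ≠ g' → g.eval (m : ℤ) ≠ g'.eval (m : ℤ) := by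
    refine Filter.Eventually.and ?_ ?_
    · refine eventually_all.2 (fun i => (eventually_all_finset (F i)).2 (fun g hg => ?_))
      exact (val_step ((h1 i).2 g hg).1 ((h1 i).2 g hg).2).and (GMM.val_cast ((h1 i).2 g hg).1 ((h1 i).2 g hg).2)
    · refine eventually_all.2 (fun i => (eventually_all_finset (F i)).2 (fun g hg =>
        (eventually_all_finset (F i)).2 (fun g' hg' => ?_)))
      by_cases hgg : g = g'
      · filter_upwards with m hm
        exact absurd hgg hm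
      · filter_upwards [hdis g g' hgg] with m hm _
        exact hm
  obtain ⟨m₂, hm₂⟩ := eventually_atTop.1 hE
  choose! m₀ hm₀ using h3
  obtain ⟨m₁, hm₁⟩ : ∃ m₁, m₁ = Q * (m₂ + ∑ i, ∑ j, m₀ i j) := ⟨_, rfl⟩
  have hbig : m₂ + ∑ i, ∑ j, m₀ i j ≤ m₁ := by
    rw [hm₁]
    exact Nat.le_mul_of_pos_left _ hQ
  have hm₂₁ : m₂ ≤ m₁ := by omega
  have hm₀₁ : ∀ i j, m₀ i j ≤ m₁ := by
    intro i j
    have e1 : m₀ i j ≤ ∑ j, m₀ i j := single_le_sum (f := fun j => m₀ i j) (fun _ _ => Nat.zero_le _) (mem_univ j)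
    have e2 : ∑ j, m₀ i j ≤ ∑ i, ∑ j, m₀ i j := single_le_sum (f := fun i => ∑ j, m₀ i j) (fun _ _ => Nat.zero_le _) (mem_univ i)
    omega
  have hv : ∀ i, ∀ g ∈ F i, ∀ m, ((val g (m + m₁) : ℕ) : ℤ) = g.eval ((m + m₁ : ℕ) : ℤ) :=
    fun i g hg m => ((hm₂ (m + m₁) (by omega)).1 i g hg).2
  have hdvd : ∀ m : ℕ, (Q : ℤ) ∣ ((m + m₁ : ℕ) : ℤ) - m := by
    intro m
    rw [hm₁]
    push_cast
    exact ⟨(m₂ : ℤ) + ∑ i, ∑ j, (m₀ i j : ℤ), by ring⟩
  have hser : ∀ i, fser Q (F i) (sh val m₁) = series Q (F i) := by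
    classical
    intro i
    unfold fser series UV.fcnt
    congr 3
    have e1 : (range Q).filter (fcop Q (F i) (sh val m₁)) =
        (range Q).filter (fun m : ℕ => ∀ f ∈ F i, IsCoprime (f.eval (m : ℤ)) (Q : ℤ)) := by
      refine filter_congr (fun m _ => ?_)
      unfold fcop sh
      refine forall₂_congr (fun g hg => ?_)
      rw [← cop_shift (hdvd m), ← hv i g hg m, Nat.isCoprime_iff_coprime]
    rw [e1]
  refine ⟨m₁, ⟨fun i => (h1 i).1, ?_, ?_, ?_, ?_, ?_, ?_⟩, hser⟩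
  · intro i g hg
    refine strictMono_nat_of_lt_succ (fun m => ?_)
    have := ((hm₂ (m + m₁) (by omega)).1 i g hg).1
    unfold sh
    rwa [show m + 1 + m₁ = m + m₁ + 1 by ring]
  · intro i g hg m
    unfold sh
    refine eval_modEq ?_ (hv i g hg (m + Q)) (hv i g hg m)
    push_cast
    exact ⟨1, by ring⟩
  · intro i m g hg g' hg' h4
    by_contra hcon
    have h5 := (hm₂ (m + m₁) (by omega)).2 i g hg g' hg' hcon
    simp only [sh] at h4
    rw [← hv i g hg, ← hv i g' hg', h4] at h5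
    exact h5 rfl
  · intro i g hg
    refine ⟨g.natDegree, by exact_mod_cast ((h1 i).2 g hg).1, ?_⟩
    have := GMM.val_log ((h1 i).2 g hg).1 ((h1 i).2 g hg).2 0
    simpa only [add_zero] using this
  · intro i
    rw [hser]
    exact h2 i
  · intro i j hij m m' h4
    refine hm₀ i j hij (m + m₁) (m' + m₁) (by have := hm₀₁ i j; omega) (by have := hm₀₁ i j; omega) ?_
    have h5 : ∀ i m, (F i).image (fun f => f.eval ((m + m₁ : ℕ) : ℤ)) = (ft (F i) (sh val m₁) m).image (Nat.cast : ℕ → ℤ) := by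
      intro i m
      unfold ft
      rw [image_image]
      refine image_congr (fun g hg => ?_)
      simp only [Function.comp_apply, sh]
      exact (hv i g hg m).symm
    rw [h5, h5, h4]

/-- The number of the `m < x` such that all values `f(m)`, `f ∈ F`, are elements of `A`. -/
noncomputable def count (A : Set ℕ) (F : Finset ℤ[X]) (x : ℕ) : ℝ :=
  ({m : ℕ | m < x ∧ ∀ f ∈ F, val f m ∈ A}.ncard : ℝ)

/-- The predicted number. -/
noncomputable def predicted (Q : ℕ) (F : Finset ℤ[X]) (x : ℕ) : ℝ :=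
  series Q F * ∑ m ∈ range x, ∏ f ∈ F, (Real.log (val f m : ℝ))⁻¹

/-- The path at the scale `x`. -/
noncomputable def path (A : Set ℕ) (Q : ℕ) (F : Finset ℤ[X]) (x : ℕ) (t : ℝ) : ℝ :=
  (count A F ⌊t * x⌋₊ - predicted Q F ⌊t * x⌋₊) / Real.sqrt (2 * predicted Q F x * Real.log (Real.log x))

/-- **Strassen's law for systems of polynomials.** -/
theorem poly_strassen {Ω : Type*} [MeasurableSpace Ω] {μ : Measure Ω} [IsProbabilityMeasure μ] {A : Ω → Set ℕ}
    (hQ : 1 ≤ Q) (hA : IsModel μ (level Q) A) (h1 : ∀ i, PSys (F i)) (h2 : ∀ i, 0 < series Q (F i))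
    (h3 : ∀ i j, i ≠ j → Apart (F i) (F j)) : ∀ᵐ ω ∂μ,
      (∀ ε > 0, ∀ᶠ x in atTop, ∃ φ e, e ≤ 1 ∧ FL.Energy φ e ∧ FL.Near ε (fun i t => path (A ω) Q (F i) x t) φ) ∧
      ∀ φ e, e ≤ 1 → FL.Energy φ e → ∀ ε > 0, ∃ᶠ x in atTop, FL.Near ε (fun i t => path (A ω) Q (F i) x t) φ := by
  obtain ⟨m₁, hS, hser⟩ := exists_sys hQ h1 h2 h3
  filter_upwards [hS.nst hQ hA] with ω hω
  have hP : ∀ i y, cP Q F val m₁ i y = predicted Q (F i) y := by
    intro i y
    unfold cP predicted fw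
    rw [hser i]
  have hC : ∀ i y, fN (A ω) (F i) val 0 y = count (A ω) (F i) y := by
    intro i y
    unfold fN count
    simp only [zero_le, true_and]
  have hZ : ∀ x, Z (cD (A ω) Q F val m₁) (cP Q F val m₁) x = fun i t => path (A ω) Q (F i) x t := by
    intro x
    funext i t
    unfold Z path cD
    rw [hP, hP, hC]
  refine ⟨fun ε hε => ?_, fun φ e he hφ ε hε => ?_⟩
  · have := hω.law_upper hε
    simpa only [hZ] using this
  · have := hω.law_lower he hφ hε
    simpa only [hZ] using this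

end Pool.Agent.Q106.ST
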