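import Pool.Agent.Q106.ST.Up
import Pool.Agent.Q106.ST.Pol

/-!
# The functional law of the increments for systems of polynomials
-/

set_option autoImplicit false

namespace Pool.Agent.Q106.ST

open Finset MeasureTheory ProbabilityTheory Filter Polynomial
open scoped Topology
open Pool.Agent.Q120.GM (IsModel level)
open Pool.Agent.Q106.UV (fN fex fser fw ft FD)
open Pool.Agent.Q106.GMM (val)
open Pool.Agent.Q106.FL (Energy Near pt FLaw)

section

variable {σ : Type*} {Q r : ℕ} {S : Fin r → Finset σ} {f : σ → ℕ → ℕ} {m₁ : ℕ}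

/-- **The law of the increments.** -/
theorem Sys.increments {Ω : Type*} [MeasurableSpace Ω] {μ : Measure Ω} [IsProbabilityMeasure μ] {A : Ω → Set ℕ}
    (h : Sys Q S f m₁) (hQ : 1 ≤ Q) (hA : IsModel μ (level Q) A) {θ : ℝ} (h0 : 0 < θ) (h1 : θ < 1) : ∀ᵐ ω ∂μ,
      (∀ ε > 0, ∀ᶠ x : ℕ in atTop, ∃ φ e, e ≤ 1 ∧ Energy φ e ∧
        Near ε (fun i t => Wp (cD (A ω) Q S f m₁) (cP Q S f m₁) x (x + hh θ x) ((1 - θ) * Real.log x) i t) φ) ∧
      FLaw (fun n i t => Wp (cD (A ω) Q S f m₁) (cP Q S f m₁) (kc (1 / (1 - θ)) n)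
        (kc (1 / (1 - θ)) n + hh θ (kc (1 / (1 - θ)) n)) ((1 - θ) * Real.log (kc (1 / (1 - θ)) n)) i t) := by
  have h2 : 0 < 1 - θ := by linarith
  have hc : 1 < 1 / (1 - θ) := by
    rw [lt_div_iff₀ h2]
    linarith
  filter_upwards [h.winG hQ hA (wins_pow hc 0), h.winG hQ hA (wins_pow hc 1), h.winG hQ hA (wins_short h0 h1)]
    with ω hω0 hω1 hω2
  constructor
  · intro ε hε
    refine h.inc_upper h0 h1 (fun s hs => ?_) hε
    interval_cases s
    · exact hω0.1
    · exact hω1.1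
  · obtain ⟨c, hcd⟩ : ∃ c, c = 1 / (1 - θ) := ⟨_, rfl⟩
    rw [← hcd] at hc hω2 ⊢
    have hc1 : (1 - θ) * c = 1 := by
      rw [hcd]
      field_simp
    -- the logarithms
    have hlog : Tendsto (fun n : ℕ => Real.log n / ((1 - θ) * Real.log (kc c n))) atTop (𝓝 1) := by
      have g1 : Tendsto (fun n : ℕ => 1 + (1 - θ) * Real.log 2 / ((1 - θ) * Real.log (kc c n))) atTop (𝓝 (1 + 0)) :=
        tendsto_const_nhds.add (((lg_top.comp (kc_top hc.le)).const_mul_atTop h2).const_div_atTop _)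
      rw [add_zero] at g1
      refine tendsto_of_tendsto_of_tendsto_of_le_of_le' tendsto_const_nhds g1 ?_ ?_
      · filter_upwards [eventually_ge_atTop 2] with n hn
        have hn0 : (0 : ℝ) < n := by exact_mod_cast (show 0 < n by omega)
        have e1 := kc_ge hc.le (show 1 ≤ n by omega)
        have e2 : 0 < Real.log (kc c n) := Real.log_pos (by exact_mod_cast (show 1 < kc c n by omega))
        rw [le_div_iff₀ (mul_pos h2 e2), one_mul]
        have e3 : Real.log (kc c n) ≤ c * Real.log n := by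
          rw [← Real.log_rpow hn0]
          exact Real.log_le_log (by exact_mod_cast (show 0 < kc c n by omega)) kc_le
        calc (1 - θ) * Real.log (kc c n) ≤ (1 - θ) * (c * Real.log n) := mul_le_mul_of_nonneg_left e3 h2.le
          _ = ((1 - θ) * c) * Real.log n := by ring
          _ = Real.log n := by rw [hc1, one_mul]
      · filter_upwards [eventually_ge_atTop 2] with n hn
        have hn0 : (0 : ℝ) < n := by exact_mod_cast (show 0 < n by omega)
        have e1 := kc_ge hc.le (show 1 ≤ n by omega)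
        have e2 : 0 < Real.log (kc c n) := Real.log_pos (by exact_mod_cast (show 1 < kc c n by omega))
        have e4 := mul_pos h2 e2
        rw [div_le_iff₀ e4, add_mul, one_mul, div_mul_cancel₀ _ e4.ne']
        have e3 : c * Real.log n ≤ Real.log 2 + Real.log (kc c n) := by
          rw [← Real.log_rpow hn0, ← Real.log_mul (by norm_num) (by
            have : (0 : ℝ) < kc c n := by exact_mod_cast (show 0 < kc c n by omega)
            exact this.ne')]
          refine Real.log_le_log (by positivity) ?_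
          have := kc_half hc.le (show 1 ≤ n by omega)
          linarith
        calc Real.log n = ((1 - θ) * c) * Real.log n := by rw [hc1, one_mul]
          _ = (1 - θ) * (c * Real.log n) := by ring
          _ ≤ (1 - θ) * (Real.log 2 + Real.log (kc c n)) := mul_le_mul_of_nonneg_left e3 h2.le
          _ = (1 - θ) * Real.log (kc c n) + (1 - θ) * Real.log 2 := by ring
    have hρ := hlog.sqrt
    rw [Real.sqrt_one] at hρ
    have hfin := flaw_mul hω2 (ρ := fun n _ => √(Real.log n / ((1 - θ) * Real.log (kc c n)))) (fun _ => hρ)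
    refine flaw_near hfin (fun ε hε => ?_)
    filter_upwards [eventually_ge_atTop 2, (kc_top hc.le).eventually_ge_atTop (m₁ + 3)] with n hn hn3 i t _ _
    have e1 := kc_ge hc.le (show 1 ≤ n by omega)
    have e2 : 0 < Real.log (kc c n) := Real.log_pos (by exact_mod_cast (show 1 < kc c n by omega))
    have e3 : 0 < Real.log n := Real.log_pos (by exact_mod_cast (show 1 < n by omega))
    obtain ⟨p1, _, _, _⟩ := h.part i hn3 le_rfl (hh_one h0.le (show 1 ≤ kc c n by omega)) le_rfl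
    have key : Wp (cD (A ω) Q S f m₁) (cP Q S f m₁) (kc c n) (kc c n + hh θ (kc c n)) ((1 - θ) * Real.log (kc c n)) i t =
        √(Real.log n / ((1 - θ) * Real.log (kc c n))) *
          Wp (cD (A ω) Q S f m₁) (cP Q S f m₁) (kc c n) (kc c n + hh θ (kc c n)) (Real.log n) i t := by
      unfold Wp
      have e4 := mul_pos h2 e2
      have s1 : √(2 * (cP Q S f m₁ i (kc c n + hh θ (kc c n)) - cP Q S f m₁ i (kc c n)) * ((1 - θ) * Real.log (kc c n))) ≠ 0 :=
        (Real.sqrt_pos.2 (by positivity)).ne'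
      have s2 : √(2 * (cP Q S f m₁ i (kc c n + hh θ (kc c n)) - cP Q S f m₁ i (kc c n)) * Real.log n) ≠ 0 :=
        (Real.sqrt_pos.2 (by positivity)).ne'
      have e5 : √(Real.log n / ((1 - θ) * Real.log (kc c n))) *
          √(2 * (cP Q S f m₁ i (kc c n + hh θ (kc c n)) - cP Q S f m₁ i (kc c n)) * ((1 - θ) * Real.log (kc c n))) =
          √(2 * (cP Q S f m₁ i (kc c n + hh θ (kc c n)) - cP Q S f m₁ i (kc c n)) * Real.log n) := by
        rw [← Real.sqrt_mul (by positivity)]
        congr 1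
        field_simp
      rw [mul_div_assoc', div_eq_div_iff s1 s2, ← e5]
      ring
    simp only
    rw [key, sub_self, abs_zero]
    exact hε.le

/-- The weights decrease slowly. -/
theorem Sys.fw_slow (h : Sys Q S f m₁) (i : Fin r) {η : ℝ} (hη : 0 < η) :
    Tendsto (fun y : ℕ => fw (S i) f y * (y : ℝ) ^ η) atTop atTop := by
  have h1 : ∃ L > 0, Tendsto (fun m : ℕ => fw (S i) f m * Real.log m ^ (S i).card) atTop (𝓝 L) := by
    choose! d hd0 hd using h.lim i
    refine ⟨∏ s ∈ S i, (d s)⁻¹, prod_pos (fun s hs => inv_pos.2 (hd0 s hs)), ?_⟩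
    have h2 := tendsto_finsetProd (S i) (fun s hs => (hd s hs).inv₀ (hd0 s hs).ne')
    refine h2.congr (fun m => ?_)
    unfold fw
    rw [← prod_const, ← prod_mul_distrib]
    refine prod_congr rfl (fun s _ => ?_)
    rw [inv_div, div_eq_inv_mul]
  obtain ⟨L, hL, h2⟩ := h1
  have h3 : Tendsto (fun y : ℕ => (y : ℝ) ^ η / Real.log y ^ (S i).card) atTop atTop := by
    have h4 : Tendsto (fun x : ℝ => Real.log x ^ ((S i).card : ℝ) / x ^ η) atTop (𝓝 0) :=
      (isLittleO_log_rpow_rpow_atTop ((S i).card : ℝ) hη).tendsto_div_nhds_zero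
    have h5 : Tendsto (fun y : ℕ => Real.log y ^ (S i).card / (y : ℝ) ^ η) atTop (𝓝[>] 0) := by
      rw [tendsto_nhdsWithin_iff]
      refine ⟨?_, ?_⟩
      · refine (h4.comp tendsto_natCast_atTop_atTop).congr (fun y => ?_)
        simp only [Function.comp_apply, Real.rpow_natCast]
      · filter_upwards [lg_top.eventually_gt_atTop 0, eventually_ge_atTop 1] with y g1 g2
        have : (0 : ℝ) < y := by exact_mod_cast g2
        exact Set.mem_Ioi.2 (by positivity)
    refine h5.inv_tendsto_nhdsGT_zero.congr (fun y => ?_)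
    simp only [Pi.inv_apply, inv_div]
  refine (h2.pos_mul_atTop hL h3).congr' ?_
  filter_upwards [lg_top.eventually_gt_atTop 0] with y g1
  field_simp

/-- The growth of the predicted numbers of short windows. -/
theorem Sys.short_growth (h : Sys Q S f m₁) (i : Fin r) {θ : ℝ} (h0 : 0 < θ) (h1 : θ < 1) :
    Tendsto (fun x : ℕ => Real.log x / (cP Q S f m₁ i (x + hh θ x) - cP Q S f m₁ i x)) atTop (𝓝 0) := by
  have hS := h.sing i
  have h2 : Tendsto (fun x : ℕ => 2 / fser Q (S i) (sh f m₁) * (Real.log x / (x : ℝ) ^ (θ / 2))) atTop (𝓝 0) := by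
    have h3 := (isLittleO_log_rpow_atTop (show 0 < θ / 2 by positivity)).tendsto_div_nhds_zero.comp
      (tendsto_natCast_atTop_atTop (R := ℝ))
    have h4 := h3.const_mul (2 / fser Q (S i) (sh f m₁))
    rw [mul_zero] at h4
    exact h4
  have hx : Tendsto (fun x : ℕ => x + hh θ x) atTop atTop := tendsto_atTop_mono (fun x => Nat.le_add_right x _) tendsto_id
  refine squeeze_zero' ?_ ?_ h2
  · filter_upwards [eventually_ge_atTop (m₁ + 3)] with x g1
    exact div_nonneg (Real.log_natCast_nonneg x) (sub_nonneg.2 (cP_mono Q S f m₁ i (Nat.le_add_right _ _)))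
  · filter_upwards [hx.eventually ((h.fw_slow i (show 0 < θ / 4 by positivity)).eventually_ge_atTop 1),
      eventually_ge_atTop (m₁ + 3)] with x g1 g2
    have hx1 : (1 : ℝ) ≤ x := by exact_mod_cast (show 1 ≤ x by omega)
    have hx2 : (2 : ℝ) ≤ x := by exact_mod_cast (show 2 ≤ x by omega)
    obtain ⟨s1, _⟩ := h.cP_bd i (u := x) (v := x + hh θ x) (by omega) (by omega)
    have e1 : ((x + hh θ x : ℕ) : ℝ) - x = hh θ x := by push_cast; ring
    rw [e1] at s1
    have e2 := hh_half h0.le (show 1 ≤ x by omega)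
    have e3 : ((x + hh θ x : ℕ) : ℝ) ≤ (x : ℝ) ^ (2 : ℝ) := by
      have := hh_le_self h1.le (show 1 ≤ x by omega)
      have e4 : ((x + hh θ x : ℕ) : ℝ) ≤ 2 * x := by
        have : x + hh θ x ≤ 2 * x := by omega
        exact_mod_cast this
      rw [Real.rpow_two]
      nlinarith
    have e4 : ((x + hh θ x : ℕ) : ℝ) ^ (θ / 4) ≤ (x : ℝ) ^ (θ / 2) := by
      refine (Real.rpow_le_rpow (Nat.cast_nonneg _) e3 (by positivity)).trans (le_of_eq ?_)
      rw [← Real.rpow_mul (by linarith)]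
      congr 1
      ring
    have w1 := h.fw_pos i (y := x + hh θ x) (by omega)
    have e5 : 1 ≤ fw (S i) f (x + hh θ x) * (x : ℝ) ^ (θ / 2) := g1.trans (mul_le_mul_of_nonneg_left e4 w1.le)
    have e6 : (x : ℝ) ^ θ = (x : ℝ) ^ (θ / 2) * (x : ℝ) ^ (θ / 2) := by
      rw [← Real.rpow_add (by linarith), add_halves]
    have e7 : (0 : ℝ) < (x : ℝ) ^ (θ / 2) := by positivity
    have e8 : (x : ℝ) ^ (θ / 2) / 2 ≤ hh θ x * fw (S i) f (x + hh θ x) := by
      calc (x : ℝ) ^ (θ / 2) / 2 ≤ (x : ℝ) ^ (θ / 2) / 2 * (fw (S i) f (x + hh θ x) * (x : ℝ) ^ (θ / 2)) := by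
            refine le_mul_of_one_le_right (by positivity) e5
        _ = (x : ℝ) ^ θ / 2 * fw (S i) f (x + hh θ x) := by rw [e6]; ring
        _ ≤ hh θ x * fw (S i) f (x + hh θ x) := mul_le_mul_of_nonneg_right e2 w1.le
    have e9 : fser Q (S i) (sh f m₁) * ((x : ℝ) ^ (θ / 2) / 2) ≤ cP Q S f m₁ i (x + hh θ x) - cP Q S f m₁ i x :=
      (mul_le_mul_of_nonneg_left e8 hS.le).trans s1
    have e10 : 2 / fser Q (S i) (sh f m₁) * (Real.log x / (x : ℝ) ^ (θ / 2)) =
        Real.log x / (fser Q (S i) (sh f m₁) * ((x : ℝ) ^ (θ / 2) / 2)) := by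
      field_simp
    rw [e10]
    exact div_le_div_of_nonneg_left (Real.log_natCast_nonneg x) (by positivity) e9

end

variable {Q r : ℕ} {F : Fin r → Finset ℤ[X]}

/-- The normed error in the part `[x, x + t ⌊x^θ⌋)` of the window `[x, x + ⌊x^θ⌋)`. -/
noncomputable def incr (A : Set ℕ) (Q : ℕ) (F : Finset ℤ[X]) (θ : ℝ) (x : ℕ) (t : ℝ) : ℝ :=
  ((count A F (x + ⌊t * ⌊(x : ℝ) ^ θ⌋₊⌋₊) - count A F x) - (predicted Q F (x + ⌊t * ⌊(x : ℝ) ^ θ⌋₊⌋₊) - predicted Q F x)) /
    √(2 * (1 - θ) * (predicted Q F (x + ⌊(x : ℝ) ^ θ⌋₊) - predicted Q F x) * Real.log x)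

/-- **The functional law of the increments for systems of polynomials.** -/
theorem poly_incr {Ω : Type*} [MeasurableSpace Ω] {μ : Measure Ω} [IsProbabilityMeasure μ] {A : Ω → Set ℕ}
    (hQ : 1 ≤ Q) (hA : IsModel μ (level Q) A) (h1 : ∀ i, PSys (F i)) (h2 : ∀ i, 0 < series Q (F i))
    (h3 : ∀ i j, i ≠ j → Apart (F i) (F j)) {θ : ℝ} (hθ0 : 0 < θ) (hθ1 : θ < 1) : ∀ᵐ ω ∂μ,
      (∀ ε > 0, ∀ᶠ x in atTop, ∃ φ e, e ≤ 1 ∧ Energy φ e ∧ Near ε (fun i t => incr (A ω) Q (F i) θ x t) φ) ∧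
      FLaw (fun n i t => incr (A ω) Q (F i) θ ⌊(n : ℝ) ^ (1 / (1 - θ))⌋₊ t) := by
  obtain ⟨m₁, hS, hser⟩ := exists_sys hQ h1 h2 h3
  filter_upwards [hS.increments hQ hA hθ0 hθ1] with ω hω
  have hP : ∀ i y, cP Q F val m₁ i y = predicted Q (F i) y := by
    intro i y
    unfold cP predicted fw
    rw [hser i]
  have hC : ∀ i y, fN (A ω) (F i) val 0 y = count (A ω) (F i) y := by
    intro i y
    unfold fN count
    simp only [zero_le, true_and]
  have hV : ∀ x i t, Wp (cD (A ω) Q F val m₁) (cP Q F val m₁) x (x + hh θ x) ((1 - θ) * Real.log x) i t =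
      incr (A ω) Q (F i) θ x t := by
    intro x i t
    have e1 : pt x (x + hh θ x) t = x + ⌊t * ⌊(x : ℝ) ^ θ⌋₊⌋₊ := by
      unfold pt hh
      push_cast
      rw [add_sub_cancel_left]
    unfold Wp incr cD
    rw [e1, hP, hP, hP, hC, hC]
    unfold hh
    congr 1
    · ring
    · congr 1
      ring
  simp only [hV] at hω
  exact hω

/-- The growth of the predicted numbers of short windows. -/
theorem short_growth (hQ : 1 ≤ Q) {G : Finset ℤ[X]} (h1 : PSys G) (h2 : 0 < series Q G) {θ : ℝ} (hθ0 : 0 < θ) (hθ1 : θ < 1) :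
    Tendsto (fun x : ℕ => Real.log x / (predicted Q G (x + ⌊(x : ℝ) ^ θ⌋₊) - predicted Q G x)) atTop (𝓝 0) := by
  obtain ⟨m₁, hS, hser⟩ := exists_sys (r := 1) (F := fun _ => G) hQ (fun _ => h1) (fun _ => h2)
    (fun i j hij => absurd (Subsingleton.elim i j) hij)
  have hP : ∀ y, cP Q (fun _ : Fin 1 => G) val m₁ 0 y = predicted Q G y := by
    intro y
    unfold cP predicted UV.fw
    rw [hser 0]
  have h3 := hS.short_growth 0 hθ0 hθ1
  simp only [hP] at h3
  exact h3

/-- **One system.** -/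
theorem one_incr {Ω : Type*} [MeasurableSpace Ω] {μ : Measure Ω} [IsProbabilityMeasure μ] {A : Ω → Set ℕ}
    (hQ : 1 ≤ Q) (hA : IsModel μ (level Q) A) {G : Finset ℤ[X]} (h1 : PSys G) (h2 : 0 < series Q G)
    {θ : ℝ} (hθ0 : 0 < θ) (hθ1 : θ < 1) : ∀ᵐ ω ∂μ,
      Tendsto (fun x : ℕ => (count (A ω) G (x + ⌊(x : ℝ) ^ θ⌋₊) - count (A ω) G x) /
        (predicted Q G (x + ⌊(x : ℝ) ^ θ⌋₊) - predicted Q G x)) atTop (𝓝 1) ∧
      ∀ c : ℝ, MapClusterPt c atTop (fun x : ℕ => incr (A ω) Q G θ x 1) ↔ |c| ≤ 1 := by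
  have h2' : 0 < 1 - θ := by linarith
  have hc : 1 < 1 / (1 - θ) := by
    rw [lt_div_iff₀ h2']
    linarith
  have hrat := short_growth hQ h1 h2 hθ0 hθ1
  filter_upwards [poly_incr (r := 1) (F := fun _ => G) hQ hA (fun _ => h1) (fun _ => h2)
    (fun i j hij => absurd (Subsingleton.elim i j) hij) hθ0 hθ1] with ω hω
  obtain ⟨hn, _, hd, _⟩ := hω
  obtain ⟨u, hu⟩ : ∃ u : ℕ → ℝ, u = fun x : ℕ => incr (A ω) Q G θ x 1 := ⟨_, rfl⟩
  have hux : ∀ x, u x = ((count (A ω) G (x + ⌊(x : ℝ) ^ θ⌋₊) - count (A ω) G x) -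
      (predicted Q G (x + ⌊(x : ℝ) ^ θ⌋₊) - predicted Q G x)) /
      √(2 * (1 - θ) * (predicted Q G (x + ⌊(x : ℝ) ^ θ⌋₊) - predicted Q G x) * Real.log x) := by
    intro x
    rw [hu]
    unfold incr
    simp only
    rw [one_mul, Nat.floor_natCast]
  have hup : ∀ ε > 0, ∀ᶠ x in atTop, |u x| ≤ 1 + ε := by
    intro ε hε
    filter_upwards [hn ε hε] with x hx
    obtain ⟨φ, e, he, hφ, hN⟩ := hx
    have a1 := hN 0 1 zero_le_one le_rfl
    have a2 := energy_bound hφ he 0 zero_le_one le_rfl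
    rw [Real.sqrt_one] at a2
    have a3 := abs_add_le (u x - φ 0 1) (φ 0 1)
    rw [sub_add_cancel] at a3
    have a4 : |u x - φ 0 1| ≤ ε := by
      rw [hu]
      exact a1
    linarith
  rw [← hu]
  have hpos : ∀ᶠ x : ℕ in atTop, 0 < predicted Q G (x + ⌊(x : ℝ) ^ θ⌋₊) - predicted Q G x := by
    obtain ⟨m₁, hS, hser⟩ := exists_sys (r := 1) (F := fun _ => G) hQ (fun _ => h1) (fun _ => h2)
      (fun i j hij => absurd (Subsingleton.elim i j) hij)
    have hP : ∀ y, cP Q (fun _ : Fin 1 => G) val m₁ 0 y = predicted Q G y := by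
      intro y
      unfold cP predicted UV.fw
      rw [hser 0]
    filter_upwards [eventually_ge_atTop (m₁ + 3)] with x hx
    have h5 := (hS.part 0 hx le_rfl (hh_one hθ0.le (show 1 ≤ x by omega)) le_rfl).1
    rw [hP, hP] at h5
    exact h5
  constructor
  · have h3 : Tendsto (fun x : ℕ => √(2 * (1 - θ) * (Real.log x / (predicted Q G (x + ⌊(x : ℝ) ^ θ⌋₊) - predicted Q G x))))
        atTop (𝓝 0) := by
      have := (hrat.const_mul (2 * (1 - θ))).sqrt
      rwa [mul_zero, Real.sqrt_zero] at this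
    have h4 : Tendsto (fun x : ℕ => u x *
        √(2 * (1 - θ) * (Real.log x / (predicted Q G (x + ⌊(x : ℝ) ^ θ⌋₊) - predicted Q G x)))) atTop (𝓝 0) := by
      have h6 := h3.const_mul 2
      rw [mul_zero] at h6
      refine squeeze_zero_norm' ?_ h6
      filter_upwards [hup 1 one_pos] with x hx
      rw [norm_mul, Real.norm_eq_abs, Real.norm_eq_abs, abs_of_nonneg (Real.sqrt_nonneg _)]
      exact mul_le_mul_of_nonneg_right (by linarith) (Real.sqrt_nonneg _)
    have h5 := h4.const_add 1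
    rw [add_zero] at h5
    refine h5.congr' ?_
    filter_upwards [hpos, lg_top.eventually_gt_atTop 0] with x a1 a2
    rw [hux x]
    obtain ⟨p, hp⟩ : ∃ p, p = predicted Q G (x + ⌊(x : ℝ) ^ θ⌋₊) - predicted Q G x := ⟨_, rfl⟩
    rw [← hp] at a1 ⊢
    have e1 : √(2 * (1 - θ) * p * Real.log x) = √(2 * (1 - θ) * (Real.log x / p)) * p := by
      have e2 : p = √(p ^ 2) := (Real.sqrt_sq a1.le).symm
      conv_rhs => rw [e2]
      rw [← Real.sqrt_mul (by positivity)]
      congr 1
      rw [Real.sqrt_sq a1.le]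
      field_simp
    have e3 : 0 < √(2 * (1 - θ) * (Real.log x / p)) := Real.sqrt_pos.2 (by positivity)
    rw [e1]
    field_simp
    ring
  · intro c
    rw [mapClusterPt_iff_frequently]
    constructor
    · intro h
      refine le_of_forall_pos_le_add (fun ε hε => ?_)
      have h3 := (h (Metric.ball c (ε / 2)) (Metric.ball_mem_nhds c (by positivity))).and_eventually (hup (ε / 2) (by positivity))
      obtain ⟨x, hx1, hx2⟩ := h3.exists
      rw [Metric.mem_ball, Real.dist_eq] at hx1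
      have a3 := abs_sub_abs_le_abs_sub c (u x)
      rw [abs_sub_comm c (u x)] at a3
      linarith
    · intro hc2 s hs
      obtain ⟨ε, hε, hεs⟩ := Metric.mem_nhds_iff.1 hs
      have hφ : Energy (fun (_ : Fin 1) (t : ℝ) => c * t) (c ^ 2) := by
        refine ⟨fun _ _ => c, fun i => ⟨intervalIntegrable_const, intervalIntegrable_const, fun t _ _ => ?_⟩, ?_⟩
        · rw [intervalIntegral.integral_const, smul_eq_mul, sub_zero, mul_comm]
        · simp
      have hc3 : c ^ 2 ≤ 1 := by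
        rw [← sq_abs]
        nlinarith [abs_nonneg c]
      have h4 : ∃ᶠ x : ℕ in atTop, Near (ε / 2) (fun (_ : Fin 1) t => incr (A ω) Q G θ x t) (fun _ t => c * t) :=
        (kc_top hc.le).frequently (hd _ _ hc3 hφ (ε / 2) (by positivity))
      refine h4.mono (fun x hx => hεs ?_)
      have a1 := hx 0 1 zero_le_one le_rfl
      simp only [mul_one] at a1
      rw [Metric.mem_ball, Real.dist_eq, hu]
      simp only
      linarith

end Pool.Agent.Q106.ST
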