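import Pool.Agent.Q106.ST.Dya

/-!
# Strassen's law for nested counts
-/

set_option autoImplicit false

namespace Pool.Agent.Q106.ST

open Finset MeasureTheory Filter
open scoped Topology
open Pool.Agent.Q106.FL (Energy Near pt)

variable {r : ℕ} {D P : Fin r → ℕ → ℝ}

theorem clog_bounds {x : ℕ} (hx : 2 ≤ x) : 1 ≤ Nat.clog 2 x ∧ 2 ^ (Nat.clog 2 x - 1) < x ∧ x ≤ 2 ^ Nat.clog 2 x := by
  have h1 : 0 < Nat.clog 2 x := Nat.clog_pos (by norm_num) hx
  exact ⟨h1, Nat.pow_pred_clog_lt_self (by norm_num) (by omega), Nat.le_pow_clog (by norm_num) x⟩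

theorem clog_top : Tendsto (fun x => Nat.clog 2 x) atTop atTop := by
  rw [tendsto_atTop]
  intro b
  filter_upwards [eventually_ge_atTop (2 ^ b)] with x hx
  have := Nat.clog_mono_right 2 hx
  rwa [Nat.clog_pow 2 b (by norm_num)] at this

theorem llog_top : Tendsto (fun x : ℕ => Real.log (Real.log (x : ℝ))) atTop atTop := Real.tendsto_log_atTop.comp lg_top

theorem clog_ratio : Tendsto (fun x : ℕ => Real.log (Nat.clog 2 x : ℕ) / Real.log (Real.log (x : ℝ))) atTop (𝓝 1) := by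
  have h1 : Tendsto (fun x : ℕ => 1 + Real.log 4 / Real.log (Real.log (x : ℝ))) atTop (𝓝 1) := by
    have := (tendsto_const_nhds (x := (1 : ℝ))).add (llog_top.const_div_atTop (Real.log 4))
    simpa using this
  refine tendsto_of_tendsto_of_tendsto_of_le_of_le' tendsto_const_nhds h1 ?_ ?_
  · filter_upwards [llog_top.eventually_gt_atTop 0, lg_top.eventually_gt_atTop 0, eventually_ge_atTop 2] with x h2 h3 h4
    obtain ⟨e1, e2, e3⟩ := clog_bounds h4
    rw [le_div_iff₀ h2, one_mul]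
    refine Real.log_le_log h3 ?_
    have e4 : (x : ℝ) ≤ 2 ^ Nat.clog 2 x := by exact_mod_cast e3
    have e5 : Real.log (x : ℝ) ≤ Real.log ((2 : ℝ) ^ Nat.clog 2 x) :=
      Real.log_le_log (by exact_mod_cast (show 0 < x by omega)) e4
    rw [Real.log_pow] at e5
    have e6 : Real.log 2 ≤ 1 := by
      have := Real.log_two_lt_d9
      linarith
    have e7 : (0 : ℝ) ≤ (Nat.clog 2 x : ℕ) := Nat.cast_nonneg _
    nlinarith
  · filter_upwards [llog_top.eventually_gt_atTop 0, lg_top.eventually_gt_atTop 0, eventually_ge_atTop 3] with x h2 h3 h4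
    obtain ⟨e1, e2, e3⟩ := clog_bounds (x := x) (by omega)
    have hj2 : 2 ≤ Nat.clog 2 x := by
      by_contra hcon
      have : Nat.clog 2 x = 1 := by omega
      rw [this] at e3
      omega
    have e4 : (2 : ℝ) ^ (Nat.clog 2 x - 1) ≤ x := by exact_mod_cast e2.le
    have e5 : Real.log ((2 : ℝ) ^ (Nat.clog 2 x - 1)) ≤ Real.log (x : ℝ) := Real.log_le_log (by positivity) e4
    rw [Real.log_pow, Nat.cast_sub e1, Nat.cast_one] at e5
    have e6 : 1 / 2 ≤ Real.log 2 := by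
      have := Real.log_two_gt_d9
      linarith
    have e7 : (2 : ℝ) ≤ (Nat.clog 2 x : ℕ) := by exact_mod_cast hj2
    have e8 : ((Nat.clog 2 x : ℕ) : ℝ) ≤ 4 * Real.log (x : ℝ) := by nlinarith
    rw [div_le_iff₀ h2, add_mul, one_mul, div_mul_cancel₀ _ h2.ne', add_comm, ← Real.log_mul (by norm_num) h3.ne']
    exact Real.log_le_log (by linarith) e8

/-- The factor between the scales `x` and `2^j`. -/
noncomputable def gam (P : Fin r → ℕ → ℝ) (x : ℕ) (i : Fin r) : ℝ :=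
  √(P i (2 ^ Nat.clog 2 x) * Real.log (Nat.clog 2 x : ℕ) / (P i x * Real.log (Real.log x)))

/-- The position of `x` below the next power of two. -/
noncomputable def pos (x : ℕ) : ℝ := (x : ℝ) / 2 ^ Nat.clog 2 x

theorem pos_bounds {x : ℕ} (hx : 2 ≤ x) : 1 / 2 < pos x ∧ pos x ≤ 1 := by
  obtain ⟨e1, e2, e3⟩ := clog_bounds hx
  unfold pos
  have h0 : (0 : ℝ) < 2 ^ Nat.clog 2 x := by positivity
  constructor
  · rw [lt_div_iff₀ h0]
    have e4 : (2 : ℝ) ^ (Nat.clog 2 x - 1) < x := by exact_mod_cast e2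
    have e5 : (2 : ℝ) ^ Nat.clog 2 x = 2 ^ (Nat.clog 2 x - 1) * 2 := by
      rw [← pow_succ]
      congr 1
      omega
    rw [e5]
    linarith
  · rw [div_le_one h0]
    exact_mod_cast e3

theorem Nst.gam_near (h : Nst D P) {ε : ℝ} (hε : 0 < ε) : ∀ᶠ x : ℕ in atTop, ∀ i, |gam P x i - 1 / √(pos x)| ≤ ε := by
  refine eventually_all.2 (fun i => ?_)
  obtain ⟨δ, hδ⟩ : ∃ δ, δ = min (1 / 4) (ε / 16) := ⟨_, rfl⟩
  have hδ0 : 0 < δ := by rw [hδ]; positivity
  have hδ1 : δ ≤ 1 / 4 := by rw [hδ]; exact min_le_left _ _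
  have hδ2 : δ ≤ ε / 16 := by rw [hδ]; exact min_le_right _ _
  have h1 := (pow_top.comp clog_top).eventually (h.rv i δ hδ0)
  have h2 := (Metric.tendsto_nhds.1 clog_ratio) (ε / 8) (by positivity)
  filter_upwards [h1, h2, (pow_top.comp clog_top).eventually ((h.top i).eventually_gt_atTop 0), eventually_ge_atTop 2,
    llog_top.eventually_gt_atTop 0, (h.top i).eventually_gt_atTop 0, clog_top.eventually_ge_atTop 2] with x g1 g2 g3 g4 g5 g6 g7
  obtain ⟨e1, e2, e3⟩ := clog_bounds g4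
  obtain ⟨p1, p2⟩ := pos_bounds g4
  have g8 := g1 x e3
  simp only [Function.comp_apply] at g3 g8
  rw [Real.dist_eq] at g2
  obtain ⟨q, hq⟩ : ∃ q, q = P i x / P i (2 ^ Nat.clog 2 x) := ⟨_, rfl⟩
  obtain ⟨η, hη⟩ : ∃ η, η = Real.log (Nat.clog 2 x : ℕ) / Real.log (Real.log (x : ℝ)) := ⟨_, rfl⟩
  obtain ⟨s, hs⟩ : ∃ s, s = pos x := ⟨_, rfl⟩
  rw [← hη] at g2
  rw [← hs] at p1 p2 ⊢
  have hs' : (x : ℝ) / ((2 ^ Nat.clog 2 x : ℕ) : ℝ) = s := by
    rw [hs]
    unfold pos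
    push_cast
    rfl
  rw [hs'] at g8
  have hqs : |q - s| ≤ δ := by
    have : q - s = (P i x - s * P i (2 ^ Nat.clog 2 x)) / P i (2 ^ Nat.clog 2 x) := by
      rw [hq]
      field_simp
    rw [this, abs_div, abs_of_pos g3, div_le_iff₀ g3]
    exact g8
  rw [abs_le] at hqs
  have hq1 : 1 / 4 ≤ q := by linarith [hqs.1]
  have hη0 : 0 ≤ η := by
    rw [hη]
    refine div_nonneg (Real.log_nonneg ?_) g5.le
    exact_mod_cast (show 1 ≤ Nat.clog 2 x by omega)
  have hg : gam P x i ^ 2 = η / q := by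
    unfold gam
    rw [Real.sq_sqrt]
    · rw [hη, hq]
      field_simp
    · refine div_nonneg (mul_nonneg g3.le (Real.log_nonneg ?_)) (mul_nonneg g6.le g5.le)
      exact_mod_cast (show 1 ≤ Nat.clog 2 x by omega)
  have hgn : 0 ≤ gam P x i := Real.sqrt_nonneg _
  have hq0 : 0 < q := by linarith
  have hs0 : 0 < s := by linarith
  have hd : |η / q - 1 / s| ≤ ε := by
    have e4 : η / q - 1 / s = (η - 1) / q + (s - q) / (q * s) := by
      field_simp
      ring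
    rw [e4]
    refine (abs_add_le _ _).trans ?_
    rw [abs_div, abs_div, abs_of_pos hq0, abs_of_pos (mul_pos hq0 hs0)]
    have e5 : |η - 1| / q ≤ ε / 2 := by
      rw [div_le_iff₀ hq0]
      nlinarith
    have e6 : |s - q| / (q * s) ≤ ε / 2 := by
      rw [div_le_iff₀ (mul_pos hq0 hs0)]
      have e7 : |s - q| ≤ δ := by
        rw [abs_le]
        constructor <;> linarith [hqs.1, hqs.2]
      have e8 : 1 / 8 ≤ q * s := by nlinarith
      nlinarith
    linarith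
  have hsr : 1 ≤ 1 / √s := by
    rw [le_div_iff₀ (Real.sqrt_pos.2 hs0), one_mul]
    exact Real.sqrt_le_iff.2 ⟨zero_le_one, by norm_num; linarith⟩
  have hsr2 : (1 / √s) ^ 2 = 1 / s := by
    rw [div_pow, Real.sq_sqrt hs0.le, one_pow]
  rw [← hg, ← hsr2] at hd
  have e9 : gam P x i ^ 2 - (1 / √s) ^ 2 = (gam P x i - 1 / √s) * (gam P x i + 1 / √s) := by ring
  rw [e9, abs_mul, abs_of_nonneg (show 0 ≤ gam P x i + 1 / √s by linarith)] at hd
  have e10 := abs_nonneg (gam P x i - 1 / √s)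
  nlinarith

theorem Nst.scale (h : Nst D P) : ∀ᶠ x : ℕ in atTop, ∀ i t, Z D P x i t = Zd D P (Nat.clog 2 x) i (pos x * t) * gam P x i := by
  refine eventually_all.2 (fun i => ?_)
  filter_upwards [(pow_top.comp clog_top).eventually ((h.top i).eventually_gt_atTop 0), eventually_ge_atTop 2,
    llog_top.eventually_gt_atTop 0, (h.top i).eventually_gt_atTop 0, clog_top.eventually_ge_atTop 2] with x g3 g4 g5 g6 g7 t
  simp only [Function.comp_apply] at g3
  have hl : 0 < Real.log (Nat.clog 2 x : ℕ) := Real.log_pos (by exact_mod_cast (show 1 < Nat.clog 2 x by omega))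
  unfold Z Zd gam
  have e1 : pos x * t * 2 ^ Nat.clog 2 x = t * x := by
    unfold pos
    field_simp
  rw [e1, Real.sqrt_div (by positivity)]
  have e2 : √(2 * P i x * Real.log (Real.log x)) = √2 * √(P i x * Real.log (Real.log x)) := by
    rw [mul_assoc, Real.sqrt_mul (by norm_num)]
  have e3 : √(2 * P i (2 ^ Nat.clog 2 x) * Real.log (Nat.clog 2 x : ℕ)) =
      √2 * √(P i (2 ^ Nat.clog 2 x) * Real.log (Nat.clog 2 x : ℕ)) := by
    rw [mul_assoc, Real.sqrt_mul (by norm_num)]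
  rw [e2, e3]
  have e4 : 0 < √(P i x * Real.log (Real.log x)) := Real.sqrt_pos.2 (by positivity)
  have e5 : 0 < √(P i (2 ^ Nat.clog 2 x) * Real.log (Nat.clog 2 x : ℕ)) := Real.sqrt_pos.2 (by positivity)
  have e6 : (0 : ℝ) < √2 := by positivity
  field_simp

/-- **Strassen's law, the upper half.** -/
theorem Nst.law_upper (h : Nst D P) {ε : ℝ} (hε : 0 < ε) :
    ∀ᶠ x in atTop, ∃ φ e, e ≤ 1 ∧ Energy φ e ∧ Near ε (Z D P x) φ := by
  obtain ⟨δ, hδ⟩ : ∃ δ, δ = min (1 / 2) (ε / 4) := ⟨_, rfl⟩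
  have hδ0 : 0 < δ := by rw [hδ]; positivity
  have hδ1 : δ ≤ 1 / 2 := by rw [hδ]; exact min_le_left _ _
  have hδ2 : δ ≤ ε / 4 := by rw [hδ]; exact min_le_right _ _
  filter_upwards [clog_top.eventually (h.upper hδ0), h.gam_near hδ0, h.scale, eventually_ge_atTop 2] with x h1 h2 h3 h4
  obtain ⟨φ, e, he, hφ, hN⟩ := h1
  obtain ⟨p1, p2⟩ := pos_bounds h4
  obtain ⟨s, hs⟩ : ∃ s, s = pos x := ⟨_, rfl⟩
  rw [← hs] at p1 p2 h2
  have hs0 : 0 < s := by linarith
  obtain ⟨e', he', hφ'⟩ := energy_sub hφ le_rfl hs0 p2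
  refine ⟨_, e', he'.trans he, hφ', fun i t ht0 ht1 => ?_⟩
  have hst0 : 0 ≤ s * t := by positivity
  have hst1 : s * t ≤ 1 := by nlinarith
  have e0 : φ i 0 = 0 := by
    obtain ⟨g, k1, _⟩ := hφ
    rw [(k1 i).2.2 0 le_rfl zero_le_one, intervalIntegral.integral_same]
  have e1 := hN i (s * t) hst0 hst1
  have e2 := energy_bound hφ he i hst0 hst1
  have e3 : √(s * t) ≤ 1 := Real.sqrt_le_iff.2 ⟨zero_le_one, by norm_num; linarith⟩
  have e4 := h2 i
  have e5 : 1 / √s ≤ 3 / 2 := by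
    rw [div_le_iff₀ (Real.sqrt_pos.2 hs0)]
    have : 2 / 3 ≤ √s := Real.le_sqrt_of_sq_le (by norm_num; linarith)
    linarith
  have e6 : 0 ≤ gam P x i := Real.sqrt_nonneg _
  have e7 : gam P x i ≤ 2 := by linarith [(abs_le.1 e4).2]
  rw [h3 i t, ← hs, zero_add, sub_zero, e0, sub_zero]
  have e8 : Zd D P (Nat.clog 2 x) i (s * t) * gam P x i - φ i (s * t) / √s =
      (Zd D P (Nat.clog 2 x) i (s * t) - φ i (s * t)) * gam P x i + φ i (s * t) * (gam P x i - 1 / √s) := by ring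
  rw [e8]
  refine (abs_add_le _ _).trans ?_
  rw [abs_mul, abs_mul, abs_of_nonneg e6]
  have e9 : |Zd D P (Nat.clog 2 x) i (s * t) - φ i (s * t)| * gam P x i ≤ δ * 2 :=
    mul_le_mul e1 e7 e6 hδ0.le
  have e10 : |φ i (s * t)| * |gam P x i - 1 / √s| ≤ 1 * δ :=
    mul_le_mul (e2.trans e3) e4 (abs_nonneg _) zero_le_one
  linarith

/-- **Strassen's law, the lower half.** -/
theorem Nst.law_lower (h : Nst D P) {φ : Fin r → ℝ → ℝ} {e : ℝ} (he : e ≤ 1) (hφ : Energy φ e) {ε : ℝ} (hε : 0 < ε) :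
    ∃ᶠ x in atTop, Near ε (Z D P x) φ := by
  obtain ⟨δ, hδ⟩ : ∃ δ, δ = min (1 / 2) (ε / 4) := ⟨_, rfl⟩
  have hδ0 : 0 < δ := by rw [hδ]; positivity
  have hδ1 : δ ≤ 1 / 2 := by rw [hδ]; exact min_le_left _ _
  have hδ2 : δ ≤ ε / 4 := by rw [hδ]; exact min_le_right _ _
  have h1 := (h.lower he hφ hδ0).and_eventually ((pow_top.eventually ((h.gam_near hδ0).and h.scale)).and
    (eventually_ge_atTop 1))
  refine pow_top.frequently (h1.mono (fun j hj => ?_))
  obtain ⟨hN, ⟨h2, h3⟩, hj1⟩ := hj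
  have ec : Nat.clog 2 (2 ^ j) = j := Nat.clog_pow 2 j (by norm_num)
  have ep : pos (2 ^ j) = 1 := by
    unfold pos
    rw [ec]
    push_cast
    exact div_self (by positivity)
  intro i t ht0 ht1
  have e4 := h2 i
  have e1 := hN i t ht0 ht1
  have e2 := energy_bound hφ he i ht0 ht1
  have e3 : √t ≤ 1 := Real.sqrt_le_iff.2 ⟨zero_le_one, by norm_num; linarith⟩
  have e5 := h3 i t
  rw [ep, one_mul, ec] at e5
  rw [ep, Real.sqrt_one, div_one] at e4
  have e6 : 0 ≤ gam P (2 ^ j) i := Real.sqrt_nonneg _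
  have e7 : gam P (2 ^ j) i ≤ 2 := by linarith [(abs_le.1 e4).2]
  rw [e5]
  have e8 : Zd D P j i t * gam P (2 ^ j) i - φ i t =
      (Zd D P j i t - φ i t) * gam P (2 ^ j) i + φ i t * (gam P (2 ^ j) i - 1) := by ring
  rw [e8]
  refine (abs_add_le _ _).trans ?_
  rw [abs_mul, abs_mul, abs_of_nonneg e6]
  have e9 : |Zd D P j i t - φ i t| * gam P (2 ^ j) i ≤ δ * 2 := mul_le_mul e1 e7 e6 hδ0.le
  have e10 : |φ i t| * |gam P (2 ^ j) i - 1| ≤ 1 * δ := mul_le_mul (e2.trans e3) e4 (abs_nonneg _) zero_le_one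
  linarith

end Pool.Agent.Q106.ST
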