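import Pool.Agent.Q106.ST.Pol
import Mathlib.NumberTheory.Primorial

/-!
# The singular series at the primorial levels
-/

set_option autoImplicit false

namespace Pool.Agent.Q106.ST

open Finset Polynomial

/-- The number of the `r` modulo `Q` such that all values are units. -/
noncomputable def UG (F : Finset ℤ[X]) (Q : ℕ) : ℕ :=
  Nat.card {r : ZMod Q // ∀ f ∈ F, IsUnit (f.eval₂ (Int.castRingHom (ZMod Q)) r)}

theorem UG_mul (F : Finset ℤ[X]) {m n : ℕ} (h : m.Coprime n) : UG F (m * n) = UG F m * UG F n := by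
  unfold UG
  rw [← Nat.card_prod]
  let e := ZMod.chineseRemainder h
  have h1 : ∀ (f : ℤ[X]) (r : ZMod (m * n)),
      (e (f.eval₂ (Int.castRingHom (ZMod (m * n))) r)).1 = f.eval₂ (Int.castRingHom (ZMod m)) (e r).1 := by
    intro f r
    have h2 := Polynomial.hom_eval₂ f (Int.castRingHom (ZMod (m * n)))
      ((RingHom.fst (ZMod m) (ZMod n)).comp (e : ZMod (m * n) →+* ZMod m × ZMod n)) r
    rw [Subsingleton.elim (((RingHom.fst (ZMod m) (ZMod n)).comp (e : ZMod (m * n) →+* ZMod m × ZMod n)).comp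
      (Int.castRingHom (ZMod (m * n)))) (Int.castRingHom (ZMod m))] at h2
    exact h2
  have h2 : ∀ (f : ℤ[X]) (r : ZMod (m * n)),
      (e (f.eval₂ (Int.castRingHom (ZMod (m * n))) r)).2 = f.eval₂ (Int.castRingHom (ZMod n)) (e r).2 := by
    intro f r
    have h2 := Polynomial.hom_eval₂ f (Int.castRingHom (ZMod (m * n)))
      ((RingHom.snd (ZMod m) (ZMod n)).comp (e : ZMod (m * n) →+* ZMod m × ZMod n)) r
    rw [Subsingleton.elim (((RingHom.snd (ZMod m) (ZMod n)).comp (e : ZMod (m * n) →+* ZMod m × ZMod n)).comp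
      (Int.castRingHom (ZMod (m * n)))) (Int.castRingHom (ZMod n))] at h2
    exact h2
  have hunit : ∀ r : ZMod (m * n), (∀ f ∈ F, IsUnit (f.eval₂ (Int.castRingHom (ZMod (m * n))) r)) ↔
      (∀ f ∈ F, IsUnit (f.eval₂ (Int.castRingHom (ZMod m)) (e r).1)) ∧
        ∀ f ∈ F, IsUnit (f.eval₂ (Int.castRingHom (ZMod n)) (e r).2) := by
    intro r
    rw [← forall₂_and]
    refine forall₂_congr (fun f _ => ?_)
    have h3 : IsUnit (f.eval₂ (Int.castRingHom (ZMod (m * n))) r) ↔
        IsUnit (e (f.eval₂ (Int.castRingHom (ZMod (m * n))) r)) :=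
      (MulEquiv.isUnit_map e.toMulEquiv).symm
    rw [h3, Prod.isUnit_iff, h1, h2]
  refine Nat.card_congr ?_
  refine (Equiv.subtypeEquiv e.toEquiv (q := fun s => (∀ f ∈ F, IsUnit (f.eval₂ (Int.castRingHom (ZMod m)) s.1)) ∧
    ∀ f ∈ F, IsUnit (f.eval₂ (Int.castRingHom (ZMod n)) s.2)) hunit).trans ?_
  exact Equiv.subtypeProdEquivProd (p := fun r : ZMod m => ∀ f ∈ F, IsUnit (f.eval₂ (Int.castRingHom (ZMod m)) r))
    (q := fun r : ZMod n => ∀ f ∈ F, IsUnit (f.eval₂ (Int.castRingHom (ZMod n)) r))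

theorem UG_one (F : Finset ℤ[X]) : UG F 1 = 1 := by
  unfold UG
  have h : ∀ r : ZMod 1, ∀ f ∈ F, IsUnit (f.eval₂ (Int.castRingHom (ZMod 1)) r) := fun r f _ => by
    have : f.eval₂ (Int.castRingHom (ZMod 1)) r = 1 := Subsingleton.elim _ _
    rw [this]
    exact isUnit_one
  rw [Nat.card_congr (Equiv.subtypeUnivEquiv h), Nat.card_zmod]

theorem eval_zmod (f : ℤ[X]) (Q m : ℕ) :
    f.eval₂ (Int.castRingHom (ZMod Q)) (m : ZMod Q) = ((f.eval (m : ℤ) : ℤ) : ZMod Q) := by
  have h := Polynomial.eval₂_at_apply (p := f) (Int.castRingHom (ZMod Q)) (m : ℤ)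
  rw [eq_intCast, eq_intCast, Int.cast_natCast] at h
  exact h

open Classical in
theorem ug_card {Q : ℕ} (hQ : 1 ≤ Q) (F : Finset ℤ[X]) :
    ((range Q).filter (fun m : ℕ => ∀ f ∈ F, IsCoprime (f.eval (m : ℤ)) (Q : ℤ))).card = UG F Q := by
  have : NeZero Q := ⟨by omega⟩
  have key : ∀ m : ℕ, (∀ f ∈ F, IsUnit (f.eval₂ (Int.castRingHom (ZMod Q)) (m : ZMod Q))) ↔
      ∀ f ∈ F, IsCoprime (f.eval (m : ℤ)) (Q : ℤ) := by
    intro m
    refine forall₂_congr (fun f _ => ?_)
    rw [eval_zmod, ZMod.coe_int_isUnit_iff_isCoprime, isCoprime_comm]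
  unfold UG
  rw [Nat.card_eq_fintype_card, Fintype.card_subtype]
  refine card_bij (fun m _ => (m : ZMod Q)) ?_ ?_ ?_
  · intro m hm
    rw [mem_filter] at hm ⊢
    exact ⟨mem_univ _, (key m).2 hm.2⟩
  · intro m hm n hn h
    rw [mem_filter, mem_range] at hm hn
    have h1 := (ZMod.natCast_eq_natCast_iff' m n Q).1 h
    rwa [Nat.mod_eq_of_lt hm.1, Nat.mod_eq_of_lt hn.1] at h1
  · intro r hr
    rw [mem_filter] at hr
    refine ⟨r.val, ?_, ZMod.natCast_zmod_val r⟩
    rw [mem_filter, mem_range]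
    refine ⟨ZMod.val_lt r, (key _).1 ?_⟩
    rw [ZMod.natCast_zmod_val r]
    exact hr.2

/-- The number of the `m` modulo `p` such that `p` divides one of the values. -/
noncomputable def rho (F : Finset ℤ[X]) (p : ℕ) : ℕ :=
  open Classical in ((range p).filter (fun m : ℕ => ∃ f ∈ F, (p : ℤ) ∣ f.eval (m : ℤ))).card

theorem UG_prime (F : Finset ℤ[X]) {p : ℕ} (hp : p.Prime) : (UG F p : ℝ) = (p : ℝ) - rho F p := by
  classical
  have h1 : UG F p + rho F p = p := by
    rw [← ug_card hp.one_lt.le F]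
    unfold rho
    have h2 : (range p).filter (fun m : ℕ => ∃ f ∈ F, (p : ℤ) ∣ f.eval (m : ℤ)) =
        (range p).filter (fun m : ℕ => ¬ ∀ f ∈ F, IsCoprime (f.eval (m : ℤ)) (p : ℤ)) := by
      refine filter_congr (fun m _ => ?_)
      push_neg
      refine exists_congr (fun f => and_congr_right (fun _ => ?_))
      rw [isCoprime_comm, (Nat.prime_iff_prime_int.1 hp).coprime_iff_not_dvd, not_not]
    rw [h2, card_filter_add_card_filter_not, card_range]
  have h2 : (UG F p : ℝ) + rho F p = p := by exact_mod_cast h1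
  linarith

/-- **The constant at the primorial levels.** -/
theorem series_primorial (F : Finset ℤ[X]) (z : ℕ) :
    series (primorial z) F =
      ∏ p ∈ (range (z + 1)).filter (fun p => p.Prime), (1 - (rho F p : ℝ) / p) / (1 - 1 / (p : ℝ)) ^ F.card := by
  classical
  have key : ∀ T : Finset ℕ, (∀ p ∈ T, p.Prime) → 1 ≤ ∏ p ∈ T, p ∧
      (UG F (∏ p ∈ T, p) : ℝ) / ((∏ p ∈ T, p : ℕ) : ℝ) * (((∏ p ∈ T, p : ℕ) : ℝ) / Nat.totient (∏ p ∈ T, p)) ^ F.card =
        ∏ p ∈ T, (1 - (rho F p : ℝ) / p) / (1 - 1 / (p : ℝ)) ^ F.card := by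
    intro T
    induction T using Finset.induction_on with
    | empty =>
      intro _
      simp [UG_one]
    | insert p T hp ih =>
      intro hT
      have hpp := hT p (mem_insert_self _ _)
      obtain ⟨ih1, ih2⟩ := ih (fun q hq => hT q (mem_insert_of_mem hq))
      have hcop : p.Coprime (∏ q ∈ T, q) := by
        refine Nat.Coprime.prod_right (fun q hq => ?_)
        refine (Nat.coprime_primes hpp (hT q (mem_insert_of_mem hq))).2 ?_
        rintro rfl
        exact hp hq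
      rw [prod_insert hp, prod_insert hp]
      refine ⟨Nat.mul_pos hpp.pos ih1, ?_⟩
      rw [← ih2, UG_mul F hcop, Nat.totient_mul hcop, Nat.totient_prime hpp, Nat.cast_mul, Nat.cast_mul, Nat.cast_mul,
        UG_prime F hpp, Nat.cast_sub hpp.one_lt.le, Nat.cast_one]
      have hp1 : (1 : ℝ) < p := by exact_mod_cast hpp.one_lt
      have hp0 : (p : ℝ) ≠ 0 := by linarith
      have hp1' : (p : ℝ) - 1 ≠ 0 := by linarith
      have e1 : (1 : ℝ) - 1 / p = ((p : ℝ) - 1) / p := by field_simp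
      have e4 : (1 - (rho F p : ℝ) / p) / (((p : ℝ) - 1) / p) ^ F.card =
          ((p : ℝ) - rho F p) / p * ((p : ℝ) / ((p : ℝ) - 1)) ^ F.card := by
        rw [div_pow, div_pow]
        field_simp
      rw [e1, e4, mul_div_mul_comm ((p : ℝ) - rho F p), mul_div_mul_comm (p : ℝ) _ ((p : ℝ) - 1), mul_pow]
      ring
  have hT : ∀ p ∈ (range (z + 1)).filter (fun p => p.Prime), p.Prime := fun p hp => (mem_filter.1 hp).2
  obtain ⟨h1, h2⟩ := key _ hT
  unfold series primorial
  rw [ug_card h1 F]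
  exact h2

end Pool.Agent.Q106.ST
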