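import Pool.Agent.Q106.FL.Ball

/-!
# Transformations of Strassen's ball
-/

set_option autoImplicit false

namespace Pool.Agent.Q106.ST

open Finset MeasureTheory Filter
open scoped Topology
open Pool.Agent.Q106.FL (Energy)

variable {r : ℕ}

theorem affine_int {g : ℝ → ℝ} {u v : ℝ} (huv : u < v) (h : IntervalIntegrable g volume u v) :
    IntervalIntegrable (fun t => g (u + (v - u) * t)) volume 0 1 := by
  have h1 : IntervalIntegrable (fun t => g (u + t)) volume 0 (v - u) := by
    have := h.comp_add_left u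
    simpa using this
  have h2 := h1.comp_mul_left (c := v - u)
  have hc : v - u ≠ 0 := by linarith
  simpa [hc] using h2

theorem affine_eq (g : ℝ → ℝ) {u v : ℝ} (huv : u < v) (t : ℝ) :
    ∫ s in (0 : ℝ)..t, g (u + (v - u) * s) = (v - u)⁻¹ * ∫ s in u..(u + (v - u) * t), g s := by
  have hc : v - u ≠ 0 := by linarith
  rw [intervalIntegral.integral_comp_add_mul g hc u, smul_eq_mul, mul_zero, add_zero]

/-- Parts of the functions of the ball. -/
theorem energy_sub {φ : Fin r → ℝ → ℝ} {e : ℝ} (h : Energy φ e) {u v : ℝ} (hu : 0 ≤ u) (huv : u < v) (hv : v ≤ 1) :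
    ∃ e' ≤ e, Energy (fun i t => (φ i (u + (v - u) * t) - φ i u) / √(v - u)) e' := by
  obtain ⟨g, h1, h2⟩ := h
  have hc : 0 < v - u := by linarith
  have hs : 0 < √(v - u) := Real.sqrt_pos.2 hc
  have hss : √(v - u) * √(v - u) = v - u := Real.mul_self_sqrt hc.le
  have hsub : Set.uIcc u v ⊆ Set.uIcc (0 : ℝ) 1 := by
    rw [Set.uIcc_of_le huv.le, Set.uIcc_of_le zero_le_one]
    exact Set.Icc_subset_Icc hu hv
  refine ⟨∑ i, ∫ s in u..v, g i s ^ 2, ?_, fun i t => √(v - u) * g i (u + (v - u) * t), fun i => ⟨?_, ?_, ?_⟩, ?_⟩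
  · rw [← h2]
    refine sum_le_sum (fun i _ => ?_)
    refine intervalIntegral.integral_mono_interval hu huv.le hv ?_ (h1 i).2.1
    exact Eventually.of_forall (fun s => sq_nonneg _)
  · exact (affine_int huv ((h1 i).1.mono_set hsub)).const_mul _
  · have h3 := (affine_int (g := fun s => g i s ^ 2) huv ((h1 i).2.1.mono_set hsub)).const_mul (v - u)
    refine h3.congr (fun t _ => ?_)
    simp only [mul_pow, Real.sq_sqrt hc.le]
  · intro t ht0 ht1
    have e1 : u + (v - u) * t ≤ 1 := by nlinarith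
    have e2 : 0 ≤ u + (v - u) * t := by positivity
    simp only
    rw [(h1 i).2.2 _ e2 e1, (h1 i).2.2 u hu (by linarith), intervalIntegral.integral_const_mul, affine_eq _ huv]
    have h3 : (∫ s in (0 : ℝ)..(u + (v - u) * t), g i s) - ∫ s in (0 : ℝ)..u, g i s =
        ∫ s in u..(u + (v - u) * t), g i s := by
      refine intervalIntegral.integral_interval_sub_left ?_ ?_
      · refine (h1 i).1.mono_set ?_
        rw [Set.uIcc_of_le e2, Set.uIcc_of_le zero_le_one]
        exact Set.Icc_subset_Icc le_rfl e1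
      · refine (h1 i).1.mono_set ?_
        rw [Set.uIcc_of_le hu, Set.uIcc_of_le zero_le_one]
        exact Set.Icc_subset_Icc le_rfl (by linarith)
    rw [h3]
    have h5 : (√(v - u)) * (v - u)⁻¹ = 1 / √(v - u) := by
      rw [eq_div_iff hs.ne', mul_right_comm, hss, mul_inv_cancel₀ hc.ne']
    rw [← mul_assoc, h5, div_eq_mul_inv, one_div, mul_comm]
  · refine sum_congr rfl (fun i _ => ?_)
    have h3 : (fun s => (√(v - u) * g i (u + (v - u) * s)) ^ 2) = fun s => (v - u) * (fun s => g i s ^ 2) (u + (v - u) * s) := by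
      funext s
      simp only [mul_pow, Real.sq_sqrt hc.le]
    simp only at h3 ⊢
    rw [h3, intervalIntegral.integral_const_mul, affine_eq (fun s => g i s ^ 2) huv, ← mul_assoc, mul_inv_cancel₀ hc.ne', one_mul,
      mul_one]
    congr 1
    ring

theorem unaffine_int {g : ℝ → ℝ} {κ : ℝ} (hκ : κ < 1) {x : ℝ} (h : IntervalIntegrable g volume 0 x) :
    IntervalIntegrable (fun t => g ((t - κ) / (1 - κ))) volume κ (κ + (1 - κ) * x) := by
  have hc : (1 - κ)⁻¹ ≠ 0 := inv_ne_zero (by linarith)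
  have h1 := h.comp_mul_left (c := (1 - κ)⁻¹)
  simp only [div_inv_eq_mul] at h1
  have h2 := h1.comp_sub_right κ
  rw [zero_mul, zero_add] at h2
  have e1 : x * (1 - κ) + κ = κ + (1 - κ) * x := by ring
  rw [e1] at h2
  refine h2.congr (fun t _ => ?_)
  rw [div_eq_inv_mul]

theorem unaffine_eq (g : ℝ → ℝ) {κ : ℝ} (hκ : κ < 1) (t : ℝ) :
    ∫ s in κ..t, g ((s - κ) / (1 - κ)) = (1 - κ) * ∫ s in (0 : ℝ)..((t - κ) / (1 - κ)), g s := by
  have hc : 1 - κ ≠ 0 := by linarith
  have h1 := intervalIntegral.integral_comp_sub_right (a := κ) (b := t) (fun s => g (s / (1 - κ))) κ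
  rw [sub_self] at h1
  rw [h1, intervalIntegral.integral_comp_div g hc, smul_eq_mul, zero_div]

/-- Functions of the ball after a time at which they vanish. -/
theorem energy_ext {φ : Fin r → ℝ → ℝ} {e : ℝ} (h : Energy φ e) {κ : ℝ} (hκ0 : 0 < κ) (hκ : κ < 1) :
    Energy (fun i t => if t ≤ κ then 0 else √(1 - κ) * φ i ((t - κ) / (1 - κ))) e := by
  obtain ⟨g, h1, h2⟩ := h
  have hc : 0 < 1 - κ := by linarith
  have hs : 0 < √(1 - κ) := Real.sqrt_pos.2 hc
  have hss : √(1 - κ) * √(1 - κ) = 1 - κ := Real.mul_self_sqrt hc.le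
  have hone : κ + (1 - κ) * 1 = 1 := by ring
  obtain ⟨G, hG⟩ : ∃ G : Fin r → ℝ → ℝ, G = fun i t => if t ≤ κ then 0 else g i ((t - κ) / (1 - κ)) / √(1 - κ) := ⟨_, rfl⟩
  have hA : ∀ i, Set.EqOn (G i) (fun _ => 0) (Set.uIoc 0 κ) := by
    intro i t ht
    rw [Set.uIoc_of_le hκ0.le] at ht
    rw [hG]
    simp only [ht.2, if_true]
  have hB : ∀ i, ∀ x ≥ κ, Set.EqOn (G i) (fun t => g i ((t - κ) / (1 - κ)) / √(1 - κ)) (Set.uIoc κ x) := by
    intro i x hx t ht
    rw [Set.uIoc_of_le hx] at ht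
    rw [hG]
    simp only [not_le.2 ht.1, if_false]
  have hI0 : ∀ i, IntervalIntegrable (G i) volume 0 κ := by
    intro i
    have h3 : IntervalIntegrable (fun _ : ℝ => (0 : ℝ)) volume 0 κ := intervalIntegrable_const
    exact h3.congr (fun t ht => ((hA i) ht).symm)
  have hI1 : ∀ i, IntervalIntegrable (G i) volume κ 1 := by
    intro i
    have := (unaffine_int hκ (h1 i).1).div_const (√(1 - κ))
    rw [hone] at this
    exact this.congr (fun t ht => ((hB i 1 hκ.le) ht).symm)
  have hJ0 : ∀ i, IntervalIntegrable (fun s => G i s ^ 2) volume 0 κ := by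
    intro i
    have h3 : IntervalIntegrable (fun _ : ℝ => (0 : ℝ)) volume 0 κ := intervalIntegrable_const
    refine h3.congr (fun t ht => ?_)
    simp only [(hA i) ht]
    norm_num
  have hJ1 : ∀ i, IntervalIntegrable (fun s => G i s ^ 2) volume κ 1 := by
    intro i
    have := (unaffine_int hκ (h1 i).2.1).div_const (1 - κ)
    rw [hone] at this
    refine this.congr (fun t ht => ?_)
    simp only [(hB i 1 hκ.le) ht, div_pow, Real.sq_sqrt hc.le]
  refine ⟨G, fun i => ⟨(hI0 i).trans (hI1 i), (hJ0 i).trans (hJ1 i), ?_⟩, ?_⟩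
  · intro t ht0 ht1
    by_cases ht : t ≤ κ
    · simp only [ht, if_true]
      have h3 : ∫ s in (0 : ℝ)..t, G i s = ∫ s in (0 : ℝ)..t, (0 : ℝ) := by
        refine intervalIntegral.integral_congr_ae (Eventually.of_forall (fun s hs' => ?_))
        rw [Set.uIoc_of_le ht0] at hs'
        rw [hG]
        simp only [hs'.2.trans ht, if_true]
      rw [h3]
      simp
    · simp only [ht, if_false]
      rw [not_le] at ht
      have hIt : IntervalIntegrable (G i) volume κ t := (hI1 i).mono_set (by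
        rw [Set.uIcc_of_le ht.le, Set.uIcc_of_le hκ.le]
        exact Set.Icc_subset_Icc le_rfl ht1)
      have h3 : ∫ s in (0 : ℝ)..κ, G i s = 0 := by
        rw [intervalIntegral.integral_congr_ae (Eventually.of_forall (fun s hs' => (hA i) hs'))]
        simp
      have h4 : ∫ s in κ..t, G i s = (√(1 - κ))⁻¹ * ∫ s in κ..t, g i ((s - κ) / (1 - κ)) := by
        rw [← intervalIntegral.integral_const_mul]
        refine intervalIntegral.integral_congr_ae (Eventually.of_forall (fun s hs' => ?_))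
        rw [(hB i t ht.le) hs']
        exact div_eq_inv_mul _ _
      rw [← intervalIntegral.integral_add_adjacent_intervals (hI0 i) hIt, h3, zero_add, h4, unaffine_eq _ hκ,
        (h1 i).2.2 _ (div_nonneg (by linarith) hc.le) (by rw [div_le_one hc]; linarith), ← mul_assoc]
      congr 1
      nth_rw 3 [← hss]
      field_simp
  · rw [← h2]
    refine sum_congr rfl (fun i _ => ?_)
    have h3 : ∫ s in (0 : ℝ)..κ, G i s ^ 2 = 0 := by
      rw [intervalIntegral.integral_congr_ae (g := fun _ => (0 : ℝ)) (Eventually.of_forall (fun s hs' => by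
        simp only [(hA i) hs']
        norm_num))]
      simp
    have h4 : ∫ s in κ..1, G i s ^ 2 = (1 - κ)⁻¹ * ∫ s in κ..1, (fun s => g i s ^ 2) ((s - κ) / (1 - κ)) := by
      rw [← intervalIntegral.integral_const_mul]
      refine intervalIntegral.integral_congr_ae (Eventually.of_forall (fun s hs' => ?_))
      simp only [(hB i 1 hκ.le) hs', div_pow, Real.sq_sqrt hc.le]
      rw [div_eq_inv_mul]
    rw [← intervalIntegral.integral_add_adjacent_intervals (hJ0 i) (hJ1 i), h3, zero_add, h4,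
      unaffine_eq (fun s => g i s ^ 2) hκ, ← mul_assoc, inv_mul_cancel₀ hc.ne', one_mul, div_self hc.ne']

/-- The functions of the ball are bounded. -/
theorem energy_bound {φ : Fin r → ℝ → ℝ} {e : ℝ} (h : Energy φ e) (he : e ≤ 1) (i : Fin r) {t : ℝ} (ht0 : 0 ≤ t)
    (ht1 : t ≤ 1) : |φ i t| ≤ √t := by
  obtain ⟨g, h1, h2⟩ := h
  have h3 := (FL.incr (h1 i).1 (h1 i).2.1 (q := 1) le_rfl).2 0 t le_rfl ht0 ht1
  have h4 : ∫ s in (0 : ℝ)..1, g i s ^ 2 ≤ e := by
    rw [← h2]
    exact single_le_sum (f := fun i => ∫ s in (0 : ℝ)..1, g i s ^ 2)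
      (fun j _ => intervalIntegral.integral_nonneg zero_le_one (fun _ _ => sq_nonneg _)) (mem_univ i)
  rw [intervalIntegral.integral_same, sub_zero, sub_zero, ← (h1 i).2.2 t ht0 ht1] at h3
  rw [← Real.sqrt_sq_eq_abs]
  exact Real.sqrt_le_sqrt (h3.trans (by nlinarith))

end Pool.Agent.Q106.ST
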