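import Pool.Agent.Q106.ST.Inc

/-!
# The functional law of the increments: all short windows
-/

set_option autoImplicit false

namespace Pool.Agent.Q106.ST

open Finset MeasureTheory ProbabilityTheory Filter
open scoped Topology
open Pool.Agent.Q120.GM (IsModel level)
open Pool.Agent.Q106.UV (fN fex fser fw ft FD)
open Pool.Agent.Q106.FL (Energy Near pt fP FLaw)

/-- The index of the window of `x`. -/
noncomputable def kx (θ : ℝ) (x : ℕ) : ℕ := ⌊(x : ℝ) ^ (1 - θ)⌋₊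

theorem kx_top {θ : ℝ} (h1 : θ < 1) : Tendsto (kx θ) atTop atTop :=
  tendsto_nat_floor_atTop.comp ((tendsto_rpow_atTop (by linarith)).comp tendsto_natCast_atTop_atTop)

/-- The window of `x`. -/
theorem cover {θ : ℝ} (h0 : 0 < θ) (h1 : θ < 1) (x : ℕ) :
    kc (1 / (1 - θ)) (kx θ x) ≤ x ∧ x + hh θ x ≤ kc (1 / (1 - θ)) (kx θ x + 2) := by
  have h2 : 0 < 1 - θ := by linarith
  have hc : 1 < 1 / (1 - θ) := by
    rw [lt_div_iff₀ h2]
    linarith
  obtain ⟨c, hcd⟩ : ∃ c, c = 1 / (1 - θ) := ⟨_, rfl⟩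
  have hcθ : c * θ = c - 1 := by
    rw [hcd]
    field_simp
    ring
  have hc1 : (1 - θ) * c = 1 := by
    rw [hcd]
    field_simp
  rw [← hcd] at hc ⊢
  have e1 : ((x : ℝ) ^ (1 - θ)) ^ c = x := by
    rw [← Real.rpow_mul (Nat.cast_nonneg _), hc1, Real.rpow_one]
  constructor
  · have h3 : (kx θ x : ℝ) ^ c ≤ x := by
      conv_rhs => rw [← e1]
      exact Real.rpow_le_rpow (Nat.cast_nonneg _) (Nat.floor_le (by positivity)) (by linarith)
    have h4 : (kc c (kx θ x) : ℝ) ≤ x := kc_le.trans h3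
    exact_mod_cast h4
  · have h3 : (x : ℝ) ≤ ((kx θ x : ℝ) + 1) ^ c := by
      conv_lhs => rw [← e1]
      exact Real.rpow_le_rpow (by positivity) (Nat.lt_floor_add_one _).le (by linarith)
    have h4 : (hh θ x : ℝ) ≤ ((kx θ x : ℝ) + 1) ^ (c - 1) := by
      refine hh_le.trans ((Real.rpow_le_rpow (Nat.cast_nonneg _) h3 h0.le).trans (le_of_eq ?_))
      rw [← Real.rpow_mul (by positivity), hcθ]
    have h5 := pow_low hc.le (show (0 : ℝ) < (kx θ x : ℝ) + 1 by positivity) (show (0 : ℝ) ≤ 1 by norm_num)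
    have h6 : (0 : ℝ) < ((kx θ x : ℝ) + 1) ^ (c - 1) := by positivity
    unfold kc
    refine Nat.le_floor ?_
    push_cast
    rw [show (kx θ x : ℝ) + 2 = (kx θ x : ℝ) + 1 + 1 by ring]
    nlinarith

/-- The length of the window of `x`. -/
theorem cover_len {θ : ℝ} (h0 : 0 < θ) (h1 : θ < 1) : ∃ κ > 0, ∀ᶠ x : ℕ in atTop,
    κ * ((kc (1 / (1 - θ)) (kx θ x + 2) : ℝ) - kc (1 / (1 - θ)) (kx θ x)) ≤ hh θ x := by
  have h2 : 0 < 1 - θ := by linarith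
  have hc : 1 < 1 / (1 - θ) := by
    rw [lt_div_iff₀ h2]
    linarith
  obtain ⟨c, hcd⟩ : ∃ c, c = 1 / (1 - θ) := ⟨_, rfl⟩
  have hcθ : c * θ = c - 1 := by
    rw [hcd]
    field_simp
    ring
  have hc1 : (1 - θ) * c = 1 := by
    rw [hcd]
    field_simp
  rw [← hcd] at hc ⊢
  refine ⟨1 / (2 * (2 * c * 3 ^ (c - 1) + 1)), by positivity, ?_⟩
  filter_upwards [(kx_top h1).eventually_ge_atTop 1, eventually_ge_atTop 1] with x g1 g2
  obtain ⟨k, hk⟩ : ∃ k, k = kx θ x := ⟨_, rfl⟩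
  rw [← hk] at g1 ⊢
  have hk1 : (1 : ℝ) ≤ k := by exact_mod_cast g1
  have hx1 : (1 : ℝ) ≤ x := by exact_mod_cast g2
  have h3 := pow_up hc.le (show (0 : ℝ) < k by linarith) (show (0 : ℝ) ≤ 2 by norm_num)
  have h4 : (kc c (k + 2) : ℝ) ≤ ((k : ℝ) + 2) ^ c := by
    have := kc_le (c := c) (k := k + 2)
    push_cast at this
    exact this
  have h5 : (k : ℝ) ^ c - 1 < kc c k := by
    have := Nat.lt_floor_add_one ((k : ℝ) ^ c)
    unfold kc
    linarith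
  have h6 : ((k : ℝ) + 2) ^ (c - 1) ≤ 3 ^ (c - 1) * (x : ℝ) ^ θ := by
    have e1 : (k : ℝ) + 2 ≤ 3 * k := by linarith
    refine (Real.rpow_le_rpow (by positivity) e1 (by linarith)).trans ?_
    rw [Real.mul_rpow (by norm_num) (by linarith)]
    refine mul_le_mul_of_nonneg_left ?_ (by positivity)
    have e2 : (k : ℝ) ≤ (x : ℝ) ^ (1 - θ) := by
      rw [hk]
      exact Nat.floor_le (by positivity)
    refine (Real.rpow_le_rpow (by positivity) e2 (by linarith)).trans (le_of_eq ?_)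
    rw [← Real.rpow_mul (by positivity)]
    congr 1
    rw [← hcθ]
    linear_combination θ * hc1
  have h7 : (1 : ℝ) ≤ (x : ℝ) ^ θ := Real.one_le_rpow hx1 h0.le
  have h8 := hh_half h0.le g2
  have h9 : (kc c (k + 2) : ℝ) - kc c k ≤ (2 * c * 3 ^ (c - 1) + 1) * (x : ℝ) ^ θ := by
    have e1 : c * 2 * ((k : ℝ) + 2) ^ (c - 1) ≤ c * 2 * (3 ^ (c - 1) * (x : ℝ) ^ θ) :=
      mul_le_mul_of_nonneg_left h6 (by linarith)
    nlinarith
  have h10 : (0 : ℝ) < 2 * c * 3 ^ (c - 1) + 1 := by positivity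
  rw [one_div, inv_mul_le_iff₀ (by positivity)]
  nlinarith

/-- The logarithm of the index. -/
theorem log_index {θ : ℝ} (h1 : θ < 1) :
    Tendsto (fun x : ℕ => Real.log ((kx θ x / 2 : ℕ) : ℝ) / ((1 - θ) * Real.log x)) atTop (𝓝 1) := by
  have h2 : 0 < 1 - θ := by linarith
  have hl : Tendsto (fun x : ℕ => (1 - θ) * Real.log (x : ℝ)) atTop atTop := lg_top.const_mul_atTop h2
  have h3 : Tendsto (fun x : ℕ => 1 - Real.log 4 / ((1 - θ) * Real.log (x : ℝ))) atTop (𝓝 (1 - 0)) :=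
    tendsto_const_nhds.sub (hl.const_div_atTop _)
  rw [sub_zero] at h3
  have hx : Tendsto (fun x : ℕ => (x : ℝ) ^ (1 - θ)) atTop atTop :=
    (tendsto_rpow_atTop h2).comp tendsto_natCast_atTop_atTop
  refine tendsto_of_tendsto_of_tendsto_of_le_of_le' h3 tendsto_const_nhds ?_ ?_
  · filter_upwards [hl.eventually_gt_atTop 0, hx.eventually_ge_atTop 8, eventually_ge_atTop 1] with x g1 g2 g3
    have hx0 : (0 : ℝ) < x := by exact_mod_cast g3
    rw [le_div_iff₀ g1, sub_mul, one_mul, div_mul_cancel₀ _ g1.ne', ← Real.log_rpow hx0,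
      ← Real.log_div (by positivity) (by norm_num)]
    refine Real.log_le_log (by positivity) ?_
    have e1 := Nat.lt_floor_add_one ((x : ℝ) ^ (1 - θ))
    have e2 : (kx θ x : ℝ) ≤ 2 * ((kx θ x / 2 : ℕ) : ℝ) + 1 := by
      exact_mod_cast (show kx θ x ≤ 2 * (kx θ x / 2) + 1 by omega)
    unfold kx at e2 ⊢
    linarith
  · filter_upwards [hl.eventually_gt_atTop 0, hx.eventually_ge_atTop 8, eventually_ge_atTop 1] with x g1 g2 g3
    have hx0 : (0 : ℝ) < x := by exact_mod_cast g3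
    rw [div_le_one g1, ← Real.log_rpow hx0]
    have e0 : 2 ≤ kx θ x := by
      unfold kx
      refine Nat.le_floor ?_
      push_cast
      linarith
    refine Real.log_le_log (by exact_mod_cast (show 0 < kx θ x / 2 by omega)) ?_
    have e1 : (kx θ x : ℝ) ≤ (x : ℝ) ^ (1 - θ) := Nat.floor_le (by positivity)
    have e2 : ((kx θ x / 2 : ℕ) : ℝ) ≤ kx θ x := by exact_mod_cast Nat.div_le_self _ _
    linarith

variable {σ : Type*} {Q r : ℕ} {S : Fin r → Finset σ} {f : σ → ℕ → ℕ} {m₁ : ℕ}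

/-- The quotient of the norming factors. -/
theorem Sys.norming (h : Sys Q S f m₁) {θ : ℝ} (h0 : 0 < θ) (h1 : θ < 1) (i : Fin r) :
    Tendsto (fun x : ℕ => √((hh θ x : ℝ) / ((kc (1 / (1 - θ)) (kx θ x + 2) : ℝ) - kc (1 / (1 - θ)) (kx θ x)) *
      (cP Q S f m₁ i (kc (1 / (1 - θ)) (kx θ x + 2)) - cP Q S f m₁ i (kc (1 / (1 - θ)) (kx θ x))) /
      (cP Q S f m₁ i (x + hh θ x) - cP Q S f m₁ i x) *
      (Real.log ((kx θ x / 2 : ℕ) : ℝ) / ((1 - θ) * Real.log x)))) atTop (𝓝 1) := by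
  have h2 : 0 < 1 - θ := by linarith
  have hc : 1 < 1 / (1 - θ) := by
    rw [lt_div_iff₀ h2]
    linarith
  obtain ⟨c, hcd⟩ : ∃ c, c = 1 / (1 - θ) := ⟨_, rfl⟩
  rw [← hcd] at hc ⊢
  have ha : Tendsto (fun x => kc c (kx θ x)) atTop atTop := (kc_top hc.le).comp (kx_top h1)
  have hab : ∀ᶠ x in atTop, kc c (kx θ x) ≤ kc c (kx θ x + 2) :=
    Eventually.of_forall (fun x => kc_mono hc.le (by omega))
  have hC : ∃ C : ℕ, ∀ᶠ x in atTop, kc c (kx θ x + 2) ≤ C * kc c (kx θ x) := by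
    refine ⟨⌈2 * (3 : ℝ) ^ c⌉₊, ?_⟩
    filter_upwards [(kx_top h1).eventually_ge_atTop 1] with x hx
    exact kc_shift hc.le hx
  have hflat := h.flat ha hab hC i
  have h3 : Tendsto (fun x : ℕ => (hh θ x : ℝ) / ((kc c (kx θ x + 2) : ℝ) - kc c (kx θ x)) *
      (cP Q S f m₁ i (kc c (kx θ x + 2)) - cP Q S f m₁ i (kc c (kx θ x))) /
      (cP Q S f m₁ i (x + hh θ x) - cP Q S f m₁ i x)) atTop (𝓝 1) := by
    have h4 := hflat.inv₀ one_ne_zero
    rw [inv_one] at h4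
    refine tendsto_of_tendsto_of_tendsto_of_le_of_le' h4 hflat ?_ ?_
    · filter_upwards [ha.eventually_ge_atTop (m₁ + 3), eventually_ge_atTop 1] with x g1 g2
      have g3 := cover h0 h1 x
      rw [← hcd] at g3
      exact (h.part i g1 g3.1 (hh_one h0.le g2) g3.2).2.2.1
    · filter_upwards [ha.eventually_ge_atTop (m₁ + 3), eventually_ge_atTop 1] with x g1 g2
      have g3 := cover h0 h1 x
      rw [← hcd] at g3
      exact (h.part i g1 g3.1 (hh_one h0.le g2) g3.2).2.2.2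
  have h4 := (h3.mul (log_index h1)).sqrt
  rwa [mul_one, Real.sqrt_one] at h4

/-- **All paths of short windows are near Strassen's ball.** -/
theorem Sys.inc_upper (h : Sys Q S f m₁) {D : Fin r → ℕ → ℝ} {θ : ℝ} (h0 : 0 < θ) (h1 : θ < 1)
    (hW : ∀ s < 2, ∀ ε > 0, ∀ᶠ m in atTop, ∃ φ e, e ≤ 1 ∧ Energy φ e ∧
      Near ε (fun i t => Wp D (cP Q S f m₁) (kc (1 / (1 - θ)) (2 * m + s)) (kc (1 / (1 - θ)) (2 * m + s + 2))
        (Real.log m) i t) φ) {ε : ℝ} (hε : 0 < ε) :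
    ∀ᶠ x : ℕ in atTop, ∃ φ e, e ≤ 1 ∧ Energy φ e ∧
      Near ε (fun i t => Wp D (cP Q S f m₁) x (x + hh θ x) ((1 - θ) * Real.log x) i t) φ := by
  have h2 : 0 < 1 - θ := by linarith
  have hc : 1 < 1 / (1 - θ) := by
    rw [lt_div_iff₀ h2]
    linarith
  obtain ⟨κ, hκ, hlen⟩ := cover_len h0 h1
  have hnorm := fun i => h.norming h0 h1 i
  have hcov := fun x => cover h0 h1 x
  obtain ⟨c, hcd⟩ : ∃ c, c = 1 / (1 - θ) := ⟨_, rfl⟩
  rw [← hcd] at hc hW hlen hnorm hcov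
  have ha : Tendsto (fun x => kc c (kx θ x)) atTop atTop := (kc_top hc.le).comp (kx_top h1)
  obtain ⟨ε', hε'⟩ : ∃ ε', ε' = ε * √κ / 4 := ⟨_, rfl⟩
  have hsκ : 0 < √κ := Real.sqrt_pos.2 hκ
  have hε'0 : 0 < ε' := by rw [hε']; positivity
  obtain ⟨η, hη⟩ : ∃ η, η = ε / 2 / (1 + ε / 2) := ⟨_, rfl⟩
  have hη0 : 0 < η := by rw [hη]; positivity
  have hhalf : Tendsto (fun x => kx θ x / 2) atTop atTop :=
    (Nat.tendsto_div_const_atTop (by norm_num)).comp (kx_top h1)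
  have hρ : ∀ᶠ x : ℕ in atTop, ∀ i, |√((hh θ x : ℝ) / ((kc c (kx θ x + 2) : ℝ) - kc c (kx θ x)) *
      (cP Q S f m₁ i (kc c (kx θ x + 2)) - cP Q S f m₁ i (kc c (kx θ x))) /
      (cP Q S f m₁ i (x + hh θ x) - cP Q S f m₁ i x) *
      (Real.log ((kx θ x / 2 : ℕ) : ℝ) / ((1 - θ) * Real.log x))) - 1| < η := by
    refine eventually_all.2 (fun i => ?_)
    have := (Metric.tendsto_nhds.1 (hnorm i)) η hη0
    simpa only [Real.dist_eq] using this
  filter_upwards [hhalf.eventually (hW 0 (by norm_num) ε' hε'0), hhalf.eventually (hW 1 (by norm_num) ε' hε'0), hρ, hlen,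
    ha.eventually_ge_atTop (m₁ + 3), eventually_ge_atTop 2, hhalf.eventually_ge_atTop 2] with x g1 g2 g3 g4 g5 g6 g7
  have hx1 : (1 : ℝ) < x := by exact_mod_cast (show 1 < x by omega)
  obtain ⟨c1, c2⟩ := hcov x
  have hh1 := hh_one h0.le (show 1 ≤ x by omega)
  obtain ⟨k, hk⟩ : ∃ k, k = kx θ x := ⟨_, rfl⟩
  obtain ⟨H, hH⟩ : ∃ H, H = hh θ x := ⟨_, rfl⟩
  rw [← hk] at g1 g2 g3 g4 g5 g7 c1 c2
  rw [← hH] at g3 g4 c2 hh1 ⊢
  have hex : ∃ φ e, e ≤ 1 ∧ Energy φ e ∧ Near ε' (fun i t => Wp D (cP Q S f m₁) (kc c k) (kc c (k + 2))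
      (Real.log ((k / 2 : ℕ) : ℝ)) i t) φ := by
    rcases Nat.mod_two_eq_zero_or_one k with e1 | e1
    · rwa [show 2 * (k / 2) + 0 = k by omega] at g1
    · rwa [show 2 * (k / 2) + 1 = k by omega] at g2
  obtain ⟨φ, e, he, hφ, hN⟩ := hex
  obtain ⟨a, ha'⟩ : ∃ a, a = kc c k := ⟨_, rfl⟩
  obtain ⟨b, hb'⟩ : ∃ b, b = kc c (k + 2) := ⟨_, rfl⟩
  rw [← ha', ← hb'] at hN g3 g4
  rw [← ha'] at g5 c1
  rw [← hb'] at c2
  have hba : (0 : ℝ) < (b : ℝ) - a := by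
    have : (a : ℝ) < b := by exact_mod_cast (show a < b by omega)
    linarith
  have hH0 : (0 : ℝ) < H := by exact_mod_cast hh1
  obtain ⟨u, hu⟩ : ∃ u, u = ((x : ℝ) - a) / ((b : ℝ) - a) := ⟨_, rfl⟩
  obtain ⟨v, hv⟩ : ∃ v, v = u + (H : ℝ) / ((b : ℝ) - a) := ⟨_, rfl⟩
  have hvu : v - u = (H : ℝ) / ((b : ℝ) - a) := by rw [hv]; ring
  have hxa : (a : ℝ) ≤ x := by exact_mod_cast c1
  have hxb : (x : ℝ) + H ≤ b := by exact_mod_cast c2
  have hu0 : 0 ≤ u := by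
    rw [hu]
    exact div_nonneg (by linarith) hba.le
  have hvu0 : 0 < v - u := by
    rw [hvu]
    positivity
  have hv1 : v ≤ 1 := by
    rw [hv, hu, ← add_div, div_le_one hba]
    linarith
  have hκv : κ ≤ v - u := by
    rw [hvu, le_div_iff₀ hba]
    exact g4
  have hs : √κ ≤ √(v - u) := Real.sqrt_le_sqrt hκv
  have hs0 : 0 < √(v - u) := lt_of_lt_of_le hsκ hs
  obtain ⟨e', he', hE⟩ := energy_sub hφ hu0 (show u < v by linarith) hv1
  refine ⟨_, e', he'.trans he, hE, fun i t ht0 ht1 => ?_⟩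
  have hL : 0 < Real.log ((k / 2 : ℕ) : ℝ) := Real.log_pos (by exact_mod_cast (show 1 < k / 2 by omega))
  have hL' : 0 < (1 - θ) * Real.log x := mul_pos h2 (Real.log_pos hx1)
  obtain ⟨p1, p2, _, _⟩ := h.part i g5 c1 hh1 c2
  have key := sub_path (D := D) i c1 hh1 c2 p2 p1 hL hL' ht0 hu hvu
  simp only
  rw [key]
  have g3' := g3 i
  obtain ⟨ρ, hρ⟩ : ∃ ρ, ρ = √((H : ℝ) / ((b : ℝ) - a) * (cP Q S f m₁ i b - cP Q S f m₁ i a) /
      (cP Q S f m₁ i (x + H) - cP Q S f m₁ i x) * (Real.log ((k / 2 : ℕ) : ℝ) / ((1 - θ) * Real.log x))) := ⟨_, rfl⟩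
  rw [← hρ] at g3' ⊢
  have hut1 : u + (v - u) * t ≤ 1 := by nlinarith
  have hut0 : 0 ≤ u + (v - u) * t := by positivity
  have n1 := hN i (u + (v - u) * t) hut0 hut1
  have n2 := hN i u hu0 (by linarith)
  have n3 := energy_bound hE (he'.trans he) i ht0 ht1
  have n4 : √t ≤ 1 := by
    rw [Real.sqrt_le_one]
    exact ht1
  simp only at n1 n2 n3
  obtain ⟨w1, hw1⟩ : ∃ w1, w1 = Wp D (cP Q S f m₁) a b (Real.log ((k / 2 : ℕ) : ℝ)) i (u + (v - u) * t) := ⟨_, rfl⟩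
  obtain ⟨w2, hw2⟩ : ∃ w2, w2 = Wp D (cP Q S f m₁) a b (Real.log ((k / 2 : ℕ) : ℝ)) i u := ⟨_, rfl⟩
  rw [← hw1, ← hw2]
  rw [← hw1] at n1
  rw [← hw2] at n2
  obtain ⟨y, hy⟩ : ∃ y, y = (φ i (u + (v - u) * t) - φ i u) / √(v - u) := ⟨_, rfl⟩
  rw [← hy] at n3 ⊢
  have n5 : |(w1 - w2) / √(v - u) - y| ≤ ε / 2 := by
    rw [hy, ← sub_div, abs_div, abs_of_pos hs0, div_le_iff₀ hs0]
    have e1 : w1 - w2 - (φ i (u + (v - u) * t) - φ i u) = (w1 - φ i (u + (v - u) * t)) - (w2 - φ i u) := by ring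
    rw [e1]
    refine (abs_sub _ _).trans ?_
    have e2 : 2 * ε' ≤ ε / 2 * √(v - u) := by
      rw [hε']
      nlinarith
    linarith
  have n6 : |(w1 - w2) / √(v - u)| ≤ 1 + ε / 2 := by
    have e1 : (w1 - w2) / √(v - u) = ((w1 - w2) / √(v - u) - y) + y := by ring
    rw [e1]
    refine (abs_add_le _ _).trans ?_
    linarith
  have n7 : ρ * ((w1 - w2) / √(v - u)) - y = (ρ - 1) * ((w1 - w2) / √(v - u)) + ((w1 - w2) / √(v - u) - y) := by ring
  rw [n7]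
  refine (abs_add_le _ _).trans ?_
  rw [abs_mul]
  have n8 : |ρ - 1| * |(w1 - w2) / √(v - u)| ≤ η * (1 + ε / 2) :=
    mul_le_mul g3'.le n6 (abs_nonneg _) hη0.le
  have n9 : η * (1 + ε / 2) = ε / 2 := by
    rw [hη]
    field_simp
  linarith

end Pool.Agent.Q106.ST
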