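import Pool.Agent.Q106.ST.GW

/-!
# The windows between powers
-/

set_option autoImplicit false

namespace Pool.Agent.Q106.ST

open Finset Filter
open scoped Topology

/-- Differences of powers, lower bound. -/
theorem pow_low {c k d : ℝ} (hc : 1 ≤ c) (hk : 0 < k) (hd : 0 ≤ d) : k ^ c + c * d * k ^ (c - 1) ≤ (k + d) ^ c := by
  have h1 := one_add_mul_self_le_rpow_one_add (s := d / k) (by
    have : 0 ≤ d / k := by positivity
    linarith) hc
  have h2 : k + d = k * (1 + d / k) := by field_simp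
  have h3 : k ^ (c - 1) = k ^ c / k := by rw [Real.rpow_sub_one hk.ne']
  rw [h2, Real.mul_rpow hk.le (by positivity), h3]
  have h4 : k ^ c + c * d * (k ^ c / k) = k ^ c * (1 + c * (d / k)) := by
    field_simp
  rw [h4]
  exact mul_le_mul_of_nonneg_left h1 (by positivity)

/-- Differences of powers, upper bound. -/
theorem pow_up {c k d : ℝ} (hc : 1 ≤ c) (hk : 0 < k) (hd : 0 ≤ d) : (k + d) ^ c ≤ k ^ c + c * d * (k + d) ^ (c - 1) := by
  have hkd : 0 < k + d := by linarith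
  have h0 : -1 ≤ -d / (k + d) := by
    rw [le_div_iff₀ hkd]
    linarith
  have h1 := one_add_mul_self_le_rpow_one_add (s := -d / (k + d)) h0 hc
  have h2 : k = (k + d) * (1 + -d / (k + d)) := by field_simp; ring
  have h5 : 0 ≤ 1 + -d / (k + d) := by linarith
  have h3 : (k + d) ^ (c - 1) = (k + d) ^ c / (k + d) := by rw [Real.rpow_sub_one hkd.ne']
  have h6 : k ^ c = (k + d) ^ c * (1 + -d / (k + d)) ^ c := by
    conv_lhs => rw [h2]
    rw [Real.mul_rpow hkd.le h5]
  rw [h6, h3]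
  have h7 : (0 : ℝ) ≤ (k + d) ^ c := by positivity
  have h8 := mul_le_mul_of_nonneg_left h1 h7
  have h9 : (k + d) ^ c * (1 + c * (-d / (k + d))) = (k + d) ^ c - c * d * ((k + d) ^ c / (k + d)) := by
    field_simp
    ring
  rw [h9] at h8
  linarith

theorem floor_half {y : ℝ} (hy : 1 ≤ y) : y / 2 ≤ (⌊y⌋₊ : ℝ) := by
  have h1 := Nat.lt_floor_add_one y
  have h2 : (1 : ℝ) ≤ (⌊y⌋₊ : ℝ) := by
    exact_mod_cast (Nat.le_floor (by exact_mod_cast hy) : 1 ≤ ⌊y⌋₊)
  linarith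

/-- The power `⌊k^c⌋`. -/
noncomputable def kc (c : ℝ) (k : ℕ) : ℕ := ⌊(k : ℝ) ^ c⌋₊

theorem kc_mono {c : ℝ} (hc : 1 ≤ c) : Monotone (kc c) := by
  intro k l hkl
  unfold kc
  exact Nat.floor_le_floor (Real.rpow_le_rpow (Nat.cast_nonneg _) (by exact_mod_cast hkl) (by linarith))

theorem kc_ge {c : ℝ} (hc : 1 ≤ c) {k : ℕ} (hk : 1 ≤ k) : k ≤ kc c k := by
  have h1 : (1 : ℝ) ≤ k := by exact_mod_cast hk
  unfold kc
  refine Nat.le_floor ?_
  conv_lhs => rw [← Real.rpow_one (k : ℝ)]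
  exact Real.rpow_le_rpow_of_exponent_le h1 hc

theorem kc_top {c : ℝ} (hc : 1 ≤ c) : Tendsto (kc c) atTop atTop :=
  tendsto_atTop_mono' _ (by
    filter_upwards [eventually_ge_atTop 1] with k hk
    exact kc_ge hc hk) tendsto_id

theorem kc_le {c : ℝ} {k : ℕ} : (kc c k : ℝ) ≤ (k : ℝ) ^ c := Nat.floor_le (by positivity)

theorem kc_half {c : ℝ} (hc : 1 ≤ c) {k : ℕ} (hk : 1 ≤ k) : (k : ℝ) ^ c / 2 ≤ kc c k :=
  floor_half (Real.one_le_rpow (by exact_mod_cast hk) (by linarith))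

theorem kc_shift {c : ℝ} (hc : 1 ≤ c) {k : ℕ} (hk : 1 ≤ k) : kc c (k + 2) ≤ ⌈2 * (3 : ℝ) ^ c⌉₊ * kc c k := by
  have h1 : (1 : ℝ) ≤ k := by exact_mod_cast hk
  have h2 : (kc c (k + 2) : ℝ) ≤ (2 * (3 : ℝ) ^ c) * kc c k := by
    refine kc_le.trans ?_
    have h3 : ((k + 2 : ℕ) : ℝ) ≤ 3 * k := by push_cast; linarith
    have h4 := Real.rpow_le_rpow (Nat.cast_nonneg _) h3 (show 0 ≤ c by linarith)
    rw [Real.mul_rpow (by norm_num) (by linarith)] at h4
    refine h4.trans ?_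
    have h5 := kc_half hc hk
    have h6 : (0 : ℝ) < (3 : ℝ) ^ c := by positivity
    nlinarith
  have h3 : (kc c (k + 2) : ℝ) ≤ (⌈2 * (3 : ℝ) ^ c⌉₊ : ℝ) * kc c k :=
    h2.trans (mul_le_mul_of_nonneg_right (Nat.le_ceil _) (Nat.cast_nonneg _))
  exact_mod_cast h3

/-- The length of the windows. -/
theorem kc_len {c : ℝ} (hc : 1 ≤ c) {k : ℕ} (hk : 1 ≤ k) : (k : ℝ) ^ (c - 1) ≤ (kc c (k + 2) : ℝ) - kc c k := by
  have h1 : (1 : ℝ) ≤ k := by exact_mod_cast hk
  have h2 := pow_low hc (show (0 : ℝ) < k by linarith) (show (0 : ℝ) ≤ 2 by norm_num)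
  have h3 : ((k + 2 : ℕ) : ℝ) ^ c - 1 < kc c (k + 2) := by
    have := Nat.lt_floor_add_one (((k + 2 : ℕ) : ℝ) ^ c)
    unfold kc
    linarith
  have h4 : (kc c k : ℝ) ≤ (k : ℝ) ^ c := kc_le
  have h5 : (1 : ℝ) ≤ (k : ℝ) ^ (c - 1) := Real.one_le_rpow h1 (by linarith)
  push_cast at h3
  nlinarith

theorem wins_pow {c : ℝ} (hc : 1 < c) (s : ℕ) : Wins (fun m => kc c (2 * m + s)) (fun m => kc c (2 * m + s + 2)) where
  top := (kc_top hc.le).comp (tendsto_atTop_mono (fun m => by simp only [id]; omega) tendsto_id)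
  le := Eventually.of_forall (fun m => kc_mono hc.le (by omega))
  size := by
    refine ⟨(c - 1) / (2 * c), by apply div_pos <;> linarith, ?_⟩
    filter_upwards [eventually_ge_atTop 1] with m hm
    obtain ⟨k, hk⟩ : ∃ k, k = 2 * m + s := ⟨_, rfl⟩
    rw [← hk]
    have hk2 : (2 : ℝ) ≤ k := by exact_mod_cast (show 2 ≤ k by omega)
    refine le_trans ?_ (kc_len hc.le (show 1 ≤ k by omega))
    have h1 : (kc c (k + 2) : ℝ) ≤ (((k : ℝ) ^ (2 : ℝ))) ^ c := by
      refine kc_le.trans (Real.rpow_le_rpow (Nat.cast_nonneg _) ?_ (by linarith))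
      push_cast
      rw [Real.rpow_two]
      nlinarith
    have h2 := Real.rpow_le_rpow (Nat.cast_nonneg _) h1 (show 0 ≤ (c - 1) / (2 * c) by
      apply div_nonneg <;> linarith)
    rw [← Real.rpow_mul (by positivity), ← Real.rpow_mul (by positivity)] at h2
    have h3 : 2 * (c * ((c - 1) / (2 * c))) = c - 1 := by
      have : c ≠ 0 := by linarith
      field_simp
    rwa [h3] at h2
  big := by
    filter_upwards with m
    exact le_trans (by omega) (kc_ge hc.le (show 1 ≤ 2 * m + s + 2 by omega))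
  ratio := by
    refine ⟨⌈2 * (3 : ℝ) ^ c⌉₊, ?_⟩
    filter_upwards [eventually_ge_atTop 1] with m hm
    exact kc_shift hc.le (by omega)
  poly := by
    refine ⟨⌈2 * c⌉₊, ?_⟩
    filter_upwards [eventually_ge_atTop (s + 4)] with m hm
    have h1 : (1 : ℝ) ≤ m := by exact_mod_cast (show 1 ≤ m by omega)
    have h2 : (kc c (2 * m + s + 2) : ℝ) ≤ ((m ^ ⌈2 * c⌉₊ : ℕ) : ℝ) := by
      refine kc_le.trans ?_
      have h3 : ((2 * m + s + 2 : ℕ) : ℝ) ≤ (m : ℝ) ^ (2 : ℝ) := by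
        rw [Real.rpow_two]
        have : 2 * m + s + 2 ≤ m ^ 2 := by nlinarith
        exact_mod_cast this
      refine (Real.rpow_le_rpow (Nat.cast_nonneg _) h3 (by linarith)).trans ?_
      rw [← Real.rpow_mul (by linarith), Nat.cast_pow, ← Real.rpow_natCast]
      exact Real.rpow_le_rpow_of_exponent_le h1 (Nat.le_ceil _)
    exact_mod_cast h2
  disj := Eventually.of_forall (fun m => le_of_eq (by
    rw [show 2 * (m + 1) + s = 2 * m + s + 2 by ring]))

/-- The length of the short windows. -/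
noncomputable def hh (θ : ℝ) (x : ℕ) : ℕ := ⌊(x : ℝ) ^ θ⌋₊

theorem hh_le {θ : ℝ} {x : ℕ} : (hh θ x : ℝ) ≤ (x : ℝ) ^ θ := Nat.floor_le (by positivity)

theorem hh_half {θ : ℝ} (h0 : 0 ≤ θ) {x : ℕ} (hx : 1 ≤ x) : (x : ℝ) ^ θ / 2 ≤ hh θ x :=
  floor_half (Real.one_le_rpow (by exact_mod_cast hx) h0)

theorem hh_one {θ : ℝ} (h0 : 0 ≤ θ) {x : ℕ} (hx : 1 ≤ x) : 1 ≤ hh θ x := by
  unfold hh
  refine Nat.le_floor ?_
  rw [Nat.cast_one]
  exact Real.one_le_rpow (by exact_mod_cast hx) h0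

theorem hh_le_self {θ : ℝ} (h1 : θ ≤ 1) {x : ℕ} (hx : 1 ≤ x) : hh θ x ≤ x := by
  have h2 : (1 : ℝ) ≤ x := by exact_mod_cast hx
  have h3 : (hh θ x : ℝ) ≤ x := by
    refine hh_le.trans ?_
    conv_rhs => rw [← Real.rpow_one (x : ℝ)]
    exact Real.rpow_le_rpow_of_exponent_le h2 h1
  exact_mod_cast h3

theorem wins_short {θ : ℝ} (h0 : 0 < θ) (h1 : θ < 1) :
    Wins (fun n => kc (1 / (1 - θ)) n) (fun n => kc (1 / (1 - θ)) n + hh θ (kc (1 / (1 - θ)) n)) := by
  have h2 : 0 < 1 - θ := by linarith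
  have hc : 1 < 1 / (1 - θ) := by
    rw [lt_div_iff₀ h2]
    linarith
  obtain ⟨c, hcd⟩ : ∃ c, c = 1 / (1 - θ) := ⟨_, rfl⟩
  have hcθ : c * θ = c - 1 := by
    rw [hcd]
    field_simp
    ring
  rw [← hcd] at hc ⊢
  exact
    { top := kc_top hc.le
      le := Eventually.of_forall (fun n => Nat.le_add_right _ _)
      size := by
        refine ⟨θ / 2, by positivity, ?_⟩
        have h3 : Tendsto (fun n => (kc c n : ℝ) ^ (θ / 2)) atTop atTop :=
          (tendsto_rpow_atTop (by positivity)).comp (tendsto_natCast_atTop_atTop.comp (kc_top hc.le))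
        filter_upwards [h3.eventually_ge_atTop (2 * (2 : ℝ) ^ (θ / 2)), eventually_ge_atTop 1] with n h4 h5
        have h6 : 1 ≤ kc c n := h5.trans (kc_ge hc.le h5)
        have h7 : (1 : ℝ) ≤ kc c n := by exact_mod_cast h6
        have h8 := hh_half h0.le h6
        have h9 : ((kc c n + hh θ (kc c n) : ℕ) : ℝ) ≤ 2 * kc c n := by
          have := hh_le_self h1.le h6
          have : kc c n + hh θ (kc c n) ≤ 2 * kc c n := by omega
          exact_mod_cast this
        have h10 := Real.rpow_le_rpow (Nat.cast_nonneg _) h9 (show 0 ≤ θ / 2 by positivity)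
        rw [Real.mul_rpow (by norm_num) (by linarith)] at h10
        have h11 : (kc c n : ℝ) ^ θ = (kc c n : ℝ) ^ (θ / 2) * (kc c n : ℝ) ^ (θ / 2) := by
          rw [← Real.rpow_add (by linarith), add_halves]
        have h12 : ((kc c n + hh θ (kc c n) : ℕ) : ℝ) - (kc c n : ℝ) = hh θ (kc c n) := by
          push_cast
          ring
        rw [h12]
        refine h10.trans (le_trans ?_ h8)
        rw [h11]
        have h13 : (0 : ℝ) < (kc c n : ℝ) ^ (θ / 2) := by positivity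
        nlinarith
      big := by
        filter_upwards [eventually_ge_atTop 1] with n hn
        have := kc_ge hc.le hn
        omega
      ratio := by
        refine ⟨2, ?_⟩
        filter_upwards [eventually_ge_atTop 1] with n hn
        have := hh_le_self h1.le (hn.trans (kc_ge hc.le hn))
        omega
      poly := by
        refine ⟨⌈c⌉₊ + 1, ?_⟩
        filter_upwards [eventually_ge_atTop 2] with n hn
        have h3 := hh_le_self h1.le ((show 1 ≤ n by omega).trans (kc_ge hc.le (show 1 ≤ n by omega)))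
        have h4 : kc c n ≤ n ^ ⌈c⌉₊ := by
          have h5 : (kc c n : ℝ) ≤ ((n ^ ⌈c⌉₊ : ℕ) : ℝ) := by
            refine kc_le.trans ?_
            rw [Nat.cast_pow, ← Real.rpow_natCast]
            exact Real.rpow_le_rpow_of_exponent_le (by exact_mod_cast (show 1 ≤ n by omega)) (Nat.le_ceil _)
          exact_mod_cast h5
        rw [pow_succ]
        have h6 : n ^ ⌈c⌉₊ * 2 ≤ n ^ ⌈c⌉₊ * n := Nat.mul_le_mul_left _ hn
        omega
      disj := by
        filter_upwards [eventually_ge_atTop 1] with n hn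
        have h3 : (1 : ℝ) ≤ n := by exact_mod_cast hn
        have h4 := pow_low hc.le (show (0 : ℝ) < n by linarith) (show (0 : ℝ) ≤ 1 by norm_num)
        have h5 : (kc c n : ℝ) ≤ (n : ℝ) ^ c := kc_le
        have h6 : (hh θ (kc c n) : ℝ) ≤ (n : ℝ) ^ (c - 1) := by
          refine hh_le.trans ?_
          refine (Real.rpow_le_rpow (Nat.cast_nonneg _) h5 h0.le).trans (le_of_eq ?_)
          rw [← Real.rpow_mul (by linarith), hcθ]
        have h7 : (0 : ℝ) < (n : ℝ) ^ (c - 1) := by positivity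
        show kc c n + hh θ (kc c n) ≤ ⌊((n + 1 : ℕ) : ℝ) ^ c⌋₊
        refine Nat.le_floor ?_
        push_cast
        nlinarith }

end Pool.Agent.Q106.ST
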